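import Mathlib
import Pool.Agent.H39.Q1.Sides
import Pool.Agent.H75.TwoArm.Symm

set_option autoImplicit false
open Finset

/-! # M3, part E: basic facts on corners

`oc c` is the second corner with the same previous label. `pvO c`, `pvC c` are the previous corners
when the label `plab c` is open (rotation around the face of `c`), closed (rotation around the vertex
of `c`). -/

namespace Pool.Agent.H43.Q1

open Pool.Agent.H75.Perc Pool.Agent.H75.TwoArm Pool.Agent.H99.NC Pool.Agent.H69.Q1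
open Pool.Agent.H39.Q1
open Pool.Agent.H75.TwoArm.SymmAux (pvO pvC pv_eq)

/-- the other corner with the same previous label -/
def oc (c : ℤ × ℤ) : ℤ × ℤ := (2 * (plab c).1 + 1 - c.1, 2 * (plab c).2 + 1 - c.2)

lemma plab_oc (c : ℤ × ℤ) : plab (oc c) = plab c := by
  obtain ⟨a, b⟩ := c
  unfold oc plab
  simp only
  split_ifs <;> simp only [Prod.mk.injEq] at * <;> omega

lemma oc_oc (c : ℤ × ℤ) : oc (oc c) = c := by
  unfold oc
  have h := plab_oc c
  unfold oc at h
  rw [h]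
  exact Prod.ext (by simp only; ring) (by simp only; ring)

lemma oc_ne (c : ℤ × ℤ) : oc c ≠ c := by
  intro h
  have h1 := congrArg Prod.fst h
  unfold oc at h1
  simp only at h1
  omega

lemma eq_or_oc {c c' : ℤ × ℤ} (h : plab c' = plab c) : c' = c ∨ c' = oc c := by
  obtain ⟨a, b⟩ := c
  obtain ⟨x, y⟩ := c'
  unfold oc
  unfold plab at h ⊢
  simp only at h ⊢
  simp only [Prod.mk.injEq]
  split_ifs at h ⊢ <;> simp only [Prod.mk.injEq] at * <;> omega

/-- the two ends of the previous label -/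
lemma plab_ends (c : ℤ × ℤ) : IsUnit4 (vx (oc c) - vx c) ∧ vx c + vx (oc c) = plab c := by
  obtain ⟨a, b⟩ := c
  unfold oc plab vx IsUnit4
  simp only
  split_ifs <;> simp only [Prod.mk_sub_mk, Prod.mk_add_mk, Prod.mk.injEq] <;> omega

/-- the two faces of the previous label -/
lemma plab_faces (c : ℤ × ℤ) : IsUnit4 (fi (oc c) - fi c) ∧ fi c + fi (oc c) = plab c + (1, 1) := by
  obtain ⟨a, b⟩ := c
  unfold oc plab fi IsUnit4
  simp only
  split_ifs <;> simp only [Prod.mk_sub_mk, Prod.mk_add_mk, Prod.mk.injEq] <;> omega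

lemma corner_ext {c c' : ℤ × ℤ} (h1 : vx c = vx c') (h2 : fi c = fi c') : c = c' := by
  obtain ⟨a, b⟩ := c
  obtain ⟨x, y⟩ := c'
  unfold vx at h1
  unfold fi at h2
  simp only [Prod.mk.injEq] at *
  omega

lemma vx_oc_ne (c : ℤ × ℤ) : vx (oc c) ≠ vx c := by
  have h := (plab_ends c).1
  intro h1
  rw [h1, sub_self] at h
  unfold IsUnit4 at h
  simp [Prod.ext_iff] at h

lemma fi_oc_ne (c : ℤ × ℤ) : fi (oc c) ≠ fi c := by
  have h := (plab_faces c).1
  intro h1
  rw [h1, sub_self] at h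
  unfold IsUnit4 at h
  simp [Prod.ext_iff] at h

/-! ### The two previous corners -/

lemma vx_pvO (c : ℤ × ℤ) : vx (pvO c) = vx (oc c) := by
  obtain ⟨a, b⟩ := c
  unfold oc plab pvO vx
  simp only
  split_ifs <;> refine Prod.ext ?_ ?_ <;> simp only <;> omega

lemma fi_pvO (c : ℤ × ℤ) : fi (pvO c) = fi c := by
  obtain ⟨a, b⟩ := c
  unfold pvO fi
  simp only
  split_ifs <;> refine Prod.ext ?_ ?_ <;> simp only <;> omega

lemma vx_pvC (c : ℤ × ℤ) : vx (pvC c) = vx c := by
  obtain ⟨a, b⟩ := c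
  unfold pvC vx
  simp only
  split_ifs <;> refine Prod.ext ?_ ?_ <;> simp only <;> omega

lemma fi_pvC (c : ℤ × ℤ) : fi (pvC c) = fi (oc c) := by
  obtain ⟨a, b⟩ := c
  unfold oc plab pvC fi
  simp only
  split_ifs <;> refine Prod.ext ?_ ?_ <;> simp only <;> omega

lemma lab_pvO (c : ℤ × ℤ) : lab (pvO c) = plab c := by
  obtain ⟨a, b⟩ := c
  unfold pvO plab lab
  simp only
  split_ifs <;> first | (exfalso; omega) | (refine Prod.ext ?_ ?_ <;> simp only <;> omega)

lemma lab_pvC (c : ℤ × ℤ) : lab (pvC c) = plab c := by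
  obtain ⟨a, b⟩ := c
  unfold pvC plab lab
  simp only
  split_ifs <;> first | (exfalso; omega) | (refine Prod.ext ?_ ?_ <;> simp only <;> omega)

lemma pvO_oc (c : ℤ × ℤ) : pvO (oc c) = pvC c := by
  apply corner_ext
  · rw [vx_pvO, oc_oc, vx_pvC]
  · rw [fi_pvO, fi_pvC]

lemma pvC_oc (c : ℤ × ℤ) : pvC (oc c) = pvO c := by
  apply corner_ext
  · rw [vx_pvC, vx_pvO]
  · rw [fi_pvC, oc_oc, fi_pvO]

lemma pv_open {w : Finset (ℤ × ℤ)} {c : ℤ × ℤ} (h : plab c ∈ w) : pv w c = pvO c := by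
  rw [pv_eq, if_pos h]

lemma pv_closed {w : Finset (ℤ × ℤ)} {c : ℤ × ℤ} (h : plab c ∉ w) : pv w c = pvC c := by
  rw [pv_eq, if_neg h]

/-- the rotation around a face, in coordinates -/
lemma pvO_cases (a b : ℤ) :
    (a % 2 = 0 ∧ b % 2 = 0 ∧ pvO (a, b) = (a - 1, b) ∧ pvO (a - 1, b) = (a - 1, b - 1) ∧
      pvO (a - 1, b - 1) = (a, b - 1)) ∨
    (a % 2 = 0 ∧ b % 2 = 1 ∧ pvO (a, b) = (a, b + 1) ∧ pvO (a, b + 1) = (a - 1, b + 1) ∧
      pvO (a - 1, b + 1) = (a - 1, b)) ∨
    (a % 2 = 1 ∧ b % 2 = 0 ∧ pvO (a, b) = (a, b - 1) ∧ pvO (a, b - 1) = (a + 1, b - 1) ∧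
      pvO (a + 1, b - 1) = (a + 1, b)) ∨
    (a % 2 = 1 ∧ b % 2 = 1 ∧ pvO (a, b) = (a + 1, b) ∧ pvO (a + 1, b) = (a + 1, b + 1) ∧
      pvO (a + 1, b + 1) = (a, b + 1)) := by
  have ha : a % 2 = 0 ∨ a % 2 = 1 := by omega
  have hb : b % 2 = 0 ∨ b % 2 = 1 := by omega
  rcases ha with ha | ha <;> rcases hb with hb | hb
  · left
    refine ⟨ha, hb, ?_, ?_, ?_⟩
    · unfold pvO; simp [ha, hb]
    · unfold pvO; simp [hb, show (a - 1) % 2 = 1 by omega]
    · unfold pvO; simp [show (a - 1) % 2 = 1 by omega, show (b - 1) % 2 = 1 by omega]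
  · right; left
    refine ⟨ha, hb, ?_, ?_, ?_⟩
    · unfold pvO; simp [ha, hb]
    · unfold pvO; simp [ha, show (b + 1) % 2 = 0 by omega]
    · unfold pvO; simp [show (a - 1) % 2 = 1 by omega, show (b + 1) % 2 = 0 by omega]
  · right; right; left
    refine ⟨ha, hb, ?_, ?_, ?_⟩
    · unfold pvO; simp [ha, hb]
    · unfold pvO; simp [ha, show (b - 1) % 2 = 1 by omega]
    · unfold pvO; simp [show (a + 1) % 2 = 0 by omega, show (b - 1) % 2 = 1 by omega]
  · right; right; right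
    refine ⟨ha, hb, ?_, ?_, ?_⟩
    · unfold pvO; simp [ha, hb]
    · unfold pvO; simp [hb, show (a + 1) % 2 = 0 by omega]
    · unfold pvO; simp [show (a + 1) % 2 = 0 by omega, show (b + 1) % 2 = 0 by omega]

/-- the rotation around a vertex, in coordinates -/
lemma pvC_cases (a b : ℤ) :
    (a % 2 = 0 ∧ b % 2 = 0 ∧ pvC (a, b) = (a, b + 1) ∧ pvC (a, b + 1) = (a + 1, b + 1) ∧
      pvC (a + 1, b + 1) = (a + 1, b)) ∨
    (a % 2 = 0 ∧ b % 2 = 1 ∧ pvC (a, b) = (a + 1, b) ∧ pvC (a + 1, b) = (a + 1, b - 1) ∧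
      pvC (a + 1, b - 1) = (a, b - 1)) ∨
    (a % 2 = 1 ∧ b % 2 = 0 ∧ pvC (a, b) = (a - 1, b) ∧ pvC (a - 1, b) = (a - 1, b + 1) ∧
      pvC (a - 1, b + 1) = (a, b + 1)) ∨
    (a % 2 = 1 ∧ b % 2 = 1 ∧ pvC (a, b) = (a, b - 1) ∧ pvC (a, b - 1) = (a - 1, b - 1) ∧
      pvC (a - 1, b - 1) = (a - 1, b)) := by
  have ha : a % 2 = 0 ∨ a % 2 = 1 := by omega
  have hb : b % 2 = 0 ∨ b % 2 = 1 := by omega
  rcases ha with ha | ha <;> rcases hb with hb | hb
  · left
    refine ⟨ha, hb, ?_, ?_, ?_⟩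
    · unfold pvC; simp [ha, hb]
    · unfold pvC; simp [ha, show (b + 1) % 2 = 1 by omega]
    · unfold pvC; simp [show (a + 1) % 2 = 1 by omega, show (b + 1) % 2 = 1 by omega]
  · right; left
    refine ⟨ha, hb, ?_, ?_, ?_⟩
    · unfold pvC; simp [ha, hb]
    · unfold pvC; simp [hb, show (a + 1) % 2 = 1 by omega]
    · unfold pvC; simp [show (a + 1) % 2 = 1 by omega, show (b - 1) % 2 = 0 by omega]
  · right; right; left
    refine ⟨ha, hb, ?_, ?_, ?_⟩
    · unfold pvC; simp [ha, hb]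
    · unfold pvC; simp [hb, show (a - 1) % 2 = 0 by omega]
    · unfold pvC; simp [show (a - 1) % 2 = 0 by omega, show (b + 1) % 2 = 1 by omega]
  · right; right; right
    refine ⟨ha, hb, ?_, ?_, ?_⟩
    · unfold pvC; simp [ha, hb]
    · unfold pvC; simp [ha, show (b - 1) % 2 = 0 by omega]
    · unfold pvC; simp [show (a - 1) % 2 = 0 by omega, show (b - 1) % 2 = 0 by omega]

lemma plab_pvO3 (c : ℤ × ℤ) : plab (pvO (pvO (pvO c))) = lab c := by
  obtain ⟨a, b⟩ := c
  rcases pvO_cases a b with ⟨ha, hb, e1, e2, e3⟩ | ⟨ha, hb, e1, e2, e3⟩ | ⟨ha, hb, e1, e2, e3⟩ |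
    ⟨ha, hb, e1, e2, e3⟩ <;> rw [e1, e2, e3] <;> unfold plab lab <;> simp only <;> split_ifs <;>
    first | (exfalso; omega) | (refine Prod.ext ?_ ?_ <;> simp only <;> omega)

lemma plab_pvC3 (c : ℤ × ℤ) : plab (pvC (pvC (pvC c))) = lab c := by
  obtain ⟨a, b⟩ := c
  rcases pvC_cases a b with ⟨ha, hb, e1, e2, e3⟩ | ⟨ha, hb, e1, e2, e3⟩ | ⟨ha, hb, e1, e2, e3⟩ |
    ⟨ha, hb, e1, e2, e3⟩ <;> rw [e1, e2, e3] <;> unfold plab lab <;> simp only <;> split_ifs <;>
    first | (exfalso; omega) | (refine Prod.ext ?_ ?_ <;> simp only <;> omega)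

/-- the four corners of a face -/
lemma same_face {c d : ℤ × ℤ} (h : fi d = fi c) :
    d = c ∨ d = pvO c ∨ d = pvO (pvO c) ∨ d = pvO (pvO (pvO c)) := by
  obtain ⟨a, b⟩ := c
  obtain ⟨x, y⟩ := d
  unfold fi at h
  simp only [Prod.mk.injEq] at h
  rcases pvO_cases a b with ⟨ha, hb, e1, e2, e3⟩ | ⟨ha, hb, e1, e2, e3⟩ | ⟨ha, hb, e1, e2, e3⟩ |
    ⟨ha, hb, e1, e2, e3⟩ <;> rw [e1, e2, e3] <;> simp only [Prod.mk.injEq] <;> omega

/-- the four corners of a vertex -/
lemma same_vx {c d : ℤ × ℤ} (h : vx d = vx c) :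
    d = c ∨ d = pvC c ∨ d = pvC (pvC c) ∨ d = pvC (pvC (pvC c)) := by
  obtain ⟨a, b⟩ := c
  obtain ⟨x, y⟩ := d
  unfold vx at h
  simp only [Prod.mk.injEq] at h
  rcases pvC_cases a b with ⟨ha, hb, e1, e2, e3⟩ | ⟨ha, hb, e1, e2, e3⟩ | ⟨ha, hb, e1, e2, e3⟩ |
    ⟨ha, hb, e1, e2, e3⟩ <;> rw [e1, e2, e3] <;> simp only [Prod.mk.injEq] <;> omega

/-- a corner of a face is determined by its previous label -/
lemma plab_inj_face {c d : ℤ × ℤ} (h : fi d = fi c) (h' : plab d = plab c) : d = c := by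
  rcases eq_or_oc h' with h1 | h1
  · exact h1
  · rw [h1] at h
    exact absurd h (fi_oc_ne c)

/-- a corner of a vertex is determined by its previous label -/
lemma plab_inj_vx {c d : ℤ × ℤ} (h : vx d = vx c) (h' : plab d = plab c) : d = c := by
  rcases eq_or_oc h' with h1 | h1
  · exact h1
  · rw [h1] at h
    exact absurd h (vx_oc_ne c)

/-- every label next to a face is the previous label of one of its corners -/
lemma exists_face {f f' e : ℤ × ℤ} (h : IsUnit4 (f' - f)) (he : f + f' = e + (1, 1)) :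
    ∃ d, fi d = f ∧ plab d = e ∧ fi (oc d) = f' := by
  have key : ∃ d, fi d = f ∧ plab d = e := by
    obtain ⟨x, y⟩ := f
    obtain ⟨x', y'⟩ := f'
    obtain ⟨p, q⟩ := e
    unfold IsUnit4 at h
    simp only [Prod.mk_sub_mk, Prod.mk.injEq, Prod.mk_add_mk] at h he
    rcases h with h | h | h | h
    · refine ⟨(2 * x, 2 * y - 1), ?_, ?_⟩
      · unfold fi; simp only [Prod.mk.injEq]; constructor <;> omega
      · unfold plab
        simp only [show (2 * y - 1) % 2 = 1 by omega, show (2 * x) % 2 = 0 by omega]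
        simp only [one_ne_zero, if_false, if_true, Prod.mk.injEq]
        constructor <;> omega
    · refine ⟨(2 * x, 2 * y), ?_, ?_⟩
      · unfold fi; simp only [Prod.mk.injEq]; constructor <;> omega
      · unfold plab
        simp only [show (2 * y) % 2 = 0 by omega, show (2 * x) % 2 = 0 by omega]
        simp only [if_true, Prod.mk.injEq]
        constructor <;> omega
    · refine ⟨(2 * x - 1, 2 * y), ?_, ?_⟩
      · unfold fi; simp only [Prod.mk.injEq]; constructor <;> omega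
      · unfold plab
        simp only [show (2 * y) % 2 = 0 by omega, show (2 * x - 1) % 2 = 1 by omega]
        simp only [one_ne_zero, if_false, if_true, Prod.mk.injEq]
        constructor <;> omega
    · refine ⟨(2 * x - 1, 2 * y - 1), ?_, ?_⟩
      · unfold fi; simp only [Prod.mk.injEq]; constructor <;> omega
      · unfold plab
        simp only [show (2 * y - 1) % 2 = 1 by omega, show (2 * x - 1) % 2 = 1 by omega]
        simp only [one_ne_zero, if_false, Prod.mk.injEq]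
        constructor <;> omega
  obtain ⟨d, h1, h2⟩ := key
  refine ⟨d, h1, h2, ?_⟩
  have h3 := (plab_faces d).2
  rw [h1, h2, ← he] at h3
  exact add_left_cancel h3

/-- every label at a vertex is the previous label of one of its corners -/
lemma exists_vx {v v' e : ℤ × ℤ} (h : IsUnit4 (v' - v)) (he : v + v' = e) :
    ∃ d, vx d = v ∧ plab d = e ∧ vx (oc d) = v' := by
  have key : ∃ d, vx d = v ∧ plab d = e := by
    obtain ⟨x, y⟩ := v
    obtain ⟨x', y'⟩ := v'
    obtain ⟨p, q⟩ := e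
    unfold IsUnit4 at h
    simp only [Prod.mk_sub_mk, Prod.mk.injEq, Prod.mk_add_mk] at h he
    rcases h with h | h | h | h
    · refine ⟨(2 * x + 1, 2 * y + 1), ?_, ?_⟩
      · unfold vx; simp only [Prod.mk.injEq]; constructor <;> omega
      · unfold plab
        simp only [show (2 * y + 1) % 2 = 1 by omega, show (2 * x + 1) % 2 = 1 by omega]
        simp only [one_ne_zero, if_false, Prod.mk.injEq]
        constructor <;> omega
    · refine ⟨(2 * x, 2 * y + 1), ?_, ?_⟩
      · unfold vx; simp only [Prod.mk.injEq]; constructor <;> omega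
      · unfold plab
        simp only [show (2 * y + 1) % 2 = 1 by omega, show (2 * x) % 2 = 0 by omega]
        simp only [one_ne_zero, if_false, if_true, Prod.mk.injEq]
        constructor <;> omega
    · refine ⟨(2 * x, 2 * y), ?_, ?_⟩
      · unfold vx; simp only [Prod.mk.injEq]; constructor <;> omega
      · unfold plab
        simp only [show (2 * y) % 2 = 0 by omega, show (2 * x) % 2 = 0 by omega]
        simp only [if_true, Prod.mk.injEq]
        constructor <;> omega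
    · refine ⟨(2 * x + 1, 2 * y), ?_, ?_⟩
      · unfold vx; simp only [Prod.mk.injEq]; constructor <;> omega
      · unfold plab
        simp only [show (2 * y) % 2 = 0 by omega, show (2 * x + 1) % 2 = 1 by omega]
        simp only [one_ne_zero, if_false, if_true, Prod.mk.injEq]
        constructor <;> omega
  obtain ⟨d, h1, h2⟩ := key
  refine ⟨d, h1, h2, ?_⟩
  have h3 := (plab_ends d).2
  rw [h1, h2, ← he] at h3
  exact add_left_cancel h3

end Pool.Agent.H43.Q1
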