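import Mathlib
import Pool.Agent.H43.Q1.Base

set_option autoImplicit false
open Finset

/-! # Parity

A closed chain of labels (mod 2) has a function on the faces which changes exactly across its labels;
the same for closed chains of dual edges and functions on the vertices. -/

namespace Pool.Agent.H43.Q1

open Pool.Agent.H75.Perc Pool.Agent.H75.TwoArm Pool.Agent.H75.Four Pool.Agent.H99.NC
open Pool.Agent.H69.Q1 Pool.Agent.H39.Q1

/-- the boundary of a chain of labels, tested with the function `V` -/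
noncomputable def bd (P : Finset (ℤ × ℤ)) (V : ℤ × ℤ → ZMod 2) : ZMod 2 :=
  ∑ e ∈ P, (V (eu e) + V (ev e))

lemma two_zero (a : ZMod 2) : a + a = 0 := CharTwo.add_self_eq_zero a

lemma sum_symmDiff (P Q : Finset (ℤ × ℤ)) (f : ℤ × ℤ → ZMod 2) :
    ∑ e ∈ symmDiff P Q, f e = ∑ e ∈ P, f e + ∑ e ∈ Q, f e := by
  have h1 : ∑ e ∈ P, f e = ∑ e ∈ P \ Q, f e + ∑ e ∈ P ∩ Q, f e := by
    rw [add_comm]; exact (Finset.sum_inter_add_sum_sdiff P Q f).symm
  have h2 : ∑ e ∈ Q, f e = ∑ e ∈ Q \ P, f e + ∑ e ∈ P ∩ Q, f e := by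
    rw [add_comm, Finset.inter_comm P Q]; exact (Finset.sum_inter_add_sum_sdiff Q P f).symm
  have h3 : ∑ e ∈ symmDiff P Q, f e = ∑ e ∈ P \ Q, f e + ∑ e ∈ Q \ P, f e := by
    rw [symmDiff_def, Finset.sup_eq_union, Finset.sum_union]
    rw [disjoint_left]
    intro e h h'
    exact (mem_sdiff.1 h').2 (mem_sdiff.1 h).1
  rw [h1, h2, h3]
  have := two_zero (∑ e ∈ P ∩ Q, f e)
  linear_combination -this

lemma bd_symmDiff (P Q : Finset (ℤ × ℤ)) (V : ℤ × ℤ → ZMod 2) :
    bd (symmDiff P Q) V = bd P V + bd Q V := sum_symmDiff _ _ _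

/-- every connection contains a chain with boundary its two ends -/
lemma co_chain {w : Finset (ℤ × ℤ)} {a b : ℤ × ℤ} (h : Co w a b) :
    ∃ P ⊆ w, (∀ e ∈ P, (e.1 + e.2) % 2 = 1) ∧ ∀ V, bd P V = V a + V b := by
  induction h with
  | refl => exact ⟨∅, empty_subset _, by simp, fun V => by rw [two_zero]; simp [bd]⟩
  | @tail b c _ hbc ih =>
    obtain ⟨P, h1, h2, h3⟩ := ih
    have hodd : ((b + c).1 + (b + c).2) % 2 = 1 := by
      have := hbc.1
      unfold IsUnit4 at this
      simp only [Prod.ext_iff, Prod.fst_sub, Prod.snd_sub, Prod.fst_add, Prod.snd_add] at this ⊢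
      omega
    refine ⟨symmDiff P {b + c}, ?_, ?_, ?_⟩
    · intro e he
      rw [mem_symmDiff, mem_singleton] at he
      rcases he with he | he
      · exact h1 he.1
      · rw [he.1]; exact hbc.2
    · intro e he
      rw [mem_symmDiff, mem_singleton] at he
      rcases he with he | he
      · exact h2 e he.1
      · rw [he.1]; exact hodd
    · intro V
      rw [bd_symmDiff, h3]
      have h4 : bd {b + c} V = V b + V c := by
        unfold bd
        rw [sum_singleton]
        rcases ends_of_add hbc.1 rfl with ⟨h5, h6⟩ | ⟨h5, h6⟩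
        · rw [← h5, ← h6]
        · rw [← h5, ← h6, add_comm]
      rw [h4]
      have := two_zero (V b)
      linear_combination this

/-- the face function of a chain: number of vertical labels of the chain to the right of the face -/
noncomputable def ff (P : Finset (ℤ × ℤ)) (f : ℤ × ℤ) : ZMod 2 :=
  ∑ e ∈ P, if e.2 = 2 * f.2 - 1 ∧ 2 * f.1 ≤ e.1 then 1 else 0

lemma sum_ind (P : Finset (ℤ × ℤ)) (e : ℤ × ℤ) :
    ∑ e' ∈ P, (if e' = e then (1 : ZMod 2) else 0) = if e ∈ P then 1 else 0 := by
  rw [Finset.sum_ite_eq']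

lemma ff_vert {P : Finset (ℤ × ℤ)} (hP : ∀ e ∈ P, (e.1 + e.2) % 2 = 1) (X Y : ℤ) :
    ff P (X, Y) + ff P (X + 1, Y) = if (2 * X, 2 * Y - 1) ∈ P then 1 else 0 := by
  rw [← sum_ind]
  unfold ff
  rw [← Finset.sum_add_distrib]
  refine Finset.sum_congr rfl fun e he => ?_
  have h := hP e he
  obtain ⟨p, q⟩ := e
  simp only [Prod.mk.injEq] at h ⊢
  by_cases h1 : q = 2 * Y - 1
  · by_cases h2 : 2 * X ≤ p
    · by_cases h3 : 2 * (X + 1) ≤ p
      · rw [if_pos ⟨h1, h2⟩, if_pos ⟨h1, h3⟩, if_neg (by omega)]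
        exact two_zero 1
      · rw [if_pos ⟨h1, h2⟩, if_neg (by omega), if_pos (by omega), add_zero]
    · rw [if_neg (by omega), if_neg (by omega), if_neg (by omega), add_zero]
  · rw [if_neg (by omega), if_neg (by omega), if_neg (by omega), add_zero]

lemma ff_hor {P : Finset (ℤ × ℤ)} (hP : ∀ e ∈ P, (e.1 + e.2) % 2 = 1)
    (hb : ∀ V, bd P V = 0) (X Y : ℤ) :
    ff P (X, Y) + ff P (X, Y + 1) = if (2 * X - 1, 2 * Y) ∈ P then 1 else 0 := by
  classical
  have h0 := hb (fun v => if v.2 = Y ∧ X ≤ v.1 then 1 else 0)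
  rw [← sum_ind]
  have key : (∑ e ∈ P, (if e.2 = 2 * Y - 1 ∧ 2 * X ≤ e.1 then (1 : ZMod 2) else 0) +
      ∑ e ∈ P, (if e.2 = 2 * (Y + 1) - 1 ∧ 2 * X ≤ e.1 then (1 : ZMod 2) else 0)) +
      ∑ e ∈ P, (if e = (2 * X - 1, 2 * Y) then (1 : ZMod 2) else 0) = 0 := by
    refine Eq.trans ?_ h0
    unfold bd
    rw [← Finset.sum_add_distrib, ← Finset.sum_add_distrib]
    refine Finset.sum_congr rfl fun e he => ?_
    have h := hP e he
    obtain ⟨p, q⟩ := e
    unfold eu ev
    simp only [Prod.mk.injEq] at h ⊢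
    have hp : p % 2 = 0 ∨ p % 2 = 1 := by omega
    rcases hp with hp | hp
    · -- vertical label
      by_cases h2 : 2 * X ≤ p
      · by_cases h3 : q = 2 * Y - 1
        · rw [if_pos (by omega), if_neg (by omega), if_neg (by omega), if_neg (by omega),
            if_pos (by omega)]
          simp
        · by_cases h4 : q = 2 * Y + 1
          · rw [if_neg (by omega), if_pos (by omega), if_neg (by omega), if_pos (by omega),
              if_neg (by omega)]
            simp
          · rw [if_neg (by omega), if_neg (by omega), if_neg (by omega), if_neg (by omega),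
              if_neg (by omega)]
            simp
      · rw [if_neg (by omega), if_neg (by omega), if_neg (by omega), if_neg (by omega),
          if_neg (by omega)]
        simp
    · -- horizontal label
      by_cases h3 : q = 2 * Y
      · by_cases h4 : 2 * X ≤ p
        · rw [if_neg (by omega), if_neg (by omega), if_neg (by omega), if_pos (by omega),
            if_pos (by omega)]
          rw [two_zero 1]; simp
        · by_cases h5 : p = 2 * X - 1
          · rw [if_neg (by omega), if_neg (by omega), if_pos (by omega), if_neg (by omega),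
              if_pos (by omega)]
            simp
          · rw [if_neg (by omega), if_neg (by omega), if_neg (by omega), if_neg (by omega),
              if_neg (by omega)]
            simp
      · rw [if_neg (by omega), if_neg (by omega), if_neg (by omega), if_neg (by omega),
          if_neg (by omega)]
        simp
  have h1 := two_zero (∑ e' ∈ P, (if e' = (2 * X - 1, 2 * Y) then (1 : ZMod 2) else 0))
  unfold ff
  linear_combination key - h1

/-- **The face function of a closed chain.** -/
theorem face_fun {P : Finset (ℤ × ℤ)} (hP : ∀ e ∈ P, (e.1 + e.2) % 2 = 1)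
    (hb : ∀ V, bd P V = 0) : ∃ s : ℤ × ℤ → ZMod 2, ∀ f f' e : ℤ × ℤ, IsUnit4 (f' - f) →
      f + f' = e + (1, 1) → s f + s f' = if e ∈ P then 1 else 0 := by
  refine ⟨ff P, ?_⟩
  intro f f' e h he
  obtain ⟨x, y⟩ := f
  obtain ⟨x', y'⟩ := f'
  obtain ⟨p, q⟩ := e
  unfold IsUnit4 at h
  simp only [Prod.mk_sub_mk, Prod.mk.injEq, Prod.mk_add_mk] at h he
  rcases h with h | h | h | h
  · have h1 := ff_vert hP x y
    rw [show (x', y') = (x + 1, y) by rw [Prod.mk.injEq]; omega,
      show (p, q) = (2 * x, 2 * y - 1) by rw [Prod.mk.injEq]; omega]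
    exact h1
  · have h1 := ff_hor hP hb x y
    rw [show (x', y') = (x, y + 1) by rw [Prod.mk.injEq]; omega,
      show (p, q) = (2 * x - 1, 2 * y) by rw [Prod.mk.injEq]; omega]
    exact h1
  · have h1 := ff_vert hP x' y'
    rw [show (x, y) = (x' + 1, y') by rw [Prod.mk.injEq]; omega,
      show (p, q) = (2 * x', 2 * y' - 1) by rw [Prod.mk.injEq]; omega, add_comm]
    exact h1
  · have h1 := ff_hor hP hb x' y'
    rw [show (x, y) = (x', y' + 1) by rw [Prod.mk.injEq]; omega,
      show (p, q) = (2 * x' - 1, 2 * y') by rw [Prod.mk.injEq]; omega, add_comm]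
    exact h1

/-- reflection at the origin -/
def neg : (ℤ × ℤ) ↪ (ℤ × ℤ) where
  toFun e := (-e.1, -e.2)
  inj' := by
    intro a b h
    simp only [Prod.mk.injEq, neg_inj] at h
    exact Prod.ext h.1 h.2

lemma neg_apply (e : ℤ × ℤ) : neg e = (-e.1, -e.2) := rfl

/-- **The vertex function of a closed chain of dual edges** (labels shifted by `(1,1)`). -/
theorem vert_fun {P : Finset (ℤ × ℤ)} (hP : ∀ e ∈ P, (e.1 + e.2) % 2 = 1)
    (hb : ∀ V, bd P V = 0) : ∃ s : ℤ × ℤ → ZMod 2, ∀ v v' e : ℤ × ℤ, IsUnit4 (v' - v) →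
      v + v' = e → s v + s v' = if e + (1, 1) ∈ P then 1 else 0 := by
  have h1 : ∀ e ∈ P.map neg, (e.1 + e.2) % 2 = 1 := by
    intro e he
    obtain ⟨l, hl, rfl⟩ := mem_map.1 he
    have := hP l hl
    rw [neg_apply]
    simp only
    omega
  have h2 : ∀ V, bd (P.map neg) V = 0 := by
    intro V
    have h3 := hb (fun v => V (-v.1, -v.2))
    unfold bd at h3 ⊢
    rw [sum_map]
    refine Eq.trans ?_ h3
    refine Finset.sum_congr rfl fun e he => ?_
    have := hP e he
    rw [neg_apply]
    unfold eu ev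
    simp only
    rw [add_comm]
    congr 2 <;> refine Prod.ext ?_ ?_ <;> simp only <;> omega
  obtain ⟨s, hs⟩ := face_fun h1 h2
  refine ⟨fun v => s (-v.1, -v.2), ?_⟩
  intro v v' e hu he
  have h3 := hs (-v.1, -v.2) (-v'.1, -v'.2) (-e.1 - 1, -e.2 - 1) ?_ ?_
  · simp only
    rw [h3]
    have : (-e.1 - 1, -e.2 - 1) ∈ P.map neg ↔ e + (1, 1) ∈ P := by
      rw [mem_map]
      constructor
      · rintro ⟨l, hl, h⟩
        rw [neg_apply] at h
        simp only [Prod.mk.injEq] at h
        have : e + (1, 1) = l := by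
          refine Prod.ext ?_ ?_
          · rw [Prod.fst_add]; simp only; omega
          · rw [Prod.snd_add]; simp only; omega
        rw [this]; exact hl
      · intro h
        refine ⟨_, h, ?_⟩
        rw [neg_apply]
        refine Prod.ext ?_ ?_
        · simp only [Prod.fst_add]; omega
        · simp only [Prod.snd_add]; omega
    simp only [this]
  · obtain ⟨x, y⟩ := v
    obtain ⟨x', y'⟩ := v'
    unfold IsUnit4 at hu ⊢
    simp only [Prod.mk_sub_mk, Prod.mk.injEq] at hu ⊢
    omega
  · subst he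
    refine Prod.ext ?_ ?_
    · simp only [Prod.fst_add]; ring
    · simp only [Prod.snd_add]; ring

end Pool.Agent.H43.Q1
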