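import Mathlib
import Pool.Agent.H43.Q1.Parity
import Pool.Agent.H28.Q1.Macro

set_option autoImplicit false
open Finset

/-! # The environment at time `u`, rotations around faces and vertices -/

namespace Pool.Agent.H43.Q1

open Pool.Agent.H75.Perc Pool.Agent.H75.TwoArm Pool.Agent.H75.Four Pool.Agent.H99.NC
open Pool.Agent.H69.Q1 Pool.Agent.H39.Q1 Pool.Agent.H28.Q1
open Pool.Agent.H69.Q1.DEnv (steps adapted_steps)
open Pool.Agent.H75.TwoArm.SymmAux (pvO pvC pv_eq)

/-! ### Rotations -/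

lemma fi_iterO (c : ℤ × ℤ) (i : ℕ) : fi (pvO^[i] c) = fi c := by
  induction i with
  | zero => rfl
  | succ i ih => rw [Function.iterate_succ_apply', fi_pvO, ih]

lemma vx_iterC (c : ℤ × ℤ) (i : ℕ) : vx (pvC^[i] c) = vx c := by
  induction i with
  | zero => rfl
  | succ i ih => rw [Function.iterate_succ_apply', vx_pvC, ih]

lemma face_iter {c d : ℤ × ℤ} (h : fi d = fi c) : ∃ i < 4, d = pvO^[i] c := by
  rcases same_face h with h | h | h | h
  · exact ⟨0, by omega, h⟩
  · exact ⟨1, by omega, h⟩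
  · exact ⟨2, by omega, h⟩
  · exact ⟨3, by omega, h⟩

lemma vx_iter {c d : ℤ × ℤ} (h : vx d = vx c) : ∃ i < 4, d = pvC^[i] c := by
  rcases same_vx h with h | h | h | h
  · exact ⟨0, by omega, h⟩
  · exact ⟨1, by omega, h⟩
  · exact ⟨2, by omega, h⟩
  · exact ⟨3, by omega, h⟩

lemma iterO_inj {c : ℤ × ℤ} {i j : ℕ} (hi : i < 4) (hj : j < 4) (h : pvO^[i] c = pvO^[j] c) :
    i = j := by
  obtain ⟨a, b⟩ := c
  rcases pvO_cases a b with ⟨ha, hb, e1, e2, e3⟩ | ⟨ha, hb, e1, e2, e3⟩ | ⟨ha, hb, e1, e2, e3⟩ |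
    ⟨ha, hb, e1, e2, e3⟩ <;> interval_cases i <;> interval_cases j <;>
    first
    | rfl
    | (exfalso
       simp only [Function.iterate_succ_apply, Function.iterate_zero, id, e1, e2, e3,
         Prod.mk.injEq] at h
       omega)

lemma iterC_inj {c : ℤ × ℤ} {i j : ℕ} (hi : i < 4) (hj : j < 4) (h : pvC^[i] c = pvC^[j] c) :
    i = j := by
  obtain ⟨a, b⟩ := c
  rcases pvC_cases a b with ⟨ha, hb, e1, e2, e3⟩ | ⟨ha, hb, e1, e2, e3⟩ | ⟨ha, hb, e1, e2, e3⟩ |
    ⟨ha, hb, e1, e2, e3⟩ <;> interval_cases i <;> interval_cases j <;>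
    first
    | rfl
    | (exfalso
       simp only [Function.iterate_succ_apply, Function.iterate_zero, id, e1, e2, e3,
         Prod.mk.injEq] at h
       omega)

lemma plab_iterO_inj {c : ℤ × ℤ} {i j : ℕ} (hi : i < 4) (hj : j < 4)
    (h : plab (pvO^[i] c) = plab (pvO^[j] c)) : i = j := by
  refine iterO_inj hi hj (plab_inj_face ?_ h)
  rw [fi_iterO, fi_iterO]

lemma plab_iterC_inj {c : ℤ × ℤ} {i j : ℕ} (hi : i < 4) (hj : j < 4)
    (h : plab (pvC^[i] c) = plab (pvC^[j] c)) : i = j := by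
  refine iterC_inj hi hj (plab_inj_vx ?_ h)
  rw [vx_iterC, vx_iterC]

lemma plab_iterO3 (c : ℤ × ℤ) : plab (pvO^[3] c) = lab c := plab_pvO3 c

lemma plab_iterC3 (c : ℤ × ℤ) : plab (pvC^[3] c) = lab c := plab_pvC3 c

/-! ### The environment at time `u` -/

variable (X : DEnv)

lemma tau_steps {ω : Finset (ℤ × ℤ)} (hω : ω ⊆ X.E) {u : ℕ} (hu : u ≤ X.len ω) :
    X.tau (steps u) ω = u := by
  apply le_antisymm
  · exact Nat.sInf_le (Or.inl rfl)
  · by_contra hcon
    push Not at hcon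
    rcases X.tau_spec (Q := steps u) hω with h | h
    · have h' : X.tau (steps u) ω = u := h
      omega
    · exact X.cor_ne (lt_of_lt_of_le hcon hu) h

/-- The environment at time `u`. -/
noncomputable def env (ω : Finset (ℤ × ℤ)) (hω : ω ⊆ X.E) (u : ℕ) : DEnv :=
  X.after (steps u) (adapted_steps u) ω hω

section

variable {X} {ω : Finset (ℤ × ℤ)} (hω : ω ⊆ X.E) {u : ℕ} (hu : u ≤ X.len ω)

include hu

lemma env_E : (env X ω hω u).E = fresh X ω u := by
  unfold env
  rw [X.after_E, sdiff_exset, tau_steps X hω hu]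

lemma mem_env_E {e : ℤ × ℤ} : e ∈ (env X ω hω u).E ↔ e ∈ X.E ∧ ∀ k < u, plab (X.cor ω k) ≠ e := by
  rw [env_E hω hu, mem_fresh]

lemma mem_env_W {e : ℤ × ℤ} : e ∈ (env X ω hω u).W ↔
    e ∈ X.W ∨ (e ∈ ω ∧ ∃ k < u, plab (X.cor ω k) = e) := by
  unfold env
  rw [X.after_W, mem_union, mem_inter, X.mem_exset, tau_steps X hω hu]
  constructor
  · rintro (h | ⟨h1, -, h2⟩)
    · exact Or.inl h
    · exact Or.inr ⟨h1, h2⟩
  · rintro (h | ⟨h1, h2⟩)
    · exact Or.inl h
    · exact Or.inr ⟨h1, hω h1, h2⟩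

lemma env_α : (env X ω hω u).α = X.cor ω u := by
  unfold env
  rw [X.after_α, tau_steps X hω hu]

omit hu in
lemma env_β : (env X ω hω u).β = X.β := rfl

/-- known labels: everything known at time `0` is known at time `u` -/
lemma env_EW_sub : (env X ω hω u).E ∪ (env X ω hω u).W ⊆ X.E ∪ X.W := by
  intro e he
  rw [mem_union, mem_env_E hω hu, mem_env_W hω hu] at he
  rw [mem_union]
  rcases he with h | h | h
  · exact Or.inl h.1
  · exact Or.inr h
  · exact Or.inl (hω h.1)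

omit hu in
lemma mix_self (U : Finset (ℤ × ℤ)) (ω : Finset (ℤ × ℤ)) : mix U ω ω = ω := by
  ext e
  rw [mem_mix]
  tauto

/-- the rest of the configuration -/
lemma env_cor (i : ℕ) :
    (env X ω hω u).cor (ω \ X.exset (steps u) ω) i = X.cor ω (i + u) := by
  unfold env
  rw [X.after_cor (adapted_steps u) hω hω i, mix_self, tau_steps X hω hu]

lemma env_len : (env X ω hω u).len (ω \ X.exset (steps u) ω) + u = X.len ω := by
  have h := X.after_len (adapted_steps u) hω hω
  rw [mix_self, tau_steps X hω hu] at h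
  exact h

omit hu in
lemma rest_sub : ω \ X.exset (steps u) ω ⊆ (env X ω hω u).E := sdiff_subset_sdiff hω (subset_refl _)

include hω in
lemma mem_rest {e : ℤ × ℤ} : e ∈ ω \ X.exset (steps u) ω ↔ e ∈ ω ∧ ∀ k < u, plab (X.cor ω k) ≠ e := by
  rw [mem_sdiff, X.mem_exset, tau_steps X hω hu]
  constructor
  · rintro ⟨h1, h2⟩
    exact ⟨h1, fun k hk h => h2 ⟨hω h1, k, hk, h⟩⟩
  · rintro ⟨h1, h2⟩
    refine ⟨h1, ?_⟩
    rintro ⟨-, k, hk, h⟩
    exact h2 k hk h

end

lemma denv_ext {X Y : DEnv} (h1 : X.E = Y.E) (h2 : X.W = Y.W) (h3 : X.α = Y.α) (h4 : X.β = Y.β) :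
    X = Y := by
  cases X
  cases Y
  simp only at h1 h2 h3 h4
  subst h1 h2 h3 h4
  rfl

/-- the environment at time `u + v` -/
lemma env_env {X : DEnv} {ω : Finset (ℤ × ℤ)} (hω : ω ⊆ X.E) {u v : ℕ} (huv : v + u ≤ X.len ω) :
    env (env X ω hω u) (ω \ X.exset (steps u) ω) (rest_sub hω) v = env X ω hω (v + u) := by
  have hu : u ≤ X.len ω := by omega
  have hl := env_len hω hu
  have hv : v ≤ (env X ω hω u).len (ω \ X.exset (steps u) ω) := by omega
  refine denv_ext ?_ ?_ ?_ ?_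
  · ext e
    rw [mem_env_E (rest_sub hω) hv, mem_env_E hω hu, mem_env_E hω huv]
    constructor
    · rintro ⟨⟨h1, h2⟩, h3⟩
      refine ⟨h1, fun k hk => ?_⟩
      by_cases h4 : k < u
      · exact h2 k h4
      · have h5 := h3 (k - u) (by omega)
        rwa [env_cor hω hu, Nat.sub_add_cancel (by omega)] at h5
    · rintro ⟨h1, h2⟩
      refine ⟨⟨h1, fun k hk => h2 k (by omega)⟩, fun k hk => ?_⟩
      rw [env_cor hω hu]
      exact h2 _ (by omega)
  · ext e
    rw [mem_env_W (rest_sub hω) hv, mem_env_W hω hu, mem_env_W hω huv, mem_rest hω hu]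
    constructor
    · rintro ((h | ⟨h1, k, hk, h2⟩) | ⟨⟨h1, h2⟩, k, hk, h3⟩)
      · exact Or.inl h
      · exact Or.inr ⟨h1, k, by omega, h2⟩
      · rw [env_cor hω hu] at h3
        exact Or.inr ⟨h1, k + u, by omega, h3⟩
    · rintro (h | ⟨h1, k, hk, h2⟩)
      · exact Or.inl (Or.inl h)
      · by_cases h3 : ∃ k < u, plab (X.cor ω k) = e
        · exact Or.inl (Or.inr ⟨h1, h3⟩)
        · push Not at h3
          right
          refine ⟨⟨h1, h3⟩, k - u, ?_, ?_⟩
          · by_contra hcon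
            exact h3 k (by omega) h2
          · rw [env_cor hω hu]
            have : k - u + u = k := by
              by_contra hcon
              exact h3 k (by omega) h2
            rw [this]; exact h2
  · rw [env_α (rest_sub hω) hv, env_cor hω hu, env_α hω huv]
  · rfl

end Pool.Agent.H43.Q1
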