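import Mathlib
import Pool.Agent.H43.Q1.Time

set_option autoImplicit false
open Finset

/-! # Birth of a connection

If a face becomes joined to the closed boundary in one step then it is the face of the tip, and the
labels around it (apart from the last one) are not known to be closed. If a vertex becomes joined to
the wired labels in one step then it is the vertex of the tip, and the other labels at this vertex are
not wired. -/

namespace Pool.Agent.H43.Q1

open Pool.Agent.H75.Perc Pool.Agent.H75.TwoArm Pool.Agent.H75.Four Pool.Agent.H99.NC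
open Pool.Agent.H69.Q1 Pool.Agent.H39.Q1 Pool.Agent.H28.Q1
open Pool.Agent.H69.Q1.DEnv (steps adapted_steps)
open Pool.Agent.H75.TwoArm.SymmAux (pvO pvC pv_eq)

variable {X : DEnv}

/-- one step across a label which is neither free nor wired -/
lemma ClJ.step {c : ℤ × ℤ} (h : plab c ∉ X.E ∪ X.W) : ClJ X (fi c) (fi (oc c)) := by
  refine ⟨{plab c}, Relation.ReflTransGen.single ⟨(plab_faces c).1, ?_⟩⟩
  rw [(plab_faces c).2]
  have h1 : plab c ∈ ({plab c} : Finset (ℤ × ℤ)) \ (X.E ∪ X.W) :=
    mem_sdiff.2 ⟨mem_singleton_self _, h⟩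
  exact mem_map.2 ⟨plab c, h1, rfl⟩

/-- induction along `ClJ` -/
lemma ClJ.induct {Q : ℤ × ℤ → Prop} {f g : ℤ × ℤ} (h : ClJ X f g) (h0 : Q f)
    (hs : ∀ c, plab c ∉ X.E ∪ X.W → Q (fi c) → Q (fi (oc c))) : Q g := by
  obtain ⟨F, hF⟩ := h
  induction hF with
  | refl => exact h0
  | @tail b d _ hbd ih =>
    obtain ⟨h1, h2⟩ := hbd
    unfold du at h2
    rw [mem_map] at h2
    obtain ⟨l, hl, h3⟩ := h2
    have h4 : b + d = l + (1, 1) := by rw [← h3]; rfl
    obtain ⟨c, hc1, hc2, hc3⟩ := exists_face h1 h4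
    rw [← hc3]
    refine hs c ?_ (by rw [hc1]; exact ih)
    rw [hc2]
    exact (mem_sdiff.1 hl).2

/-- induction along `Co` for labels -/
lemma co_induct {w : Finset (ℤ × ℤ)} {Q : ℤ × ℤ → Prop} {a b : ℤ × ℤ} (h : Co w a b) (h0 : Q a)
    (hs : ∀ c, plab c ∈ w → Q (vx c) → Q (vx (oc c))) : Q b := by
  induction h with
  | refl => exact h0
  | @tail b d _ hbd ih =>
    obtain ⟨c, hc1, hc2, hc3⟩ := exists_vx hbd.1 rfl
    rw [← hc3]
    refine hs c ?_ (by rw [hc1]; exact ih)
    rw [hc2]
    exact hbd.2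

/-- membership in the sets of the environment after one step -/
lemma mem_env1_E {ω : Finset (ℤ × ℤ)} (hω : ω ⊆ X.E) (hl : 1 ≤ X.len ω) {e : ℤ × ℤ} :
    e ∈ (env X ω hω 1).E ↔ e ∈ X.E ∧ e ≠ plab X.α := by
  rw [mem_env_E hω hl]
  constructor
  · rintro ⟨h1, h2⟩
    exact ⟨h1, fun h => h2 0 (by omega) h.symm⟩
  · rintro ⟨h1, h2⟩
    refine ⟨h1, fun k hk h => ?_⟩
    have : k = 0 := by omega
    subst this
    exact h2 h.symm

lemma mem_env1_W {ω : Finset (ℤ × ℤ)} (hω : ω ⊆ X.E) (hl : 1 ≤ X.len ω) {e : ℤ × ℤ} :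
    e ∈ (env X ω hω 1).W ↔ e ∈ X.W ∨ (e ∈ ω ∧ e = plab X.α) := by
  rw [mem_env_W hω hl]
  refine or_congr_right (and_congr_right fun _ => ?_)
  constructor
  · rintro ⟨k, hk, h⟩
    have : k = 0 := by omega
    subst this
    exact h.symm
  · intro h
    exact ⟨0, by omega, h.symm⟩

/-- **Birth of a closed connection.** -/
theorem birthL (hI : Inv X) {ω : Finset (ℤ × ℤ)} (hω : ω ⊆ X.E) (hl : 1 ≤ X.len ω) {f : ℤ × ℤ}
    (h1 : ClJ (env X ω hω 1) (fi (X.cor ω 1)) f) (h0 : ¬ ClJ X (fi X.α) f) :
    f = fi (X.cor ω 1) ∧ ∀ i < 3, plab (pvO^[i] (X.cor ω 1)) ∈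
      (env X ω hω 1).E ∪ (env X ω hω 1).W := by
  have hαβ : X.α ≠ X.β := by
    have := X.cor_ne (ω := ω) (i := 0) (by omega)
    simpa using this
  have hc1 : X.cor ω 1 = pv (ω ∪ X.W) X.α := by rw [X.cor_succ, X.cor_zero]
  by_cases hcase : plab X.α ∈ X.E ∧ plab X.α ∉ ω
  swap
  · -- nothing new
    exfalso
    have hN : ∀ e, e ∉ (env X ω hω 1).E ∪ (env X ω hω 1).W → e ∉ X.E ∪ X.W := by
      intro e he h
      apply he
      rw [mem_union, mem_env1_E hω hl, mem_env1_W hω hl]
      rw [mem_union] at h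
      by_cases h2 : e = plab X.α
      · subst h2
        rcases h with h | h
        · right; right
          refine ⟨?_, rfl⟩
          by_contra hcon
          exact hcase ⟨h, hcon⟩
        · right; left; exact h
      · rcases h with h | h
        · left; exact ⟨h, h2⟩
        · right; left; exact h
    have h2 : ClJ X (fi (X.cor ω 1)) f := by
      refine ClJ.induct (Q := fun g => ClJ X (fi (X.cor ω 1)) g) h1 (ClJ.refl _ _) ?_
      intro c hc hQ
      exact hQ.trans (ClJ.step (hN _ hc))
    have h3 : ClJ X (fi X.α) (fi (X.cor ω 1)) := by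
      rw [hc1]
      by_cases h4 : plab X.α ∈ ω ∪ X.W
      · rw [pv_open h4, fi_pvO]; exact ClJ.refl _ _
      · rw [pv_closed h4, fi_pvC]
        refine ClJ.step ?_
        rw [mem_union, not_or] at h4 ⊢
        exact ⟨fun h5 => hcase ⟨h5, h4.1⟩, h4.2⟩
    exact h0 (h3.trans h2)
  obtain ⟨heE, heω⟩ := hcase
  have heW : plab X.α ∉ X.W := fun h => disjoint_left.1 X.disj heE h
  have hcl : plab X.α ∉ ω ∪ X.W := by rw [mem_union, not_or]; exact ⟨heω, heW⟩
  rw [pv_closed hcl] at hc1
  have hf1 : fi (X.cor ω 1) = fi (oc X.α) := by rw [hc1, fi_pvC]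
  have hlab : lab (X.cor ω 1) = plab X.α := by rw [hc1, lab_pvC]
  -- the face is joined to the face of the tip by old labels
  have h2 : ClJ X (fi (X.cor ω 1)) f ∨ ClJ X (fi X.α) f := by
    refine ClJ.induct (Q := fun g => ClJ X (fi (X.cor ω 1)) g ∨ ClJ X (fi X.α) g) h1
      (Or.inl (ClJ.refl _ _)) ?_
    intro c hc hQ
    by_cases h3 : plab c ∈ X.E ∪ X.W
    · have h4 : plab c = plab X.α := by
        by_contra hcon
        apply hc
        rw [mem_union, mem_env1_E hω hl, mem_env1_W hω hl]
        rw [mem_union] at h3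
        rcases h3 with h3 | h3
        · left; exact ⟨h3, hcon⟩
        · right; left; exact h3
      rcases eq_or_oc h4 with h5 | h5
      · left; rw [h5, hf1]; exact ClJ.refl _ _
      · right; rw [h5, oc_oc]; exact ClJ.refl _ _
    · rcases hQ with hQ | hQ
      · exact Or.inl (hQ.trans (ClJ.step h3))
      · exact Or.inr (hQ.trans (ClJ.step h3))
  have h3 : ClJ X (fi (X.cor ω 1)) f := h2.resolve_right h0
  have h4 : ¬ ClJ X (fi X.α) (fi (X.cor ω 1)) := fun h => h0 (h.trans h3)
  -- the labels around the face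
  have hsub : ∀ i < 3, plab (pvO^[i] (X.cor ω 1)) ∈ X.E ∪ X.W := by
    by_contra hcon
    push Not at hcon
    classical
    have hmin := Nat.find_spec hcon
    set i := Nat.find hcon with hi
    obtain ⟨hi3, hiN⟩ := hmin
    have hlt : ∀ j < i, plab (pvO^[j] (X.cor ω 1)) ∈ X.E ∪ X.W := by
      intro j hj
      by_contra h5
      exact Nat.find_min hcon hj ⟨by omega, h5⟩
    have hη : X.E.erase (plab X.α) ⊆ X.E := erase_subset _ _
    set η := X.E.erase (plab X.α) with hηd
    have hpath : ∀ j ≤ i, X.cor η (1 + j) = pvO^[j] (X.cor ω 1) := by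
      intro j
      induction j with
      | zero =>
        intro _
        rw [add_zero, X.cor_succ, X.cor_zero, pv_closed, hc1]
        · rfl
        · rw [mem_union, not_or, hηd, mem_erase]
          exact ⟨fun h => h.1 rfl, heW⟩
      | succ j ih =>
        intro hj
        rw [← add_assoc, X.cor_succ, ih (by omega), Function.iterate_succ_apply', pv_open]
        have h5 := hlt j (by omega)
        rw [mem_union] at h5
        rw [mem_union, hηd, mem_erase]
        rcases h5 with h5 | h5
        · left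
          refine ⟨fun h6 => ?_, h5⟩
          rw [← hlab, ← plab_iterO3] at h6
          have := plab_iterO_inj (by omega) (by omega) h6
          omega
        · exact Or.inr h5
    by_cases hlen : 1 + i < X.len η
    · have h5 := hI.cl η hη (1 + i) hlen
      rw [hpath i le_rfl] at h5
      rw [mem_union, not_or] at hiN
      have h6 := h5 hiN.1 hiN.2
      rw [fi_iterO] at h6
      exact h4 h6
    · push Not at hlen
      have h5 : X.len η ≠ 0 := by
        intro h6
        have h7 := X.cor_len hη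
        rw [h6] at h7
        exact hαβ h7
      have h7 := X.cor_len hη
      have h8 := hpath (X.len η - 1) (by omega)
      rw [show 1 + (X.len η - 1) = X.len η by omega, h7] at h8
      have h9 := hI.clJ
      rw [h8, fi_iterO] at h9
      exact h4 h9.symm
  refine ⟨?_, ?_⟩
  · -- the first step from the face
    by_contra hne
    obtain ⟨F, hF⟩ := h3
    rcases Relation.ReflTransGen.cases_head hF with h5 | ⟨d, h5, -⟩
    · exact hne h5.symm
    · obtain ⟨h6, h7⟩ := h5
      unfold du at h7
      rw [mem_map] at h7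
      obtain ⟨l, hl', h8⟩ := h7
      have h9 : fi (X.cor ω 1) + d = l + (1, 1) := by rw [← h8]; rfl
      obtain ⟨c, hc1', hc2, -⟩ := exists_face h6 h9
      have hlN := (mem_sdiff.1 hl').2
      rw [← hc2] at hlN
      obtain ⟨i, hi, hci⟩ := face_iter hc1'
      rcases Nat.lt_or_ge i 3 with h10 | h10
      · have := hsub i h10
        rw [← hci] at this
        exact hlN this
      · have : i = 3 := by omega
        subst this
        rw [hci, plab_iterO3, hlab] at hlN
        exact hlN (mem_union_left _ heE)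
  · intro i hi
    have h5 := hsub i hi
    rw [mem_union] at h5
    rw [mem_union, mem_env1_E hω hl, mem_env1_W hω hl]
    rcases h5 with h5 | h5
    · left
      refine ⟨h5, fun h6 => ?_⟩
      rw [← hlab, ← plab_iterO3] at h6
      have := plab_iterO_inj (by omega) (by omega) h6
      omega
    · right; left; exact h5

/-- **Birth of an open connection.** -/
theorem birthA (hI : Inv X) {ω : Finset (ℤ × ℤ)} (hω : ω ⊆ X.E) (hl : 1 ≤ X.len ω) {v : ℤ × ℤ}
    (h1 : Co (env X ω hω 1).W (vx X.β) v) (h0 : ¬ Co X.W (vx X.β) v) :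
    v = vx (X.cor ω 1) ∧ ∀ i < 3, plab (pvC^[i] (X.cor ω 1)) ∉ (env X ω hω 1).W := by
  have hc1 : X.cor ω 1 = pv (ω ∪ X.W) X.α := by rw [X.cor_succ, X.cor_zero]
  by_cases heω : plab X.α ∈ ω
  swap
  · exfalso
    apply h0
    refine h1.mono fun e he => ?_
    rw [mem_env1_W hω hl] at he
    rcases he with he | ⟨he, he'⟩
    · exact he
    · rw [he'] at he; exact absurd he heω
  have hop : plab X.α ∈ ω ∪ X.W := mem_union_left _ heω
  rw [pv_open hop] at hc1
  have hv1 : vx (X.cor ω 1) = vx (oc X.α) := by rw [hc1, vx_pvO]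
  have hlab : lab (X.cor ω 1) = plab X.α := by rw [hc1, lab_pvO]
  have h2 : Co X.W (vx (X.cor ω 1)) v ∨ Co X.W (vx X.β) v := by
    refine co_induct (Q := fun g => Co X.W (vx (X.cor ω 1)) g ∨ Co X.W (vx X.β) g) h1
      (Or.inr (Co.refl _ _)) ?_
    intro c hc hQ
    rw [mem_env1_W hω hl] at hc
    rcases hc with hc | ⟨-, hc⟩
    · have h3 : Co X.W (vx c) (vx (oc c)) :=
        Relation.ReflTransGen.single ⟨(plab_ends c).1, by rw [(plab_ends c).2]; exact hc⟩
      exact hQ.imp (fun h => h.trans h3) (fun h => h.trans h3)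
    · rcases eq_or_oc hc with h5 | h5
      · left; rw [h5, hv1]; exact Co.refl _ _
      · right; rw [h5, oc_oc]; exact hI.co_W
  have h3 : Co X.W (vx (X.cor ω 1)) v := h2.resolve_right h0
  have h4 : ¬ Co X.W (vx X.β) (vx (X.cor ω 1)) := fun h => h0 (h.trans h3)
  have hsub : ∀ c, vx c = vx (X.cor ω 1) → plab c ∉ X.W := by
    intro c hc hW
    have := hI.co_of_mem hW
    rw [hc] at this
    exact h4 this
  refine ⟨?_, ?_⟩
  · by_contra hne
    rcases Relation.ReflTransGen.cases_head h3 with h5 | ⟨d, h5, -⟩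
    · exact hne h5.symm
    · obtain ⟨c, hc1', hc2, -⟩ := exists_vx h5.1 rfl
      exact hsub c hc1' (by rw [hc2]; exact h5.2)
  · intro i hi h5
    rw [mem_env1_W hω hl] at h5
    rcases h5 with h5 | ⟨-, h5⟩
    · exact hsub _ (vx_iterC _ _) h5
    · rw [← hlab, ← plab_iterC3] at h5
      have := plab_iterC_inj (by omega) (by omega) h5
      omega

end Pool.Agent.H43.Q1
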