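import Mathlib
import Pool.Agent.H43.Q1.Birth

set_option autoImplicit false
open Finset

/-! # Pockets

`P` : free labels not met before the time `t`, joining a vertex of the wired cluster to the vertex of
a corner `g'` of the face of the tip (`pocketL`), or the face of `g'` to the face of a corner `g` of
the vertex of the tip (`pocketA`). Up to the time `t` the path stays on one side. -/

namespace Pool.Agent.H43.Q1

open Pool.Agent.H75.Perc Pool.Agent.H75.TwoArm Pool.Agent.H75.Four Pool.Agent.H99.NC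
open Pool.Agent.H69.Q1 Pool.Agent.H39.Q1 Pool.Agent.H28.Q1
open Pool.Agent.H69.Q1.DEnv (steps adapted_steps)
open Pool.Agent.H75.TwoArm.SymmAux (pvO pvC pv_eq)

lemma zmod_ne {a b : ZMod 2} : a + b = 1 ↔ a ≠ b := by revert a b; decide

lemma zmod_eq {a b : ZMod 2} : a + b = 0 ↔ a = b := by revert a b; decide

/-- **Abstract pocket lemma.** `r` = rotation, `r'` = crossing of the previous label, `φ` = the
projection preserved by `r`. -/
lemma pocket_abs {r r' φ : ℤ × ℤ → ℤ × ℤ} (hr' : ∀ c, r' (oc c) = r c) (hφr : ∀ c, φ (r c) = φ c)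
    (hφr' : ∀ c, φ (r' c) = φ (oc c)) {s : ℤ × ℤ → ZMod 2} {z : ℕ → ℤ × ℤ} {t m : ℕ}
    {stay : ℕ → Prop} (hz : ∀ k < t, (stay k → z (k + 1) = r (z k)) ∧
      (¬ stay k → z (k + 1) = r' (z k)))
    {J : Finset (ℤ × ℤ)} (hJ : ∀ e, e ∈ J ↔ ∃ i < m, e = plab (r^[i] (z 0)))
    (hm : 0 < m) (hvis : ∀ k ≤ t, z k ≠ r^[m] (z 0))
    (hcr : ∀ k < t, ¬ stay k → s (φ (z k)) + s (φ (oc (z k))) = if plab (z k) ∈ J then 1 else 0) :
    ∀ k ≤ t, (∃ i < m, z k = r^[i] (z 0)) ∨ s (φ (z k)) ≠ s (φ (z 0)) := by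
  have hφi : ∀ i, φ (r^[i] (z 0)) = φ (z 0) := by
    intro i
    induction i with
    | zero => rfl
    | succ i ih => rw [Function.iterate_succ_apply', hφr, ih]
  intro k
  induction k with
  | zero => intro _; exact Or.inl ⟨0, hm, rfl⟩
  | succ k ih =>
    intro hk
    have ih := ih (by omega)
    obtain ⟨hz1, hz2⟩ := hz k (by omega)
    by_cases hst : stay k
    · rw [hz1 hst]
      rcases ih with ⟨i, hi, h1⟩ | h1
      · have h2 : r (z k) = r^[i + 1] (z 0) := by rw [Function.iterate_succ_apply', h1]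
        rcases Nat.lt_or_ge (i + 1) m with h3 | h3
        · exact Or.inl ⟨i + 1, h3, h2⟩
        · exfalso
          have h4 : i + 1 = m := by omega
          apply hvis (k + 1) hk
          rw [hz1 hst, h2, h4]
      · right
        rw [hφr]
        exact h1
    · have h5 := hcr k (by omega) hst
      rw [hz2 hst]
      rcases ih with ⟨i, hi, h1⟩ | h1
      · right
        have h6 : plab (z k) ∈ J := (hJ _).2 ⟨i, hi, by rw [h1]⟩
        rw [if_pos h6] at h5
        rw [hφr']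
        have h7 : φ (z k) = φ (z 0) := by rw [h1, hφi]
        rw [h7] at h5
        exact (zmod_ne.1 h5).symm
      · by_cases h6 : plab (z k) ∈ J
        · obtain ⟨i, hi, h7⟩ := (hJ _).1 h6
          rcases eq_or_oc h7 with h8 | h8
          · exfalso
            apply h1
            rw [h8, hφi]
          · have h9 : r' (z k) = r^[i + 1] (z 0) := by
              rw [h8, hr', Function.iterate_succ_apply']
            rcases Nat.lt_or_ge (i + 1) m with h3 | h3
            · exact Or.inl ⟨i + 1, h3, h9⟩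
            · exfalso
              have h4 : i + 1 = m := by omega
              apply hvis (k + 1) hk
              rw [hz2 hst, h9, h4]
        · right
          rw [if_neg h6] at h5
          rw [hφr', ← zmod_eq.1 h5]
          exact h1

/-- the labels met by a rotation -/
noncomputable def rotJ (r : ℤ × ℤ → ℤ × ℤ) (c : ℤ × ℤ) (m : ℕ) : Finset (ℤ × ℤ) :=
  (range m).image fun i => plab (r^[i] c)

lemma mem_rotJ {r : ℤ × ℤ → ℤ × ℤ} {c e : ℤ × ℤ} {m : ℕ} :
    e ∈ rotJ r c m ↔ ∃ i < m, e = plab (r^[i] c) := by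
  unfold rotJ
  simp only [mem_image, mem_range, eq_comm]

lemma bd_rotO {c : ℤ × ℤ} {m : ℕ} (hm : m < 4) (V : ℤ × ℤ → ZMod 2) :
    bd (rotJ pvO c m) V = V (vx c) + V (vx (pvO^[m] c)) := by
  unfold bd rotJ
  rw [sum_image (fun i hi j hj h => by
    rw [coe_range, Set.mem_Iio] at hi hj
    exact plab_iterO_inj (by omega) (by omega) h)]
  have hstep : ∀ i, V (eu (plab (pvO^[i] c))) + V (ev (plab (pvO^[i] c))) =
      V (vx (pvO^[i] c)) + V (vx (pvO^[i + 1] c)) := by
    intro i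
    rw [Function.iterate_succ_apply', vx_pvO]
    have h := plab_ends (pvO^[i] c)
    rcases ends_of_add h.1 h.2 with ⟨h1, h2⟩ | ⟨h1, h2⟩
    · rw [← h1, ← h2]
    · rw [← h1, ← h2, add_comm]
  clear hm
  induction m with
  | zero => simp [two_zero]
  | succ m ih =>
    rw [sum_range_succ, ih, hstep]
    have := two_zero (V (vx (pvO^[m] c)))
    linear_combination this

lemma bd_rotC {c : ℤ × ℤ} {m : ℕ} (hm : m < 4) (V : ℤ × ℤ → ZMod 2) :
    bd ((rotJ pvC c m).map sh1) V = V (fi c) + V (fi (pvC^[m] c)) := by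
  unfold bd rotJ
  rw [sum_map, sum_image (fun i hi j hj h => by
    rw [coe_range, Set.mem_Iio] at hi hj
    exact plab_iterC_inj (by omega) (by omega) h)]
  have hstep : ∀ i, V (eu (sh1 (plab (pvC^[i] c)))) + V (ev (sh1 (plab (pvC^[i] c)))) =
      V (fi (pvC^[i] c)) + V (fi (pvC^[i + 1] c)) := by
    intro i
    rw [Function.iterate_succ_apply', fi_pvC]
    have h := plab_faces (pvC^[i] c)
    have h' : fi (pvC^[i] c) + fi (oc (pvC^[i] c)) = sh1 (plab (pvC^[i] c)) := h.2
    rcases ends_of_add h.1 h' with ⟨h1, h2⟩ | ⟨h1, h2⟩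
    · rw [← h1, ← h2]
    · rw [← h1, ← h2, add_comm]
  clear hm
  induction m with
  | zero => simp [two_zero]
  | succ m ih =>
    rw [sum_range_succ, ih, hstep]
    have := two_zero (V (fi (pvC^[m] c)))
    linear_combination this

variable {X : DEnv}

/-- **Pocket, closed side last.** -/
theorem pocketL (hI : Inv X) {ω : Finset (ℤ × ℤ)} {t : ℕ}
    {P : Finset (ℤ × ℤ)} {g g' : ℤ × ℤ} (hP : P ⊆ fresh X ω t)
    (hA : Co X.W (vx X.β) (vx g)) (hco : Co (P ∪ X.W) (vx g) (vx g')) (hb : fi g' = fi X.α)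
    (hop : ∀ i < 3, plab (pvO^[i] X.α) ∈ X.E ∪ X.W) (hvis : ∀ k ≤ t, X.cor ω k ≠ g') :
    ∃ s : ℤ × ℤ → ZMod 2,
      (∀ c, plab c ∉ X.W → plab c ∉ P → fi c ≠ fi X.α → fi (oc c) ≠ fi X.α →
        s (fi c) = s (fi (oc c))) ∧
      (∀ f, ClJ X (fi X.α) f → s f = s (fi X.α)) ∧
      (∀ k ≤ t, fi (X.cor ω k) = fi X.α ∨ s (fi (X.cor ω k)) ≠ s (fi X.α)) := by
  classical
  obtain ⟨m, hm4, hg'⟩ := face_iter hb
  have hm : 0 < m := by
    rcases Nat.eq_zero_or_pos m with h | h
    · subst h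
      exact absurd hg'.symm (hvis 0 (Nat.zero_le _))
    · exact h
  set J := rotJ pvO X.α m with hJ
  obtain ⟨P1, hP1, ho1, hb1⟩ := co_chain (hI.co_W.symm.trans hA)
  obtain ⟨P2, hP2, ho2, hb2⟩ := co_chain hco
  have hJodd : ∀ e ∈ J, (e.1 + e.2) % 2 = 1 := by
    intro e he
    obtain ⟨i, -, rfl⟩ := mem_rotJ.1 he
    exact odd_plab _
  set C := symmDiff (symmDiff P1 P2) J with hC
  have hCodd : ∀ e ∈ C, (e.1 + e.2) % 2 = 1 := by
    intro e he
    rw [hC, mem_symmDiff, mem_symmDiff] at he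
    rcases he with ⟨⟨h, -⟩ | ⟨h, -⟩, -⟩ | ⟨h, -⟩
    · exact ho1 e h
    · exact ho2 e h
    · exact hJodd e h
  have hCb : ∀ V, bd C V = 0 := by
    intro V
    rw [hC, bd_symmDiff, bd_symmDiff, hb1, hb2, hJ, bd_rotO hm4, ← hg']
    have h1 := two_zero (V (vx X.α))
    have h2 := two_zero (V (vx g))
    have h3 := two_zero (V (vx g'))
    linear_combination h1 + h2 + h3
  obtain ⟨s, hs⟩ := face_fun hCodd hCb
  have hs' : ∀ c, s (fi c) + s (fi (oc c)) = if plab c ∈ C then 1 else 0 := fun c =>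
    hs _ _ _ (plab_faces c).1 (plab_faces c).2
  have hPE : P ⊆ X.E := fun e he => ((mem_fresh X).1 (hP he)).1
  have hCJ : ∀ e, e ∉ X.W → e ∉ P → (e ∈ C ↔ e ∈ J) := by
    intro e h1 h2
    have h3 : e ∉ P1 := fun h => h1 (hP1 h)
    have h4 : e ∉ P2 := fun h => (mem_union.1 (hP2 h)).elim h2 h1
    rw [hC, mem_symmDiff, mem_symmDiff]
    tauto
  refine ⟨s, ?_, ?_, ?_⟩
  · intro c h1 h2 h3 h4
    have h5 := hs' c
    have h6 : plab c ∉ J := by
      intro h
      obtain ⟨i, -, h7⟩ := mem_rotJ.1 h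
      rcases eq_or_oc h7 with h8 | h8
      · exact h3 (by rw [h8, fi_iterO])
      · exact h4 (by rw [h8, oc_oc, fi_iterO])
    rw [if_neg (by rw [hCJ _ h1 h2]; exact h6)] at h5
    exact zmod_eq.1 h5
  · intro f hf
    refine ClJ.induct (Q := fun f => s f = s (fi X.α)) hf rfl ?_
    intro c hc hQ
    have h5 := hs' c
    rw [mem_union, not_or] at hc
    have h6 : plab c ∉ J := by
      intro h
      obtain ⟨i, hi, h7⟩ := mem_rotJ.1 h
      have := hop i (by omega)
      rw [← h7, mem_union] at this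
      exact this.elim hc.1 hc.2
    rw [if_neg (by rw [hCJ _ hc.2 (fun h => hc.1 (hPE h))]; exact h6)] at h5
    rw [← zmod_eq.1 h5]
    exact hQ
  · have key := pocket_abs (r := pvO) (r' := pvC) (φ := fi) pvC_oc fi_pvO fi_pvC (s := s)
      (z := X.cor ω) (t := t) (m := m) (stay := fun k => plab (X.cor ω k) ∈ ω ∪ X.W)
      (J := J) (fun k _ => ⟨fun h => by rw [X.cor_succ, pv_open h],
        fun h => by rw [X.cor_succ, pv_closed h]⟩)
      (fun e => by rw [hJ]; exact mem_rotJ) hm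
      (fun k hk => by have := hvis k hk; rw [hg'] at this; exact this) ?_
    · intro k hk
      rcases key k hk with ⟨i, -, h⟩ | h
      · left; rw [h]; exact fi_iterO _ _
      · right; exact h
    · intro k hk h1
      rw [mem_union, not_or] at h1
      have h2 : plab (X.cor ω k) ∉ P := fun h => ((mem_fresh X).1 (hP h)).2 k hk rfl
      rw [hs']
      by_cases h3 : plab (X.cor ω k) ∈ J
      · rw [if_pos ((hCJ _ h1.2 h2).2 h3), if_pos h3]
      · rw [if_neg (fun h => h3 ((hCJ _ h1.2 h2).1 h)), if_neg h3]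

/-- **Pocket, open side last.** -/
theorem pocketA {ω : Finset (ℤ × ℤ)} (hω : ω ⊆ X.E) {t : ℕ}
    {P : Finset (ℤ × ℤ)} {g g' : ℤ × ℤ} (hP : P ⊆ fresh X ω t)
    (hL : ClJ X (fi X.α) (fi g')) (hco : Co (P.map sh1) (fi g) (fi g')) (hb : vx g = vx X.α)
    (hop : ∀ i < 3, plab (pvC^[i] X.α) ∉ X.W) (hvis : ∀ k ≤ t, X.cor ω k ≠ g) :
    ∃ s : ℤ × ℤ → ZMod 2,
      (∀ c, plab c ∈ X.E ∪ X.W → plab c ∉ P → vx c ≠ vx X.α → vx (oc c) ≠ vx X.α →
        s (vx c) = s (vx (oc c))) ∧
      (∀ v, Co X.W (vx X.α) v → s v = s (vx X.α)) ∧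
      (∀ k ≤ t, vx (X.cor ω k) = vx X.α ∨ s (vx (X.cor ω k)) ≠ s (vx X.α)) := by
  classical
  obtain ⟨m, hm4, hg⟩ := vx_iter hb
  have hm : 0 < m := by
    rcases Nat.eq_zero_or_pos m with h | h
    · subst h
      exact absurd hg.symm (hvis 0 (Nat.zero_le _))
    · exact h
  set J := rotJ pvC X.α m with hJ
  obtain ⟨F, hF⟩ := hL
  obtain ⟨P1, hP1, ho1, hb1⟩ := co_chain hF
  obtain ⟨P2, hP2, ho2, hb2⟩ := co_chain hco
  have hJodd : ∀ e ∈ J.map sh1, (e.1 + e.2) % 2 = 1 := by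
    intro e he
    obtain ⟨l, hl, rfl⟩ := mem_map.1 he
    obtain ⟨i, -, rfl⟩ := mem_rotJ.1 hl
    have := odd_plab (pvC^[i] X.α)
    unfold sh1
    simp only [Function.Embedding.coeFn_mk]
    omega
  set C := symmDiff (symmDiff P1 P2) (J.map sh1) with hC
  have hCodd : ∀ e ∈ C, (e.1 + e.2) % 2 = 1 := by
    intro e he
    rw [hC, mem_symmDiff, mem_symmDiff] at he
    rcases he with ⟨⟨h, -⟩ | ⟨h, -⟩, -⟩ | ⟨h, -⟩
    · exact ho1 e h
    · exact ho2 e h
    · exact hJodd e h
  have hCb : ∀ V, bd C V = 0 := by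
    intro V
    rw [hC, bd_symmDiff, bd_symmDiff, hb1, hb2, hJ, bd_rotC hm4, ← hg]
    have h1 := two_zero (V (fi X.α))
    have h2 := two_zero (V (fi g))
    have h3 := two_zero (V (fi g'))
    linear_combination h1 + h2 + h3
  obtain ⟨s, hs⟩ := vert_fun hCodd hCb
  have hs' : ∀ c, s (vx c) + s (vx (oc c)) = if sh1 (plab c) ∈ C then 1 else 0 := fun c =>
    hs _ _ _ (plab_ends c).1 (plab_ends c).2
  have hPE : P ⊆ X.E := fun e he => ((mem_fresh X).1 (hP he)).1
  have hCJ : ∀ e, e ∈ X.E ∪ X.W → e ∉ P → (sh1 e ∈ C ↔ e ∈ J) := by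
    intro e h1 h2
    have h3 : sh1 e ∉ P1 := by
      intro h
      have h5 := hP1 h
      unfold du at h5
      rw [mem_map' sh1] at h5
      exact (mem_sdiff.1 h5).2 h1
    have h4 : sh1 e ∉ P2 := by
      intro h
      have h5 := hP2 h
      rw [mem_map' sh1] at h5
      exact h2 h5
    rw [hC, mem_symmDiff, mem_symmDiff, mem_map' sh1]
    tauto
  refine ⟨s, ?_, ?_, ?_⟩
  · intro c h1 h2 h3 h4
    have h5 := hs' c
    have h6 : plab c ∉ J := by
      intro h
      obtain ⟨i, -, h7⟩ := mem_rotJ.1 h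
      rcases eq_or_oc h7 with h8 | h8
      · exact h3 (by rw [h8, vx_iterC])
      · exact h4 (by rw [h8, oc_oc, vx_iterC])
    rw [if_neg (by rw [hCJ _ h1 h2]; exact h6)] at h5
    exact zmod_eq.1 h5
  · intro v hv
    refine co_induct (Q := fun v => s v = s (vx X.α)) hv rfl ?_
    intro c hc hQ
    have h5 := hs' c
    have h6 : plab c ∉ J := by
      intro h
      obtain ⟨i, hi, h7⟩ := mem_rotJ.1 h
      rw [h7] at hc
      exact hop i (by omega) hc
    rw [if_neg (by rw [hCJ _ (mem_union_right _ hc)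
      (fun h => disjoint_left.1 X.disj (hPE h) hc)]; exact h6)] at h5
    rw [← zmod_eq.1 h5]
    exact hQ
  · have key := pocket_abs (r := pvC) (r' := pvO) (φ := vx) pvO_oc vx_pvC vx_pvO (s := s)
      (z := X.cor ω) (t := t) (m := m) (stay := fun k => plab (X.cor ω k) ∉ ω ∪ X.W)
      (J := J) (fun k _ => ⟨fun h => by rw [X.cor_succ, pv_closed h],
        fun h => by rw [X.cor_succ, pv_open (not_not.1 h)]⟩)
      (fun e => by rw [hJ]; exact mem_rotJ) hm
      (fun k hk => by have := hvis k hk; rw [hg] at this; exact this) ?_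
    · intro k hk
      rcases key k hk with ⟨i, -, h⟩ | h
      · left; rw [h]; exact vx_iterC _ _
      · right; exact h
    · intro k hk h1
      rw [not_not, mem_union] at h1
      have h1' : plab (X.cor ω k) ∈ X.E ∪ X.W := by
        rw [mem_union]
        exact h1.imp (fun h => hω h) id
      have h2 : plab (X.cor ω k) ∉ P := fun h => ((mem_fresh X).1 (hP h)).2 k hk rfl
      rw [hs']
      by_cases h3 : plab (X.cor ω k) ∈ J
      · rw [if_pos ((hCJ _ h1' h2).2 h3), if_pos h3]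
      · rw [if_neg (fun h => h3 ((hCJ _ h1' h2).1 h)), if_neg h3]

end Pool.Agent.H43.Q1
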