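import Mathlib
import Pool.Agent.H43.Q1.Pocket

set_option autoImplicit false
open Finset

/-! # Gates

`Gate W0 S Y P g g'` : the free labels `P` join (with the help of wired labels of `W0`) the vertex of
`g`, which is in the wired cluster, to the vertex of `g'`, and the face of `g` to the face of `g'`, which is joined to the face of the tip by
labels which are neither free nor wired. -/

namespace Pool.Agent.H43.Q1

open Pool.Agent.H75.Perc Pool.Agent.H75.TwoArm Pool.Agent.H75.Four Pool.Agent.H99.NC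
open Pool.Agent.H69.Q1 Pool.Agent.H39.Q1 Pool.Agent.H28.Q1
open Pool.Agent.H69.Q1.DEnv (steps adapted_steps)
open Pool.Agent.H75.TwoArm.SymmAux (pvO pvC pv_eq)

/-- A gate. -/
structure Gate (W0 S : Finset (ℤ × ℤ)) (Y : DEnv) (P : Finset (ℤ × ℤ)) (g g' : ℤ × ℤ) :
    Prop where
  sub : P ⊆ Y.E
  A : Co Y.W (vx Y.β) (vx g)
  L : ClJ Y (fi Y.α) (fi g')
  prim : Co (P ∪ W0) (vx g) (vx g')
  dual : Co (P.map sh1) (fi g) (fi g')
  fr : lab g ∈ P ∨ plab g ∈ P ∨ plab g ∈ S
  fr' : lab g' ∈ P ∨ plab g' ∈ P ∨ plab g' ∈ S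

variable {X : DEnv}

/-- A corner next to a label of `P`, or before a label of `S`, is not visited before these labels are
met. -/
lemma unvisited (hI : Inv X) {ω : Finset (ℤ × ℤ)} {t : ℕ} {P S : Finset (ℤ × ℤ)}
    (hP : P ⊆ X.E) (hav : ∀ k < t, plab (X.cor ω k) ∉ P) {g : ℤ × ℤ}
    (hg : lab g ∈ P ∨ plab g ∈ P ∨ plab g ∈ S) (ht : plab (X.cor ω t) ∉ P)
    (hS : ∀ k ≤ t, plab (X.cor ω k) ∉ S) : ∀ k ≤ t, X.cor ω k ≠ g := by
  intro k hk h
  subst h
  rcases hg with h | h | h
  · rcases Nat.eq_zero_or_pos k with h0 | h0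
    · subst h0
      obtain ⟨m, hm0, hm1, -, hm3, -⟩ := hI.back
      have h1 : lab X.α = plab ((pv X.W)^[m - 1] X.β) := by
        rw [← hm1]
        conv_lhs => rw [show m = (m - 1) + 1 by omega, Function.iterate_succ_apply']
        exact lab_pv _ _
      rw [X.cor_zero, h1] at h
      exact hm3 (m - 1) (by omega) (hP h)
    · have h1 : X.cor ω k = pv (ω ∪ X.W) (X.cor ω (k - 1)) := by
        rw [← X.cor_succ, Nat.sub_add_cancel h0]
      rw [h1, lab_pv] at h
      exact hav (k - 1) (by omega) h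
  · rcases Nat.lt_or_ge k t with h1 | h1
    · exact hav k h1 h
    · have : k = t := by omega
      subst this
      exact ht h
  · exact hS k hk h

section

variable {ω : Finset (ℤ × ℤ)} (hω : ω ⊆ X.E)

/-- the known sets grow -/
lemma env_mono {u v : ℕ} (huv : u ≤ v) (hv : v ≤ X.len ω) :
    (env X ω hω v).E ⊆ (env X ω hω u).E ∧ (env X ω hω u).W ⊆ (env X ω hω v).W ∧
      (env X ω hω v).E ∪ (env X ω hω v).W ⊆ (env X ω hω u).E ∪ (env X ω hω u).W := by
  have hu : u ≤ X.len ω := huv.trans hv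
  refine ⟨?_, ?_, ?_⟩
  · intro e he
    rw [mem_env_E hω hv] at he
    rw [mem_env_E hω hu]
    exact ⟨he.1, fun k hk => he.2 k (by omega)⟩
  · intro e he
    rw [mem_env_W hω hu] at he
    rw [mem_env_W hω hv]
    rcases he with h | ⟨h1, k, hk, h2⟩
    · exact Or.inl h
    · exact Or.inr ⟨h1, k, by omega, h2⟩
  · intro e he
    rw [mem_union, mem_env_E hω hv, mem_env_W hω hv] at he
    rw [mem_union, mem_env_E hω hu, mem_env_W hω hu]
    rcases he with h | h | ⟨h1, k, hk, h2⟩
    · exact Or.inl ⟨h.1, fun k hk => h.2 k (by omega)⟩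
    · exact Or.inr (Or.inl h)
    · by_cases h3 : ∃ k < u, plab (X.cor ω k) = e
      · exact Or.inr (Or.inr ⟨h1, h3⟩)
      · push Not at h3
        exact Or.inl ⟨hω h1, h3⟩

lemma clJ_env_mono {u v : ℕ} (huv : u ≤ v) (hv : v ≤ X.len ω) {f f' : ℤ × ℤ}
    (h : ClJ (env X ω hω u) f f') : ClJ (env X ω hω v) f f' := by
  obtain ⟨F, hF⟩ := h
  exact ⟨F, hF.mono (du_anti (env_mono hω huv hv).2.2)⟩

lemma clJ_path {u v : ℕ} (huv : u ≤ v) (hv : v ≤ X.len ω) :
    ClJ (env X ω hω v) (fi (X.cor ω u)) (fi (X.cor ω v)) := by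
  refine clJ_explored (adapted_steps v) hω huv ?_
  rw [tau_steps X hω hv]

/-- **Birth of a gate.** -/
theorem gate_birth (hI : Inv X) {t : ℕ} (ht : t ≤ X.len ω) {P S : Finset (ℤ × ℤ)} {g g' : ℤ × ℤ}
    (hG : Gate X.W S (env X ω hω t) P g g') :
    (Co X.W (vx X.β) (vx g) ∧ ClJ X (fi X.α) (fi g')) ∨ ∃ u, 0 < u ∧ u ≤ t ∧
      ((Co (env X ω hω u).W (vx X.β) (vx g) ∧ fi g' = fi (X.cor ω u) ∧
          ∀ i < 3, plab (pvO^[i] (X.cor ω u)) ∈ (env X ω hω u).E ∪ (env X ω hω u).W) ∨
        (ClJ (env X ω hω u) (fi (X.cor ω u)) (fi g') ∧ vx g = vx (X.cor ω u) ∧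
          ∀ i < 3, plab (pvC^[i] (X.cor ω u)) ∉ (env X ω hω u).W)) := by
  classical
  have h0E : ∀ e, e ∈ (env X ω hω 0).E ↔ e ∈ X.E := fun e => by
    rw [mem_env_E hω (Nat.zero_le _)]
    exact ⟨fun h => h.1, fun h => ⟨h, fun k hk => absurd hk (by omega)⟩⟩
  have h0W : ∀ e, e ∈ (env X ω hω 0).W ↔ e ∈ X.W := fun e => by
    rw [mem_env_W hω (Nat.zero_le _)]
    constructor
    · rintro (h | ⟨-, k, hk, -⟩)
      · exact h
      · omega
    · exact Or.inl
  have hA : ∃ u, Co (env X ω hω u).W (vx X.β) (vx g) := ⟨t, hG.A⟩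
  have hL : ∃ u, ClJ (env X ω hω u) (fi (X.cor ω u)) (fi g') := by
    refine ⟨t, ?_⟩
    have := hG.L
    rwa [env_α hω ht] at this
  have hLt : ClJ (env X ω hω t) (fi (X.cor ω t)) (fi g') := by
    have := hG.L
    rwa [env_α hω ht] at this
  set a := Nat.find hA with ha
  set l := Nat.find hL with hl
  have haS : Co (env X ω hω a).W (vx X.β) (vx g) := Nat.find_spec hA
  have hlS : ClJ (env X ω hω l) (fi (X.cor ω l)) (fi g') := Nat.find_spec hL
  have hat : a ≤ t := Nat.find_min' hA hG.A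
  have hlt : l ≤ t := Nat.find_min' hL hLt
  rcases Nat.lt_or_ge l a with hla | hla
  · -- open side last
    right
    refine ⟨a, by omega, hat, Or.inr ⟨?_, ?_⟩⟩
    · exact (clJ_path hω hla.le (hat.trans ht)).symm.trans
        (clJ_env_mono hω hla.le (hat.trans ht) hlS)
    · have hnot : ¬ Co (env X ω hω (a - 1)).W (vx X.β) (vx g) := Nat.find_min hA (by omega)
      have hu : a - 1 ≤ X.len ω := by omega
      have hlen := env_len hω hu
      have he := env_env hω (u := a - 1) (v := 1) (by omega)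
      rw [show 1 + (a - 1) = a by omega] at he
      have hcor : (env X ω hω (a - 1)).cor (ω \ X.exset (steps (a - 1)) ω) 1 = X.cor ω a := by
        rw [env_cor hω hu]; congr 1; omega
      have hb := birthA (X := env X ω hω (a - 1)) (hI.after (adapted_steps _) hω)
        (rest_sub hω) (by omega) (v := vx g) (by rw [he]; exact haS) hnot
      rw [hcor, he] at hb
      exact hb
  · rcases Nat.eq_zero_or_pos l with h0 | h0
    · left
      have ha0 : a = 0 := by omega
      rw [ha0] at haS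
      rw [h0] at hlS
      refine ⟨haS.mono fun e he => (h0W e).1 he, ?_⟩
      obtain ⟨F, hF⟩ := hlS
      refine ⟨F, hF.mono (du_anti fun e he => ?_)⟩
      rw [mem_union] at he ⊢
      rw [h0E, h0W]
      exact he
    · right
      refine ⟨l, h0, hlt, Or.inl ⟨?_, ?_⟩⟩
      · exact haS.mono (env_mono hω hla (hlt.trans ht)).2.1
      · have hnot : ¬ ClJ (env X ω hω (l - 1)) (fi (X.cor ω (l - 1))) (fi g') :=
          Nat.find_min hL (by omega)
        have hu : l - 1 ≤ X.len ω := by omega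
        have hlen := env_len hω hu
        have he := env_env hω (u := l - 1) (v := 1) (by omega)
        rw [show 1 + (l - 1) = l by omega] at he
        have hcor : (env X ω hω (l - 1)).cor (ω \ X.exset (steps (l - 1)) ω) 1 = X.cor ω l := by
          rw [env_cor hω hu]; congr 1; omega
        have hb := birthL (X := env X ω hω (l - 1)) (hI.after (adapted_steps _) hω)
          (rest_sub hω) (by omega) (f := fi g') (by rw [he, hcor]; exact hlS)
          (by rw [env_α hω hu]; exact hnot)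
        rw [hcor, he] at hb
        exact hb

end

end Pool.Agent.H43.Q1
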