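import Mathlib
import Pool.Agent.H43.Q1.Gate

set_option autoImplicit false
open Finset

/-! # Consequences of a pocket

`bad true` : known closed labels, `bad false` : wired labels. `Born b Y g g'` : the gate is born at the
tip of `Y`, the side `b` (closed, open) last. -/

namespace Pool.Agent.H43.Q1

open Pool.Agent.H75.Perc Pool.Agent.H75.TwoArm Pool.Agent.H75.Four Pool.Agent.H99.NC
open Pool.Agent.H69.Q1 Pool.Agent.H39.Q1 Pool.Agent.H28.Q1
open Pool.Agent.H69.Q1.DEnv (steps adapted_steps)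
open Pool.Agent.H75.TwoArm.SymmAux (pvO pvC pv_eq)

/-- The possible moves of an environment. -/
def Mv (Y : DEnv) (c c' : ℤ × ℤ) : Prop :=
  (plab c ∈ Y.E ∪ Y.W ∧ c' = pvO c) ∨ (plab c ∉ Y.W ∧ c' = pvC c)

lemma mv_cor {Y : DEnv} {η : Finset (ℤ × ℤ)} (hη : η ⊆ Y.E) (i : ℕ) :
    Mv Y (Y.cor η i) (Y.cor η (i + 1)) := by
  rw [Y.cor_succ]
  by_cases h : plab (Y.cor η i) ∈ η ∪ Y.W
  · rw [pv_open h]
    exact Or.inl ⟨union_subset_union_left hη h, rfl⟩
  · rw [pv_closed h]
    exact Or.inr ⟨fun h1 => h (mem_union_right _ h1), rfl⟩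

/-- Known closed labels (`true`), wired labels (`false`). -/
def bad : Bool → DEnv → ℤ × ℤ → Prop
  | true, Y, e => e ∉ Y.E ∪ Y.W
  | false, Y, e => e ∈ Y.W

/-- The gate is born at the tip. -/
def Born : Bool → DEnv → ℤ × ℤ → ℤ × ℤ → Prop
  | true, Y, g, g' => Co Y.W (vx Y.β) (vx g) ∧ fi g' = fi Y.α ∧
      ∀ i < 3, plab (pvO^[i] Y.α) ∈ Y.E ∪ Y.W
  | false, Y, g, g' => ClJ Y (fi Y.α) (fi g') ∧ vx g = vx Y.α ∧ ∀ i < 3, plab (pvC^[i] Y.α) ∉ Y.W

lemma near_of_fi {c d : ℤ × ℤ} (h : fi c = fi d) : Near 1 (vx d) (vx c) := by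
  unfold fi at h
  unfold Near vx
  simp only [Prod.mk.injEq, abs_le] at h ⊢
  omega

lemma near_oc (c : ℤ × ℤ) : Near 1 (vx c) (vx (oc c)) := by
  have h := unit_cases (plab_ends c).1
  unfold Near
  rw [abs_le, abs_le]
  omega

lemma near_trans {r r' : ℤ} {x y z : ℤ × ℤ} (h : Near r x y) (h' : Near r' y z) :
    Near (r + r') x z := by
  unfold Near at *
  rw [abs_le, abs_le] at *
  omega

lemma near_symm {r : ℤ} {x y : ℤ × ℤ} (h : Near r x y) : Near r y x := by
  unfold Near at *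
  rw [abs_le, abs_le] at *
  omega

/-- corners with the same previous label are close -/
lemma near_of_plab {c d : ℤ × ℤ} (h : plab c = plab d) : Near 1 (vx d) (vx c) := by
  rcases eq_or_oc h with h1 | h1
  · rw [h1]
    unfold Near
    simp
  · rw [h1]; exact near_oc d

/-- one move changes the vertex by at most one -/
lemma near_mv {Y : DEnv} {c c' : ℤ × ℤ} (h : Mv Y c c') : Near 1 (vx c) (vx c') := by
  rcases h with ⟨-, rfl⟩ | ⟨-, rfl⟩
  · rw [vx_pvO]; exact near_oc c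
  · rw [vx_pvC]; unfold Near; simp

variable {Y : DEnv}

/-- **The side function of a pocket.** -/
theorem pocket_data (hI : Inv Y) (b : Bool) {P : Finset (ℤ × ℤ)} {g g' : ℤ × ℤ}
    (hPE : P ⊆ Y.E) (hprim : Co (P ∪ Y.W) (vx g) (vx g')) (hdual : Co (P.map sh1) (fi g) (fi g'))
    (hb : Born b Y g g') {r : ℤ} (hr : 2 ≤ r) (hPr : ∀ c, plab c ∈ P → Near r (vx Y.α) (vx c))
    {ω : Finset (ℤ × ℤ)} (hω : ω ⊆ Y.E) {t : ℕ} (hP : ∀ k < t, plab (Y.cor ω k) ∉ P)
    (hv : ∀ k ≤ t, Y.cor ω k ≠ g ∧ Y.cor ω k ≠ g') :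
    ∃ (h : ℤ × ℤ → ZMod 2) (h0 : ZMod 2),
      (∀ c c', ¬ Near r (vx Y.α) (vx c) → Mv Y c c' → h c' = h c) ∧
      (∀ η, η ⊆ Y.E → ∀ j < Y.len η, bad b Y (plab (Y.cor η j)) → h (Y.cor η j) = h0) ∧
      (∀ k ≤ t, Near r (vx Y.α) (vx (Y.cor ω k)) ∨ h (Y.cor ω k) ≠ h0) := by
  have hPf : P ⊆ fresh Y ω t := by
    intro e he
    rw [mem_fresh]
    exact ⟨hPE he, fun k hk h => hP k hk (by rw [h]; exact he)⟩
  cases b with
  | true =>
    obtain ⟨h1, h2, h3⟩ := hb
    obtain ⟨s, s1, s2, s3⟩ := pocketL hI hPf h1 hprim h2 h3 (fun k hk => (hv k hk).2)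
    refine ⟨fun c => s (fi c), s (fi Y.α), ?_, ?_, ?_⟩
    · intro c c' hfar hm
      rcases hm with ⟨-, rfl⟩ | ⟨h4, rfl⟩
      · simp only [fi_pvO]
      · simp only [fi_pvC]
        refine (s1 c h4 (fun h => hfar (hPr c h)) (fun h => ?_) (fun h => ?_)).symm
        · exact hfar ((near_of_fi h).mono (by omega))
        · exact hfar ((near_trans (near_of_fi h) (near_symm (near_oc c))).mono (by omega))
    · intro η hη j hj hbad
      have hbad' : plab (Y.cor η j) ∉ Y.E ∪ Y.W := hbad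
      rw [mem_union, not_or] at hbad'
      exact s2 _ (hI.cl η hη j hj hbad'.1 hbad'.2)
    · intro k hk
      rcases s3 k hk with h | h
      · left; exact (near_of_fi h).mono (by omega)
      · right; exact h
  | false =>
    obtain ⟨h1, h2, h3⟩ := hb
    obtain ⟨s, s1, s2, s3⟩ := pocketA hω hPf h1 hdual h2 h3 (fun k hk => (hv k hk).1)
    refine ⟨fun c => s (vx c), s (vx Y.α), ?_, ?_, ?_⟩
    · intro c c' hfar hm
      rcases hm with ⟨h4, rfl⟩ | ⟨-, rfl⟩
      · simp only [vx_pvO]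
        refine (s1 c h4 (fun h => hfar (hPr c h)) (fun h => ?_) (fun h => ?_)).symm
        · exact hfar (by rw [h]; unfold Near; simp; omega)
        · apply hfar
          rw [← h]
          exact (near_symm (near_oc c)).mono (by omega)
      · simp only [vx_pvC]
    · intro η hη j hj hbad
      have hbad' : plab (Y.cor η j) ∈ Y.W := hbad
      exact s2 _ (hI.co_W.symm.trans (hI.co_of_mem hbad'))
    · intro k hk
      rcases s3 k hk with h | h
      · left; rw [h]; unfold Near; simp; omega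
      · right; exact h

/-- `K` is cut off from the bad labels by the ball of radius `r` around the tip. -/
def Cut (b : Bool) (Y : DEnv) (r : ℤ) (K : ℤ × ℤ → Prop) : Prop :=
  ∀ η, η ⊆ Y.E → ∀ l k, l ≤ k → k ≤ Y.len η →
    (∀ i, l ≤ i → i ≤ k → ¬ Near r (vx Y.α) (vx (Y.cor η i))) → K (Y.cor η k) →
    ∀ i, l ≤ i → i < k → ¬ bad b Y (plab (Y.cor η i))

/-- **Cut off by a pocket.** -/
theorem cut_of {b : Bool} {r : ℤ} {h : ℤ × ℤ → ZMod 2} {h0 : ZMod 2}
    (h1 : ∀ c c', ¬ Near r (vx Y.α) (vx c) → Mv Y c c' → h c' = h c)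
    (h2 : ∀ η, η ⊆ Y.E → ∀ j < Y.len η, bad b Y (plab (Y.cor η j)) → h (Y.cor η j) = h0)
    {K : ℤ × ℤ → Prop} (hK : ∀ c, K c → h c ≠ h0) : Cut b Y r K := by
  intro η hη l k hlk hk hfar hKk i hi hik hbad
  have h3 : ∀ j, i ≤ j → j ≤ k → h (Y.cor η j) = h (Y.cor η i) := by
    intro j hj
    induction j, hj using Nat.le_induction with
    | base => intro _; rfl
    | succ j hj ih =>
      intro hjk
      rw [h1 _ _ (hfar j (by omega) (by omega)) (mv_cor hη j), ih (by omega)]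
  apply hK _ hKk
  rw [h3 k (by omega) le_rfl]
  exact h2 η hη i (by omega) hbad

section

variable {X : DEnv} {ω : Finset (ℤ × ℤ)} (hω : ω ⊆ X.E) {u : ℕ} (hu : u ≤ X.len ω)

include hu

/-- the configuration seen from the beginning -/
lemma env_cor' {η : Finset (ℤ × ℤ)} (hη : η ⊆ (env X ω hω u).E) :
    mix (X.exset (steps u) ω) ω η ⊆ X.E ∧
    (∀ k ≤ u, X.cor (mix (X.exset (steps u) ω) ω η) k = X.cor ω k) ∧
    (∀ i, (env X ω hω u).cor η i = X.cor (mix (X.exset (steps u) ω) ω η) (i + u)) ∧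
    (env X ω hω u).len η + u = X.len (mix (X.exset (steps u) ω) ω η) := by
  have hη' : η ⊆ X.E := hη.trans sdiff_subset
  have hself : η \ X.exset (steps u) ω = η := by
    ext e
    rw [mem_sdiff]
    exact ⟨fun h => h.1, fun h => ⟨h, (mem_sdiff.1 (hη h)).2⟩⟩
  refine ⟨mix_subset hω hη', ?_, ?_, ?_⟩
  · have := (X.tau_mix (adapted_steps u) hω hη').2
    rw [tau_steps X hω hu] at this
    exact this
  · intro i
    have := X.after_cor (adapted_steps u) hω hη' i
    rw [hself, tau_steps X hω hu] at this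
    exact this
  · have := X.after_len (adapted_steps u) hω hη'
    rw [hself, tau_steps X hω hu] at this
    exact this

/-- a label which is bad at time `u` is bad at time `0` or met before `u` -/
lemma bad_env {b : Bool} {e : ℤ × ℤ} (h : bad b (env X ω hω u) e) :
    bad b X e ∨ ∃ k < u, plab (X.cor ω k) = e := by
  cases b with
  | true =>
    have h' : e ∉ (env X ω hω u).E ∪ (env X ω hω u).W := h
    rw [mem_union, mem_env_E hω hu, mem_env_W hω hu] at h'
    by_cases h1 : ∃ k < u, plab (X.cor ω k) = e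
    · exact Or.inr h1
    · left
      change e ∉ X.E ∪ X.W
      intro h2
      apply h'
      push Not at h1
      rw [mem_union] at h2
      rcases h2 with h2 | h2
      · exact Or.inl ⟨h2, h1⟩
      · exact Or.inr (Or.inl h2)
  | false =>
    have h' : e ∈ (env X ω hω u).W := h
    rw [mem_env_W hω hu] at h'
    rcases h' with h1 | ⟨-, h1⟩
    · exact Or.inl h1
    · exact Or.inr h1

/-- **Localisation.** After the birth of the gate at the tip of `X`, as long as `P` is not met, the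
labels which are bad at time `0` are only met near the gate. -/
theorem loc_of_born (hI : Inv X) {b : Bool} {P S : Finset (ℤ × ℤ)} {g g' : ℤ × ℤ}
    (hP : P ⊆ (env X ω hω u).E) (hprim : Co (P ∪ X.W) (vx g) (vx g'))
    (hdual : Co (P.map sh1) (fi g) (fi g')) (hfr : lab g ∈ P ∨ plab g ∈ P ∨ plab g ∈ S)
    (hfr' : lab g' ∈ P ∨ plab g' ∈ P ∨ plab g' ∈ S) (hSu : ∀ k < u, plab (X.cor ω k) ∉ S)
    (hb : Born b X g g') {r : ℤ} (hr : 2 ≤ r)
    (hPr : ∀ c, plab c ∈ P → Near r (vx X.α) (vx c)) {η : Finset (ℤ × ℤ)}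
    (hη : η ⊆ (env X ω hω u).E) {i : ℕ} (hi : i < (env X ω hω u).len η)
    (hav : ∀ k < i, plab ((env X ω hω u).cor η k) ∉ P)
    (hSi : ∀ k ≤ i, plab ((env X ω hω u).cor η k) ∉ S)
    (hbad : bad b (env X ω hω u) (plab ((env X ω hω u).cor η i))) :
    Near r (vx X.α) (vx ((env X ω hω u).cor η i)) ∨
      ∃ k < u, plab (X.cor ω k) = plab ((env X ω hω u).cor η i) := by
  obtain ⟨m1, m2, m3, m4⟩ := env_cor' hω hu hη
  set ζ := mix (X.exset (steps u) ω) ω η with hζ
  rcases bad_env hω hu hbad with h | h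
  swap
  · exact Or.inr h
  left
  have hPE : P ⊆ X.E := fun e he => ((mem_env_E hω hu).1 (hP he)).1
  have hmet : ∀ k < u + i, plab (X.cor ζ k) ∉ P := by
    intro k hk hk'
    rcases Nat.lt_or_ge k u with h1 | h1
    · rw [m2 k h1.le] at hk'
      exact ((mem_env_E hω hu).1 (hP hk')).2 k h1 rfl
    · have h2 := hav (k - u) (by omega)
      rw [m3, Nat.sub_add_cancel h1] at h2
      exact h2 hk'
  have hnot : plab (X.cor ζ (u + i)) ∉ P := by
    intro h1
    rw [m3, add_comm] at h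
    cases b with
    | true => exact h (mem_union_left _ (hPE h1))
    | false => exact disjoint_left.1 X.disj (hPE h1) h
  have hSS : ∀ k ≤ u + i, plab (X.cor ζ k) ∉ S := by
    intro k hk
    rcases Nat.lt_or_ge k u with h1 | h1
    · rw [m2 k h1.le]
      exact hSu k h1
    · have h2 := hSi (k - u) (by omega)
      rw [m3, Nat.sub_add_cancel h1] at h2
      exact h2
  have hv1 := unvisited hI (t := u + i) hPE hmet hfr hnot hSS
  have hv2 := unvisited hI (t := u + i) hPE hmet hfr' hnot hSS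
  obtain ⟨hh, h0, d1, d2, d3⟩ := pocket_data hI b hPE hprim hdual hb hr hPr m1 (t := u + i) hmet
    (fun k hk => ⟨hv1 k hk, hv2 k hk⟩)
  have h3 := d2 ζ m1 (u + i) (by omega) (by rw [m3, add_comm] at h; exact h)
  rw [m3, add_comm]
  exact (d3 (u + i) le_rfl).resolve_right (fun h4 => h4 h3)

end

end Pool.Agent.H43.Q1
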