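import Mathlib
import Pool.Agent.H43.Q1.Cut

set_option autoImplicit false
open Finset

/-! # Crossings of annuli by classes of corners

`InA r1 r2 x` : corners of the annulus. `Conn` : joined by possible moves of the environment inside the
annulus. `Lab K` : labels of the corners of `K`. -/

namespace Pool.Agent.H43.Q1

open Pool.Agent.H75.Perc Pool.Agent.H75.TwoArm Pool.Agent.H75.Four Pool.Agent.H99.NC
open Pool.Agent.H69.Q1 Pool.Agent.H39.Q1 Pool.Agent.H28.Q1 Pool.Agent.H65.Dom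
open Pool.Agent.H69.Q1.DEnv (steps adapted_steps)
open Pool.Agent.H75.TwoArm.SymmAux (pvO pvC pv_eq)

/-- corners of the annulus -/
def InA (r1 r2 : ℤ) (x c : ℤ × ℤ) : Prop := ¬ Near r1 x (vx c) ∧ Near r2 x (vx c)

/-- moves inside the annulus -/
def Rl (Z : DEnv) (r1 r2 : ℤ) (x c c' : ℤ × ℤ) : Prop :=
  InA r1 r2 x c ∧ InA r1 r2 x c' ∧ Mv Z c c'

/-- joined by moves inside the annulus -/
def Conn (Z : DEnv) (r1 r2 : ℤ) (x : ℤ × ℤ) : ℤ × ℤ → ℤ × ℤ → Prop :=
  Relation.EqvGen (Rl Z r1 r2 x)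

/-- a fresh label lies in one class only -/
lemma conn_of_plab {Z : DEnv} {r1 r2 : ℤ} {x c c' : ℤ × ℤ} (hc : InA r1 r2 x c)
    (hc' : InA r1 r2 x c') (h : plab c' = plab c) (hE : plab c ∈ Z.E) : Conn Z r1 r2 x c c' := by
  rcases eq_or_oc h with h1 | h1
  · subst h1; exact Relation.EqvGen.refl _
  · subst h1
    have hd : InA r1 r2 x (pvO c) := by
      unfold InA at hc' ⊢
      rw [vx_pvO]
      exact hc'
    have h2 : Rl Z r1 r2 x c (pvO c) := ⟨hc, hd, Or.inl ⟨mem_union_left _ hE, rfl⟩⟩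
    have h3 : Rl Z r1 r2 x (oc c) (pvO c) :=
      ⟨hc', hd, Or.inr ⟨fun h4 => disjoint_left.1 Z.disj (by rw [plab_oc] at h4; exact hE)
        (by rw [plab_oc] at h4; exact h4), (pvC_oc c).symm⟩⟩
    exact Relation.EqvGen.trans _ _ _ (Relation.EqvGen.rel _ _ h2)
      (Relation.EqvGen.symm _ _ (Relation.EqvGen.rel _ _ h3))

/-- a piece of the path inside the annulus is in one class -/
lemma conn_piece {Z : DEnv} {r1 r2 : ℤ} {x : ℤ × ℤ} {η : Finset (ℤ × ℤ)} (hη : η ⊆ Z.E) {a b : ℕ}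
    (h : ∀ k, a ≤ k → k ≤ b → InA r1 r2 x (Z.cor η k)) (k : ℕ) (hk : a ≤ k) (hk' : k ≤ b) :
    Conn Z r1 r2 x (Z.cor η a) (Z.cor η k) := by
  induction k, hk using Nat.le_induction with
  | base => exact Relation.EqvGen.refl _
  | succ k hk ih =>
    exact Relation.EqvGen.trans _ _ _ (ih (by omega)) (Relation.EqvGen.rel _ _
      ⟨h k hk (by omega), h (k + 1) (by omega) hk', mv_cor hη k⟩)

/-- a function preserved by the moves is constant on the classes -/
lemma conn_const {Z : DEnv} {r1 r2 : ℤ} {x : ℤ × ℤ} {h : ℤ × ℤ → ZMod 2}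
    (hh : ∀ c c', Rl Z r1 r2 x c c' → h c' = h c) {c c' : ℤ × ℤ} (hc : Conn Z r1 r2 x c c') :
    h c' = h c := by
  induction hc with
  | rel c c' h1 => exact hh c c' h1
  | refl c => rfl
  | symm c c' _ ih => exact ih.symm
  | trans a b c _ _ ih1 ih2 => exact ih2.trans ih1

/-- vertex or face of a corner -/
def pos : Bool → ℤ × ℤ → ℤ × ℤ
  | true, c => fi c
  | false, c => vx c

/-- closed dual edges (`true`), open edges (`false`) -/
noncomputable def side : Bool → Finset (ℤ × ℤ) → Finset (ℤ × ℤ) → Finset (ℤ × ℤ)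
  | true, E, η => du E η
  | false, E, η => η ∩ E

lemma side_mono (b : Bool) {E E' : Finset (ℤ × ℤ)} (h : E ⊆ E') (η : Finset (ℤ × ℤ)) :
    side b E η ⊆ side b E' η := by
  cases b with
  | true => exact du_mono_left h
  | false => exact inter_subset_inter_left h

lemma side_inter (b : Bool) {E F η : Finset (ℤ × ℤ)} (h : E ⊆ F) : side b E (η ∩ F) = side b E η := by
  cases b with
  | true =>
    change du E (η ∩ F) = du E η
    unfold du
    refine congrArg (Finset.map sh1) ?_
    ext e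
    rw [mem_sdiff, mem_sdiff, mem_inter]
    constructor
    · rintro ⟨h1, h2⟩
      exact ⟨h1, fun h3 => h2 ⟨h3, h h1⟩⟩
    · rintro ⟨h1, h2⟩
      exact ⟨h1, fun h3 => h2 h3.1⟩
  | false =>
    change η ∩ F ∩ E = η ∩ E
    ext e
    rw [mem_inter, mem_inter, mem_inter]
    constructor
    · rintro ⟨⟨h1, -⟩, h2⟩
      exact ⟨h1, h2⟩
    · rintro ⟨h1, h2⟩
      exact ⟨⟨h1, h h2⟩, h2⟩

lemma near_pos (b : Bool) {r : ℤ} {x c : ℤ × ℤ} (h : Near r x (vx c)) : Near (r + 1) x (pos b c) := by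
  cases b with
  | true => exact near_fi h
  | false => exact h.mono (by omega)

lemma far_pos (b : Bool) {r : ℤ} {x c : ℤ × ℤ} (h : Far (r + 1) x (vx c)) : Far r x (pos b c) := by
  cases b with
  | true => exact far_fi h
  | false => exact h.mono (by omega)

/-- **A piece which meets no bad label** is a connection by its fresh labels. -/
lemma co_side {Y : DEnv} (b : Bool) {η M : Finset (ℤ × ℤ)} (hη : η ⊆ Y.E) {i j : ℕ} (hij : i ≤ j)
    (hb : ∀ t, i ≤ t → t < j → ¬ bad b Y (plab (Y.cor η t)))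
    (hM : ∀ t, i ≤ t → t < j → plab (Y.cor η t) ∈ Y.E → plab (Y.cor η t) ∈ M) :
    Co (side b M η) (pos b (Y.cor η i)) (pos b (Y.cor η j)) := by
  cases b with
  | true =>
    refine (Y.side_dual η hij).mono ?_
    unfold side du
    refine map_subset_map.2 fun e he => ?_
    rw [mem_sdiff, mem_union, not_or] at he
    rw [mem_sdiff]
    obtain ⟨k, hk, rfl⟩ := Y.mem_metE.1 he.1
    have h2 : plab (Y.cor η k) ∈ Y.E ∪ Y.W := not_not.1 (hb k hk.1 hk.2)
    rw [mem_union] at h2
    exact ⟨hM k hk.1 hk.2 (h2.resolve_right he.2.2), he.2.1⟩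
  | false =>
    refine (Y.side_open η hij).mono ?_
    intro e he
    rw [mem_inter, mem_union] at he
    obtain ⟨k, hk, rfl⟩ := Y.mem_metE.1 he.2
    have h2 : plab (Y.cor η k) ∉ Y.W := hb k hk.1 hk.2
    have h3 : plab (Y.cor η k) ∈ η := he.1.resolve_right h2
    unfold side
    rw [mem_inter]
    exact ⟨h3, hM k hk.1 hk.2 (hη h3)⟩

/-- labels of a set of corners -/
noncomputable def Lab (K : Finset (ℤ × ℤ)) : Finset (ℤ × ℤ) := K.image plab

lemma mem_Lab {K : Finset (ℤ × ℤ)} {e : ℤ × ℤ} : e ∈ Lab K ↔ ∃ c ∈ K, plab c = e := mem_image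

/-- the class `K` is crossed by its fresh labels of one colour -/
def XK (b : Bool) (F : Finset (ℤ × ℤ)) (r1 r2 : ℤ) (x : ℤ × ℤ) (η : Finset (ℤ × ℤ)) : Prop :=
  Arm x (r1 + 2) (r2 - 1) (side b F η)

lemma near_step {Y : DEnv} {η : Finset (ℤ × ℤ)} (hη : η ⊆ Y.E) {r : ℤ} {x : ℤ × ℤ} {i : ℕ}
    (h : Near r x (vx (Y.cor η i))) : Near (r + 1) x (vx (Y.cor η (i + 1))) :=
  near_trans h (near_mv (mv_cor hη i))

lemma near_step' {Y : DEnv} {η : Finset (ℤ × ℤ)} (hη : η ⊆ Y.E) {r : ℤ} {x : ℤ × ℤ} {i : ℕ}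
    (h : Near r x (vx (Y.cor η (i + 1)))) : Near (r + 1) x (vx (Y.cor η i)) :=
  near_trans h (near_symm (near_mv (mv_cor hη i)))

/-- **Crossing of a class which is cut off**: an arm around the tip and a crossing of the class, made
of different labels. -/
theorem crossing {Y : DEnv} {b : Bool} {K : Finset (ℤ × ℤ)} {x : ℤ × ℤ} {R r s r1 r2 : ℤ}
    (hr : 0 ≤ r) (hs : r ≤ s) (hR : Near R x (vx Y.α)) (hs1 : s + 1 + R ≤ r1) (h12 : r1 < r2)
    (hK : ∀ c ∈ K, ¬ Near r1 x (vx c)) (hcut : Cut b Y r (· ∈ K)) {η : Finset (ℤ × ℤ)}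
    (hη : η ⊆ Y.E) {a n : ℕ} (han : a < n) (hn : n ≤ Y.len η)
    (ha : Near r1 x (vx (Y.cor η a))) (hfar : ¬ Near r2 x (vx (Y.cor η n)))
    (hpc : ∀ k, a < k → k < n → Y.cor η k ∈ K) {F : Finset (ℤ × ℤ)}
    (hF : ∀ e ∈ Lab K, e ∈ Y.E → e ∈ F) :
    Arm (vx Y.α) (r + 2) s (side b (Y.E \ Lab K) η) ∧ XK b F r1 r2 x η := by
  classical
  have ha1 : a + 1 < n := by
    rcases Nat.lt_or_ge (a + 1) n with h | h
    · exact h
    · exfalso
      have : n = a + 1 := by omega
      subst this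
      exact hfar ((near_step hη ha).mono (by omega))
  -- last visit of the ball before `n`
  set S := (range (n + 1)).filter fun t => Near r (vx Y.α) (vx (Y.cor η t)) with hS
  have h0S : 0 ∈ S := by
    rw [hS, mem_filter, mem_range]
    refine ⟨by omega, ?_⟩
    rw [Y.cor_zero]
    unfold Near
    simp only [sub_self, abs_zero]
    exact ⟨hr, hr⟩
  obtain ⟨l, hlS, hmax⟩ := S.exists_max_image id ⟨0, h0S⟩
  rw [hS, mem_filter, mem_range] at hlS
  have hlast : ∀ t, l < t → t ≤ n → ¬ Near r (vx Y.α) (vx (Y.cor η t)) := by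
    intro t h1 h2 h3
    have := hmax t (by rw [hS, mem_filter, mem_range]; exact ⟨by omega, h3⟩)
    simp only [id] at this
    omega
  have hfarK : ∀ k, a < k → k < n → ¬ Near s (vx Y.α) (vx (Y.cor η k)) := by
    intro k h1 h2 h3
    exact hK _ (hpc k h1 h2) ((near_trans hR h3).mono (by omega))
  have hla : l ≤ a := by
    by_contra hcon
    push Not at hcon
    rcases Nat.lt_or_ge l n with h | h
    · exact hfarK l hcon h (hlS.2.mono hs)
    · have : l = n := by omega
      subst this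
      exact hfar ((near_trans hR hlS.2).mono (by omega))
  have hgood : ∀ i, l + 1 ≤ i → i < n - 1 → ¬ bad b Y (plab (Y.cor η i)) := by
    intro i hi hi'
    refine hcut η hη (l + 1) (n - 1) (by omega) (by omega) ?_ (hpc _ (by omega) (by omega)) i hi hi'
    intro j hj hj'
    exact hlast j (by omega) (by omega)
  constructor
  · -- first exit of the ball of radius `s` after `l`
    have hex : ∃ e, l < e ∧ e ≤ a + 1 ∧ ¬ Near s (vx Y.α) (vx (Y.cor η e)) :=
      ⟨a + 1, by omega, le_rfl, hfarK _ (by omega) ha1⟩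
    set e := Nat.find hex with he
    obtain ⟨he1, he2, he3⟩ := Nat.find_spec hex
    have hmin : ∀ j, l < j → j < e → Near s (vx Y.α) (vx (Y.cor η j)) := by
      intro j hj hj'
      by_contra hcon
      exact Nat.find_min hex hj' ⟨hj, by omega, hcon⟩
    have hco := co_side (Y := Y) b (M := Y.E \ Lab K) hη (i := l + 1) (j := e) (by omega)
      (fun t h1 h2 => hgood t h1 (by omega)) (fun t h1 h2 h3 => by
        rw [mem_sdiff]
        refine ⟨h3, fun h4 => ?_⟩
        obtain ⟨c, hc, hc'⟩ := mem_Lab.1 h4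
        have h5 := near_of_plab hc'
        exact hK c hc ((near_trans (near_trans hR (hmin t (by omega) h2)) h5).mono (by omega)))
    have hst : Near (r + 2) (vx Y.α) (pos b (Y.cor η (l + 1))) := by
      have := near_pos b (near_step hη hlS.2)
      exact this.mono (by omega)
    have hen : Far s (vx Y.α) (pos b (Y.cor η e)) := far_pos b (not_near.1 he3)
    exact ⟨_, _, hst.1, hst.2, hen, hco⟩
  · have hco := co_side (Y := Y) b (M := F) hη (i := a + 1) (j := n - 1) (by omega)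
      (fun t h1 h2 => hgood t (by omega) h2) (fun t h1 h2 h3 =>
        hF _ (mem_Lab.2 ⟨_, hpc t (by omega) (by omega), rfl⟩) h3)
    have hst : Near (r1 + 2) x (pos b (Y.cor η (a + 1))) := by
      have := near_pos b (near_step hη ha)
      exact this.mono (by omega)
    have hen : Far (r2 - 1) x (pos b (Y.cor η (n - 1))) := by
      refine far_pos b ?_
      rw [← not_near]
      intro h
      have h1 := near_step hη h
      rw [Nat.sub_add_cancel (by omega)] at h1
      exact hfar (h1.mono (by omega))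
    exact ⟨_, _, hst.1, hst.2, hen, hco⟩

end Pool.Agent.H43.Q1
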