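import Mathlib
import Pool.Agent.H43.Q1.Cross

set_option autoImplicit false
open Finset

/-! # The classes of an annulus

The expected number of classes crossed by their own fresh labels is bounded. -/

namespace Pool.Agent.H43.Q1

open Pool.Agent.H75.Perc Pool.Agent.H75.TwoArm Pool.Agent.H75.Four Pool.Agent.H99.NC
open Pool.Agent.H69.Q1 Pool.Agent.H39.Q1 Pool.Agent.H28.Q1 Pool.Agent.H65.Dom

/-- Independence of finitely many events which depend on disjoint sets of labels. -/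
theorem PrP_forall_indep {α ι : Type*} [DecidableEq α] [DecidableEq ι] (q : α → ℝ) (s : Finset ι)
    (F : ι → Finset α) (A : ι → Finset α → Prop)
    (hd : ∀ i ∈ s, ∀ j ∈ s, i ≠ j → Disjoint (F i) (F j)) :
    ∀ E : Finset α, (∀ i ∈ s, F i ⊆ E) →
    PrP q E (fun ω => ∀ i ∈ s, A i (ω ∩ F i)) = ∏ i ∈ s, PrP q (F i) (A i) := by
  induction s using Finset.induction_on with
  | empty =>
    intro E _
    rw [prod_empty]
    have : PrP q E (fun ω => ∀ i ∈ (∅ : Finset ι), A i (ω ∩ F i)) = PrP q E (fun _ => True) :=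
      PrP_congr fun ω _ => by simp
    rw [this, PrP_true]
  | @insert i s hi ih =>
    intro E hE
    rw [prod_insert hi]
    have h1 : PrP q E (fun ω => ∀ j ∈ insert i s, A j (ω ∩ F j)) =
        PrP q E (fun ω => A i (ω ∩ F i) ∧ (fun η => ∀ j ∈ s, A j (η ∩ F j)) (ω \ F i)) := by
      refine PrP_congr fun ω _ => ?_
      have h2 : ∀ j ∈ s, (ω \ F i) ∩ F j = ω ∩ F j := by
        intro j hj
        have hij : i ≠ j := fun h => hi (h ▸ hj)
        have h3 := hd i (mem_insert_self _ _) j (mem_insert_of_mem hj) hij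
        ext e
        rw [mem_inter, mem_sdiff, mem_inter]
        constructor
        · rintro ⟨⟨h4, -⟩, h5⟩
          exact ⟨h4, h5⟩
        · rintro ⟨h4, h5⟩
          exact ⟨⟨h4, fun h6 => disjoint_left.1 h3 h6 h5⟩, h5⟩
      constructor
      · intro h
        refine ⟨h i (mem_insert_self _ _), fun j hj => ?_⟩
        rw [h2 j hj]
        exact h j (mem_insert_of_mem hj)
      · rintro ⟨h3, h4⟩ j hj
        rcases mem_insert.1 hj with h5 | h5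
        · rw [h5]; exact h3
        · rw [← h2 j h5]; exact h4 j h5
    rw [h1, PrP_split q (hE i (mem_insert_self _ _)) (A i) (fun η => ∀ j ∈ s, A j (η ∩ F j))]
    rw [ih (fun a ha b hb => hd a (mem_insert_of_mem ha) b (mem_insert_of_mem hb)) (E \ F i)
      (fun j hj e he => mem_sdiff.2 ⟨hE j (mem_insert_of_mem hj) he, fun h3 =>
        disjoint_left.1 (hd i (mem_insert_self _ _) j (mem_insert_of_mem hj)
          (fun h => hi (h ▸ hj))) h3 he⟩)]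

/-- If the product of `1 - p` is at least `δ` then the sum of `p` is at most `log (1/δ)`. -/
lemma sum_le_log {ι : Type*} {s : Finset ι} {p : ι → ℝ} (hp : ∀ i ∈ s, p i ≤ 1) {δ : ℝ}
    (hδ : 0 < δ) (h : δ ≤ ∏ i ∈ s, (1 - p i)) : ∑ i ∈ s, p i ≤ Real.log (1 / δ) := by
  have h1 : ∏ i ∈ s, (1 - p i) ≤ Real.exp (-∑ i ∈ s, p i) := by
    rw [← Finset.sum_neg_distrib, Real.exp_sum]
    refine Finset.prod_le_prod (fun i hi => by linarith [hp i hi]) fun i _ => ?_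
    have := Real.add_one_le_exp (-(p i))
    linarith
  have h2 : Real.log δ ≤ -∑ i ∈ s, p i := by
    rw [← Real.log_exp (-∑ i ∈ s, p i)]
    exact Real.log_le_log hδ (h.trans h1)
  rw [one_div, Real.log_inv]
  linarith

open Classical in
/-- the corners of the annulus -/
noncomputable def Gs (r1 r2 : ℤ) (x : ℤ × ℤ) : Finset (ℤ × ℤ) :=
  ((Icc (2 * (x.1 - r2)) (2 * (x.1 + r2) + 1)) ×ˢ
    (Icc (2 * (x.2 - r2)) (2 * (x.2 + r2) + 1))).filter (InA r1 r2 x)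

lemma mem_Gs {r1 r2 : ℤ} {x c : ℤ × ℤ} : c ∈ Gs r1 r2 x ↔ InA r1 r2 x c := by
  unfold Gs
  simp only [mem_filter, mem_product, mem_Icc]
  constructor
  · rintro ⟨-, h⟩; exact h
  · intro h
    refine ⟨?_, h⟩
    have h2 := h.2
    unfold Near vx at h2
    simp only [abs_le] at h2
    omega

open Classical in
/-- the class of a corner -/
noncomputable def cls (Z : DEnv) (r1 r2 : ℤ) (x c : ℤ × ℤ) : Finset (ℤ × ℤ) :=
  (Gs r1 r2 x).filter (Conn Z r1 r2 x c)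

lemma mem_cls {Z : DEnv} {r1 r2 : ℤ} {x c c' : ℤ × ℤ} :
    c' ∈ cls Z r1 r2 x c ↔ InA r1 r2 x c' ∧ Conn Z r1 r2 x c c' := by
  unfold cls
  simp only [mem_filter, mem_Gs]

lemma cls_eq {Z : DEnv} {r1 r2 : ℤ} {x c c' : ℤ × ℤ} (h : Conn Z r1 r2 x c c') :
    cls Z r1 r2 x c = cls Z r1 r2 x c' := by
  ext d
  rw [mem_cls, mem_cls]
  constructor
  · rintro ⟨h1, h2⟩
    exact ⟨h1, Relation.EqvGen.trans _ _ _ (Relation.EqvGen.symm _ _ h) h2⟩
  · rintro ⟨h1, h2⟩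
    exact ⟨h1, Relation.EqvGen.trans _ _ _ h h2⟩

/-- the classes -/
noncomputable def Cls (Z : DEnv) (r1 r2 : ℤ) (x : ℤ × ℤ) : Finset (Finset (ℤ × ℤ)) :=
  (Gs r1 r2 x).image (cls Z r1 r2 x)

lemma mem_Cls {Z : DEnv} {r1 r2 : ℤ} {x : ℤ × ℤ} {K : Finset (ℤ × ℤ)} :
    K ∈ Cls Z r1 r2 x ↔ ∃ c, InA r1 r2 x c ∧ cls Z r1 r2 x c = K := by
  unfold Cls
  rw [mem_image]
  constructor
  · rintro ⟨c, h1, h2⟩
    exact ⟨c, mem_Gs.1 h1, h2⟩
  · rintro ⟨c, h1, h2⟩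
    exact ⟨c, mem_Gs.2 h1, h2⟩

lemma cls_disj {Z : DEnv} {r1 r2 : ℤ} {x : ℤ × ℤ} {K K' : Finset (ℤ × ℤ)}
    (hK : K ∈ Cls Z r1 r2 x) (hK' : K' ∈ Cls Z r1 r2 x) (hne : K ≠ K') :
    Disjoint (Lab K ∩ Z.E) (Lab K' ∩ Z.E) := by
  rw [disjoint_left]
  intro e he he'
  rw [mem_inter] at he he'
  obtain ⟨c, hc, rfl⟩ := mem_Lab.1 he.1
  obtain ⟨c', hc', h1⟩ := mem_Lab.1 he'.1
  obtain ⟨d, -, rfl⟩ := mem_Cls.1 hK
  obtain ⟨d', -, rfl⟩ := mem_Cls.1 hK'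
  rw [mem_cls] at hc hc'
  apply hne
  have h2 := conn_of_plab hc.1 hc'.1 h1 he.2
  rw [cls_eq hc.2, cls_eq h2, ← cls_eq hc'.2]

/-- **The expected number of crossed classes is bounded.** -/
theorem sum_XK {δ : ℝ} {q : ℤ × ℤ → ℝ} {N : ℤ} (hD : Dec q δ N) {Z : DEnv}
    (hE : ∀ e ∈ Z.E, (e.1 + e.2) % 2 = 1) (b : Bool) (x : ℤ × ℤ) {r1 r2 : ℤ} (hr1 : 0 ≤ r1)
    (hN : 4 * (r1 + 2) ≤ N) (h12 : 4 * (r1 + 2) + 1 ≤ r2) :
    ∑ K ∈ Cls Z r1 r2 x, PrP q (Lab K ∩ Z.E) (XK b (Lab K ∩ Z.E) r1 r2 x) ≤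
      Real.log (1 / δ) := by
  refine sum_le_log (fun K _ => PrP_le_one hD.1 _ _) hD.2.1 ?_
  have h1 := PrP_forall_indep q (Cls Z r1 r2 x) (fun K => Lab K ∩ Z.E)
    (fun K η => ¬ XK b (Lab K ∩ Z.E) r1 r2 x η) (fun K hK K' hK' hne => cls_disj hK hK' hne) Z.E
    (fun K _ => inter_subset_right)
  have h2 : ∏ K ∈ Cls Z r1 r2 x, (1 - PrP q (Lab K ∩ Z.E) (XK b (Lab K ∩ Z.E) r1 r2 x)) =
      ∏ K ∈ Cls Z r1 r2 x, PrP q (Lab K ∩ Z.E) (fun η => ¬ XK b (Lab K ∩ Z.E) r1 r2 x η) :=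
    prod_congr rfl fun K _ => (PrP_not _ _ _).symm
  rw [h2, ← h1]
  have h3 : PrP q Z.E (fun ω => Arm x (r1 + 2) (4 ^ 1 * (r1 + 2)) (side b Z.E ω)) ≤ 1 - δ := by
    have h4 := hD.2.2.2 Z.E hE x (r1 + 2) (by omega) 1 (by omega)
    simp only [pow_one] at h4 ⊢
    cases b with
    | true => exact h4.2
    | false =>
      refine le_trans (le_of_eq (PrP_congr fun ω hω => ?_)) h4.1
      have : side false Z.E ω = ω := inter_eq_left.2 hω
      rw [this]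
  have h5 : δ ≤ PrP q Z.E (fun ω => ¬ Arm x (r1 + 2) (4 ^ 1 * (r1 + 2)) (side b Z.E ω)) := by
    rw [PrP_not]; linarith
  refine h5.trans (PrP_mono hD.1 fun ω _ h6 K hK h7 => h6 ?_)
  unfold XK at h7
  rw [side_inter b (subset_refl _)] at h7
  have h8 := h7.mono (side_mono b (inter_subset_right (s₁ := Lab K) (s₂ := Z.E)) ω)
  obtain ⟨u, v, a1, a2, a3, a4⟩ := h8
  refine ⟨u, v, a1, a2, ?_, a4⟩
  rcases a3 with a3 | a3
  · left; omega
  · right; omega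

end Pool.Agent.H43.Q1
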