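import Mathlib
import Pool.Agent.H43.Q1.Classes

set_option autoImplicit false
open Finset

/-! # Probability that a class which is cut off is crossed -/

namespace Pool.Agent.H43.Q1

open Pool.Agent.H75.Perc Pool.Agent.H75.TwoArm Pool.Agent.H75.Four Pool.Agent.H99.NC
open Pool.Agent.H69.Q1 Pool.Agent.H39.Q1 Pool.Agent.H28.Q1 Pool.Agent.H65.Dom
open Pool.Agent.H69.Q1.DEnv (steps adapted_steps Adapted)
open Pool.Agent.H75.TwoArm.SymmAux (pvO pvC pv_eq)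

section

variable {X : DEnv}

lemma exset_eq {Q Q' : ℕ → (ℕ → ℤ × ℤ) → Prop} {ω : Finset (ℤ × ℤ)}
    (h : X.tau Q ω = X.tau Q' ω) : X.exset Q ω = X.exset Q' ω := by
  unfold DEnv.exset
  rw [h]

lemma after_eq_env {Q : ℕ → (ℕ → ℤ × ℤ) → Prop} (hQ : Adapted Q) {ω : Finset (ℤ × ℤ)}
    (hω : ω ⊆ X.E) : X.after Q hQ ω hω = env X ω hω (X.tau Q ω) := by
  have h1 := X.tau_le_len (Q := Q) hω
  have h2 : X.exset Q ω = X.exset (steps (X.tau Q ω)) ω :=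
    exset_eq (tau_steps X hω h1).symm
  refine denv_ext ?_ ?_ ?_ rfl
  · rw [X.after_E, h2]; rfl
  · rw [X.after_W, h2]; rfl
  · rw [X.after_α, env_α hω h1]

lemma pvO_ne_pvC (c : ℤ × ℤ) : pvO c ≠ pvC c := by
  intro h
  have h1 := congrArg vx h
  rw [vx_pvO, vx_pvC] at h1
  exact vx_oc_ne c h1

/-- the environment only depends on the path -/
lemma env_congr {ω ω' : Finset (ℤ × ℤ)} (hω : ω ⊆ X.E) (hω' : ω' ⊆ X.E) {u : ℕ}
    (hu : u ≤ X.len ω) (hu' : u ≤ X.len ω') (h : ∀ j ≤ u, X.cor ω' j = X.cor ω j) :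
    env X ω' hω' u = env X ω hω u := by
  refine denv_ext ?_ ?_ ?_ rfl
  · ext e
    rw [mem_env_E hω' hu', mem_env_E hω hu]
    refine and_congr_right fun _ => ?_
    constructor
    · intro h1 k hk
      rw [← h k hk.le]; exact h1 k hk
    · intro h1 k hk
      rw [h k hk.le]; exact h1 k hk
  · ext e
    rw [mem_env_W hω' hu', mem_env_W hω hu]
    have key : ∀ {η η' : Finset (ℤ × ℤ)}, η ⊆ X.E → η' ⊆ X.E →
        (∀ j ≤ u, X.cor η' j = X.cor η j) → (e ∈ η ∧ ∃ k < u, plab (X.cor η k) = e) →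
        e ∈ η' ∧ ∃ k < u, plab (X.cor η' k) = e := by
      rintro η η' hη hη' h1 ⟨h2, k, hk, rfl⟩
      refine ⟨?_, k, hk, by rw [h1 k hk.le]⟩
      by_contra h3
      have h4 := h1 (k + 1) (by omega)
      rw [X.cor_succ, X.cor_succ, h1 k hk.le, pv_closed, pv_open (mem_union_left _ h2)] at h4
      · exact pvO_ne_pvC _ h4.symm
      · rw [mem_union, not_or]
        exact ⟨h3, fun h5 => disjoint_left.1 X.disj (hη h2) h5⟩
    constructor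
    · rintro (h1 | h1)
      · exact Or.inl h1
      · exact Or.inr (key hω' hω (fun j hj => (h j hj).symm) h1)
    · rintro (h1 | h1)
      · exact Or.inl h1
      · exact Or.inr (key hω hω' h h1)
  · rw [env_α hω' hu', env_α hω hu, h u le_rfl]

end

/-- The path crosses `K` after the time `u`. -/
def Crs2 (Z : DEnv) (K : Finset (ℤ × ℤ)) (r1 r2 : ℤ) (x : ℤ × ℤ) (ω : Finset (ℤ × ℤ)) (u : ℕ) :
    Prop :=
  ∃ a n, u ≤ a ∧ a < n ∧ n ≤ Z.len ω ∧ Near r1 x (vx (Z.cor ω a)) ∧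
    ¬ Near r2 x (vx (Z.cor ω n)) ∧ ∀ k, a < k → k < n → Z.cor ω k ∈ K

/-- The class `K` is cut off at a time before the exit of the ball of radius `R`, and crossed
afterwards. -/
def EvK (Z : DEnv) (b : Bool) (K : Finset (ℤ × ℤ)) (R r r1 r2 : ℤ) (x : ℤ × ℤ)
    (ω : Finset (ℤ × ℤ)) : Prop :=
  ∃ hω : ω ⊆ Z.E, ∃ u ≤ Z.len ω, (∀ j ≤ u, Near R x (vx (Z.cor ω j))) ∧
    Cut b (env Z ω hω u) r (· ∈ K) ∧ Crs2 Z K r1 r2 x ω u

/-- stop when the class `K` is cut off -/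
def QK (Z : DEnv) (b : Bool) (K : Finset (ℤ × ℤ)) (R r : ℤ) (x : ℤ × ℤ) :
    ℕ → (ℕ → ℤ × ℤ) → Prop := fun i z =>
  ∃ (ω' : Finset (ℤ × ℤ)) (hω' : ω' ⊆ Z.E), i ≤ Z.len ω' ∧ (∀ j ≤ i, Z.cor ω' j = z j) ∧
    (∀ j ≤ i, Near R x (vx (z j))) ∧ Cut b (env Z ω' hω' i) r (· ∈ K)

lemma adapted_QK (Z : DEnv) (b : Bool) (K : Finset (ℤ × ℤ)) (R r : ℤ) (x : ℤ × ℤ) :
    Adapted (QK Z b K R r x) := by
  have key : ∀ i (z z' : ℕ → ℤ × ℤ), (∀ j ≤ i, z j = z' j) → QK Z b K R r x i z →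
      QK Z b K R r x i z' := by
    rintro i z z' h ⟨ω', hω', h1, h2, h3, h4⟩
    exact ⟨ω', hω', h1, fun j hj => by rw [h2 j hj, h j hj],
      fun j hj => by rw [← h j hj]; exact h3 j hj, h4⟩
  intro i z z' h
  exact ⟨key i z z' h, key i z' z fun j hj => (h j hj).symm⟩

/-- **One class.** -/
theorem evK_prob {δ : ℝ} {q : ℤ × ℤ → ℝ} {N : ℤ} (hD : Dec q δ N) {Z : DEnv}
    (hE : ∀ e ∈ Z.E, (e.1 + e.2) % 2 = 1) (b : Bool) {K : Finset (ℤ × ℤ)} {x : ℤ × ℤ}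
    {R r r1 r2 : ℤ} {k : ℕ} (hr : 0 ≤ r) (hN : 4 ^ k * (r + 2) ≤ N)
    (hs1 : 4 ^ k * (r + 2) + 1 + R ≤ r1) (h12 : r1 < r2) (hK : ∀ c ∈ K, ¬ Near r1 x (vx c)) :
    PrP q Z.E (EvK Z b K R r r1 r2 x) ≤
      (1 - δ) ^ k * PrP q (Lab K ∩ Z.E) (XK b (Lab K ∩ Z.E) r1 r2 x) := by
  classical
  set Q := QK Z b K R r x with hQdef
  have hQ : Adapted Q := adapted_QK Z b K R r x
  set B : Finset (ℤ × ℤ) → Prop := fun ω => Q (Z.tau Q ω) (Z.cor ω) with hB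
  set A : Finset (ℤ × ℤ) → Prop := fun ω => Crs2 Z K r1 r2 x ω (Z.tau Q ω) with hA
  set c := (1 - δ) ^ k * PrP q (Lab K ∩ Z.E) (XK b (Lab K ∩ Z.E) r1 r2 x) with hc
  have hc0 : 0 ≤ c := mul_nonneg (pow_nonneg (by linarith [hD.2.2.1]) k) (PrP_nonneg hD.1 _ _)
  have h4k : (1 : ℤ) ≤ 4 ^ k := one_le_pow₀ (by norm_num)
  have hrs : r ≤ 4 ^ k * (r + 2) := by nlinarith
  -- the event is contained in `A ∧ B`
  have h1 : PrP q Z.E (EvK Z b K R r r1 r2 x) ≤ PrP q Z.E (fun ω => A ω ∧ B ω) := by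
    refine PrP_mono hD.1 fun ω hω h => ?_
    obtain ⟨hω', u, hu, hnear, hcut, a, n, hua, han, hn, ha, hfar, hpc⟩ := h
    have hQu : Q u (Z.cor ω) := ⟨ω, hω', hu, fun j _ => rfl, hnear, hcut⟩
    have hτ : Z.tau Q ω ≤ u := Nat.sInf_le (Or.inl hQu)
    refine ⟨⟨a, n, hτ.trans hua, han, hn, ha, hfar, hpc⟩, ?_⟩
    rcases Z.tau_spec (Q := Q) hω with h2 | h2
    · exact h2
    · exact absurd h2 (Z.cor_ne (by omega))
  refine h1.trans ?_
  refine (Z.markov_le hD.1 hQ A B (fun ω η => ∀ hω : ω ⊆ Z.E,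
      Arm (vx (Z.cor ω (Z.tau Q ω))) (r + 2) (4 ^ k * (r + 2))
        (side b ((Z.E \ Z.exset Q ω) \ Lab K) η) ∧ XK b (Lab K ∩ Z.E) r1 r2 x η) c ?_ ?_ ?_).trans ?_
  · -- `B` is explored
    intro ω ω' hω hω' h2
    obtain ⟨e1, e2⟩ := Z.tau_mix hQ hω hω'
    have h3 : Q (Z.tau Q (mix (Z.exset Q ω) ω ω')) (Z.cor (mix (Z.exset Q ω) ω ω')) := h2
    rw [e1] at h3
    exact (hQ _ _ _ e2).1 h3
  · -- conditional probability
    intro ω hω hBω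
    obtain ⟨ω1, hω1, b1, b2, b3, b4⟩ := hBω
    have hsub : Lab K ∩ Z.E ⊆ Z.E \ Z.exset Q ω := by
      intro e he
      rw [mem_inter] at he
      rw [mem_sdiff]
      refine ⟨he.2, fun h3 => ?_⟩
      obtain ⟨-, j, hj, h4⟩ := Z.mem_exset.1 h3
      obtain ⟨c', hc', h5⟩ := mem_Lab.1 he.1
      have h6 := near_of_plab (h5.trans h4.symm)
      have h7 := b3 j hj.le
      refine hK c' hc' ((near_trans h7 h6).mono ?_)
      nlinarith
    have hE1 : (Z.E \ Z.exset Q ω) \ Lab K ⊆ Z.E \ Z.exset Q ω := sdiff_subset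
    have hdis : Disjoint ((Z.E \ Z.exset Q ω) \ Lab K) (Lab K ∩ Z.E) := by
      rw [disjoint_left]
      intro e h3 h4
      exact (mem_sdiff.1 h3).2 (mem_inter.1 h4).1
    have h3 : PrP q (Z.E \ Z.exset Q ω) (fun η => ∀ hω : ω ⊆ Z.E,
        Arm (vx (Z.cor ω (Z.tau Q ω))) (r + 2) (4 ^ k * (r + 2))
          (side b ((Z.E \ Z.exset Q ω) \ Lab K) η) ∧ XK b (Lab K ∩ Z.E) r1 r2 x η) =
        PrP q (Z.E \ Z.exset Q ω) (fun η =>
          (fun η => Arm (vx (Z.cor ω (Z.tau Q ω))) (r + 2) (4 ^ k * (r + 2))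
            (side b ((Z.E \ Z.exset Q ω) \ Lab K) η)) (η ∩ ((Z.E \ Z.exset Q ω) \ Lab K)) ∧
          (XK b (Lab K ∩ Z.E) r1 r2 x) (η ∩ (Lab K ∩ Z.E))) := by
      refine PrP_congr fun η _ => ?_
      simp only [XK]
      rw [side_inter b (subset_refl _), side_inter b (subset_refl _)]
      exact ⟨fun h => h hω, fun h _ => h⟩
    rw [h3, PrP_indep q hE1 hsub hdis
      (fun η => Arm (vx (Z.cor ω (Z.tau Q ω))) (r + 2) (4 ^ k * (r + 2))
            (side b ((Z.E \ Z.exset Q ω) \ Lab K) η)) (XK b (Lab K ∩ Z.E) r1 r2 x)]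
    refine mul_le_mul_of_nonneg_right ?_ (PrP_nonneg hD.1 _ _)
    have h4 := hD.2.2.2 ((Z.E \ Z.exset Q ω) \ Lab K)
      (fun e he => hE e (mem_sdiff.1 (mem_sdiff.1 he).1).1) (vx (Z.cor ω (Z.tau Q ω))) (r + 2)
      (by omega) k hN
    cases b with
    | true => exact h4.2
    | false =>
      refine le_trans (le_of_eq (PrP_congr fun η hη => ?_)) h4.1
      have : side false ((Z.E \ Z.exset Q ω) \ Lab K) η = η := inter_eq_left.2 hη
      rw [this]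
  · -- inclusion
    intro ω ω' hω hω' hBω hAω _
    obtain ⟨ω1, hω1, b1, b2, b3, b4⟩ := hBω
    obtain ⟨e1, e2⟩ := Z.tau_mix hQ hω hω'
    have hτl := Z.tau_le_len (Q := Q) hω
    have hAω' : Crs2 Z K r1 r2 x (mix (Z.exset Q ω) ω ω') (Z.tau Q (mix (Z.exset Q ω) ω ω')) := hAω
    rw [e1] at hAω'
    obtain ⟨a, n, hτa, han, hn, ha, hfar, hpc⟩ := hAω'
    set Y := env Z ω hω (Z.tau Q ω) with hY
    have hYa : Z.after Q hQ ω hω = Y := after_eq_env hQ hω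
    have hYE : Y.E = Z.E \ Z.exset Q ω := by rw [← hYa]; rfl
    have hYc : ∀ i, Y.cor (ω' \ Z.exset Q ω) i = Z.cor (mix (Z.exset Q ω) ω ω') (i + Z.tau Q ω) := by
      intro i
      rw [← hYa]
      exact Z.after_cor hQ hω hω' i
    have hYl : Y.len (ω' \ Z.exset Q ω) + Z.tau Q ω = Z.len (mix (Z.exset Q ω) ω ω') := by
      rw [← hYa]
      exact Z.after_len hQ hω hω'
    have hYα : Y.α = Z.cor ω (Z.tau Q ω) := env_α hω hτl
    have henv : env Z ω1 hω1 (Z.tau Q ω) = Y := env_congr hω hω1 hτl b1 b2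
    rw [henv] at b4
    have hres := crossing (Y := Y) (b := b) (K := K) (x := x) (R := R) (r := r)
      (s := 4 ^ k * (r + 2)) (r1 := r1) (r2 := r2) hr hrs (by rw [hYα]; exact b3 _ le_rfl) hs1 h12
      hK b4 (η := ω' \ Z.exset Q ω) (by rw [hYE]; exact sdiff_subset_sdiff hω' (subset_refl _))
      (a := a - Z.tau Q ω) (n := n - Z.tau Q ω) (by omega) (by omega)
      (by rw [hYc, Nat.sub_add_cancel hτa]; exact ha)
      (by rw [hYc, Nat.sub_add_cancel (by omega)]; exact hfar)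
      (fun j hj hj' => by
        rw [hYc]
        exact hpc _ (by omega) (by omega))
      (F := Lab K ∩ Z.E) (fun e he he' => by
        rw [mem_inter]
        refine ⟨he, ?_⟩
        rw [hYE] at he'
        exact (mem_sdiff.1 he').1)
    rw [hYα, hYE] at hres
    exact hres
  · have := PrP_le_one hD.1 Z.E B
    nlinarith

/-- **All classes.** -/
theorem cut_prob {δ : ℝ} {q : ℤ × ℤ → ℝ} {N : ℤ} (hD : Dec q δ N) {Z : DEnv}
    (hE : ∀ e ∈ Z.E, (e.1 + e.2) % 2 = 1) (b : Bool) {x : ℤ × ℤ}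
    {R r r1 r2 : ℤ} {k : ℕ} (hr : 0 ≤ r) (hr1 : 0 ≤ r1) (hN : 4 ^ k * (r + 2) ≤ N)
    (hN1 : 4 * (r1 + 2) ≤ N) (hs1 : 4 ^ k * (r + 2) + 1 + R ≤ r1) (h12 : 4 * (r1 + 2) + 1 ≤ r2) :
    PrP q Z.E (fun ω => ∃ K ∈ Cls Z r1 r2 x, EvK Z b K R r r1 r2 x ω) ≤
      (1 - δ) ^ k * Real.log (1 / δ) := by
  refine (PrP_exists_le hD.1 Z.E (Cls Z r1 r2 x) _).trans ?_
  have h1 : ∀ K ∈ Cls Z r1 r2 x, PrP q Z.E (EvK Z b K R r r1 r2 x) ≤
      (1 - δ) ^ k * PrP q (Lab K ∩ Z.E) (XK b (Lab K ∩ Z.E) r1 r2 x) := by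
    intro K hK
    refine evK_prob hD hE b hr hN hs1 (by omega) ?_
    intro c hc
    obtain ⟨d, -, rfl⟩ := mem_Cls.1 hK
    exact (mem_cls.1 hc).1.1
  refine (sum_le_sum h1).trans ?_
  rw [← mul_sum]
  exact mul_le_mul_of_nonneg_left (sum_XK hD hE b x hr1 hN1 h12)
    (pow_nonneg (by linarith [hD.2.2.1]) k)

end Pool.Agent.H43.Q1
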