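import Mathlib
import Pool.Agent.H43.Q1.Prob

set_option autoImplicit false
open Finset

/-! # Small gates are close to the tip or were closed in before

`EvA` : some class of the annulus around the tip is cut off and crossed afterwards. `BadM` : the same
at the `i`-th macroscopic time. `gate_loc` : if no `BadM` occurs then for every small gate of which
not both ends are original, the tip is close to the gate and, as long as the gate is not met, the path
meets only one type of boundary away from the gate. -/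

namespace Pool.Agent.H43.Q1

open Pool.Agent.H75.Perc Pool.Agent.H75.TwoArm Pool.Agent.H75.Four Pool.Agent.H99.NC
open Pool.Agent.H69.Q1 Pool.Agent.H39.Q1 Pool.Agent.H28.Q1 Pool.Agent.H65.Dom
open Pool.Agent.H69.Q1.DEnv (steps adapted_steps Adapted)
open Pool.Agent.H75.TwoArm.SymmAux (pvO pvC pv_eq)

/-- Some class of the annulus around the tip is cut off and crossed afterwards. -/
def EvA (Z : DEnv) (R r r1 r2 : ℤ) (ω : Finset (ℤ × ℤ)) : Prop :=
  ∃ b : Bool, ∃ K ∈ Cls Z r1 r2 (vx Z.α), EvK Z b K R r r1 r2 (vx Z.α) ω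

theorem evA_prob {δ : ℝ} {q : ℤ × ℤ → ℝ} {N : ℤ} (hD : Dec q δ N) {Z : DEnv}
    (hE : ∀ e ∈ Z.E, (e.1 + e.2) % 2 = 1) {R r r1 r2 : ℤ} {k : ℕ} (hr : 0 ≤ r) (hr1 : 0 ≤ r1)
    (hN : 4 ^ k * (r + 2) ≤ N) (hN1 : 4 * (r1 + 2) ≤ N) (hs1 : 4 ^ k * (r + 2) + 1 + R ≤ r1)
    (h12 : 4 * (r1 + 2) + 1 ≤ r2) :
    PrP q Z.E (EvA Z R r r1 r2) ≤ 2 * ((1 - δ) ^ k * Real.log (1 / δ)) := by
  have h1 := cut_prob hD hE true (x := vx Z.α) hr hr1 hN hN1 hs1 h12
  have h2 := cut_prob hD hE false (x := vx Z.α) hr hr1 hN hN1 hs1 h12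
  refine (PrP_mono hD.1 fun ω _ h => ?_).trans ((PrP_or_le hD.1 Z.E
    (fun ω => ∃ K ∈ Cls Z r1 r2 (vx Z.α), EvK Z true K R r r1 r2 (vx Z.α) ω)
    (fun ω => ∃ K ∈ Cls Z r1 r2 (vx Z.α), EvK Z false K R r r1 r2 (vx Z.α) ω)).trans
    (by linarith))
  obtain ⟨b, h⟩ := h
  cases b with
  | true => exact Or.inl h
  | false => exact Or.inr h

/-- The event at the `i`-th macroscopic time. -/
def BadM (X : DEnv) (R r r1 r2 : ℤ) (i : ℕ) (ω : Finset (ℤ × ℤ)) : Prop :=
  ∃ hω : ω ⊆ X.E, EvA (env X ω hω (X.tau (fun t z => Mac R i t z) ω)) R r r1 r2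
    (ω \ X.exset (steps (X.tau (fun t z => Mac R i t z) ω)) ω)

theorem badM_prob {δ : ℝ} {q : ℤ × ℤ → ℝ} {N : ℤ} (hD : Dec q δ N) {X : DEnv}
    (hE : ∀ e ∈ X.E, (e.1 + e.2) % 2 = 1) {R r r1 r2 : ℤ} {k : ℕ} (hr : 0 ≤ r) (hr1 : 0 ≤ r1)
    (hN : 4 ^ k * (r + 2) ≤ N) (hN1 : 4 * (r1 + 2) ≤ N) (hs1 : 4 ^ k * (r + 2) + 1 + R ≤ r1)
    (h12 : 4 * (r1 + 2) + 1 ≤ r2) (i : ℕ) :
    PrP q X.E (BadM X R r r1 r2 i) ≤ 2 * ((1 - δ) ^ k * Real.log (1 / δ)) := by
  classical
  set Q : ℕ → (ℕ → ℤ × ℤ) → Prop := fun t z => Mac R i t z with hQd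
  have hQ : Adapted Q := adapted_mac R i
  set c := 2 * ((1 - δ) ^ k * Real.log (1 / δ)) with hc
  have hc0 : 0 ≤ c := by
    have h1 : 0 ≤ (1 - δ) ^ k := pow_nonneg (by linarith [hD.2.2.1]) k
    have h2 : 0 ≤ Real.log (1 / δ) := Real.log_nonneg (by
      rw [one_div]; exact (one_le_inv₀ hD.2.1).2 hD.2.2.1.le)
    positivity
  have h1 : PrP q X.E (BadM X R r r1 r2 i) ≤
      PrP q X.E (fun ω => BadM X R r r1 r2 i ω ∧ True) := PrP_mono hD.1 fun ω _ h => ⟨h, trivial⟩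
  refine h1.trans ?_
  refine (X.markov_le hD.1 hQ (BadM X R r r1 r2 i) (fun _ => True)
    (fun ω η => ∀ hω : ω ⊆ X.E, EvA (X.after Q hQ ω hω) R r r1 r2 η) c
    (fun _ _ _ _ _ => trivial) ?_ ?_).trans ?_
  · intro ω hω _
    have h2 := evA_prob hD (Z := X.after Q hQ ω hω) (R := R) (r := r) (r1 := r1) (r2 := r2) (k := k)
      (fun e he => hE e (mem_sdiff.1 he).1) hr hr1 hN hN1 hs1 h12
    exact (PrP_mono hD.1 fun η _ h => h hω).trans h2
  · intro ω ω' hω hω' _ hA hω2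
    obtain ⟨hm, hA⟩ := hA
    obtain ⟨e1, e2⟩ := X.tau_mix hQ hω hω'
    have hτl := X.tau_le_len (Q := Q) hω
    have hτl' := X.tau_le_len (Q := Q) hm
    rw [e1] at hτl'
    have h2 : X.tau (fun t z => Mac R i t z) (mix (X.exset Q ω) ω ω') = X.tau Q ω := e1
    rw [h2] at hA
    have h3 : env X (mix (X.exset Q ω) ω ω') hm (X.tau Q ω) = X.after Q hQ ω hω2 := by
      rw [after_eq_env hQ hω2]
      exact env_congr hω hm hτl hτl' e2
    rw [h3] at hA
    have h4 : mix (X.exset Q ω) ω ω' \ X.exset (steps (X.tau Q ω)) (mix (X.exset Q ω) ω ω') =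
        ω' \ X.exset Q ω := by
      have h5 : X.exset (steps (X.tau Q ω)) (mix (X.exset Q ω) ω ω') =
          X.exset Q (mix (X.exset Q ω) ω ω') :=
        exset_eq (by rw [tau_steps X hm hτl', e1])
      rw [h5, X.exset_mix hQ hω hω']
      ext e
      rw [mem_sdiff, mem_sdiff, mem_mix]
      tauto
    rw [h4] at hA
    exact hA
  · have := PrP_le_one hD.1 X.E (fun _ => True)
    nlinarith

/-- Union over the macroscopic times. -/
theorem badM_union {δ : ℝ} {q : ℤ × ℤ → ℝ} {N : ℤ} (hD : Dec q δ N) {X : DEnv}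
    (hE : ∀ e ∈ X.E, (e.1 + e.2) % 2 = 1) {R r r1 r2 : ℤ} {k : ℕ} (hr : 0 ≤ r) (hr1 : 0 ≤ r1)
    (hN : 4 ^ k * (r + 2) ≤ N) (hN1 : 4 * (r1 + 2) ≤ N) (hs1 : 4 ^ k * (r + 2) + 1 + R ≤ r1)
    (h12 : 4 * (r1 + 2) + 1 ≤ r2) (m : ℕ) :
    PrP q X.E (fun ω => ∃ i ≤ m, BadM X R r r1 r2 i ω) ≤
      (m + 1) * (2 * ((1 - δ) ^ k * Real.log (1 / δ))) := by
  have h1 := PrP_exists_le hD.1 X.E (range (m + 1)) (fun i => BadM X R r r1 r2 i)
  have h2 : ∑ i ∈ range (m + 1), PrP q X.E (BadM X R r r1 r2 i) ≤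
      ∑ _i ∈ range (m + 1), 2 * ((1 - δ) ^ k * Real.log (1 / δ)) :=
    sum_le_sum fun i _ => badM_prob hD hE hr hr1 hN hN1 hs1 h12 i
  rw [sum_const, card_range, nsmul_eq_mul] at h2
  push_cast at h2
  refine le_trans (PrP_mono hD.1 fun ω _ h => ?_) (h1.trans h2)
  obtain ⟨i, hi, h⟩ := h
  exact ⟨i, mem_range.2 (by omega), h⟩

/-- The labels of the gate are near `p`. -/
def Small (P : Finset (ℤ × ℤ)) (κ : ℤ) (p : ℤ × ℤ) : Prop := ∀ c, plab c ∈ P → Near κ p (vx c)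

lemma Small.near {P : Finset (ℤ × ℤ)} {κ : ℤ} {p g : ℤ × ℤ} (h : Small P κ p)
    (hg : lab g ∈ P ∨ plab g ∈ P) : Near κ p (vx g) := by
  rcases hg with h1 | h1
  · rw [← plab_iterC3] at h1
    have := h _ h1
    rwa [vx_iterC] at this
  · exact h _ h1

/-- As long as `P` and `S` are not met, after the time `t` the path meets labels of the type `b` only
within distance `D` of `p`. -/
def Loc (X : DEnv) (ω : Finset (ℤ × ℤ)) (hω : ω ⊆ X.E) (t : ℕ) (P S : Finset (ℤ × ℤ))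
    (D : ℤ) (p : ℤ × ℤ) (b : Bool) : Prop :=
  ∀ η, η ⊆ (env X ω hω t).E → ∀ i < (env X ω hω t).len η,
    (∀ k < i, plab ((env X ω hω t).cor η k) ∉ P) →
    (∀ k ≤ i, plab ((env X ω hω t).cor η k) ∉ S) →
    bad b (env X ω hω t) (plab ((env X ω hω t).cor η i)) →
    Near D p (vx ((env X ω hω t).cor η i))

lemma born_of {X : DEnv} {ω : Finset (ℤ × ℤ)} (hω : ω ⊆ X.E) {u : ℕ} (hu : u ≤ X.len ω)
    {g g' : ℤ × ℤ}
    (h : (Co (env X ω hω u).W (vx X.β) (vx g) ∧ fi g' = fi (X.cor ω u) ∧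
          ∀ i < 3, plab (pvO^[i] (X.cor ω u)) ∈ (env X ω hω u).E ∪ (env X ω hω u).W) ∨
        (ClJ (env X ω hω u) (fi (X.cor ω u)) (fi g') ∧ vx g = vx (X.cor ω u) ∧
          ∀ i < 3, plab (pvC^[i] (X.cor ω u)) ∉ (env X ω hω u).W)) :
    ∃ b, Born b (env X ω hω u) g g' := by
  rcases h with h | h
  · refine ⟨true, ?_⟩
    change Co _ _ _ ∧ _ ∧ _
    rw [env_α hω hu]
    exact h
  · refine ⟨false, ?_⟩
    change ClJ _ _ _ ∧ _ ∧ _
    rw [env_α hω hu]
    exact h

/-- the gate is near the tip at its birth -/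
lemma born_near {Y : DEnv} {b : Bool} {g g' p : ℤ × ℤ} {κ : ℤ}
    (hb : Born b Y g g') (hg : Near κ p (vx g)) (hg' : Near κ p (vx g')) :
    Near (κ + 1) p (vx Y.α) := by
  cases b with
  | true =>
    have h1 := near_of_fi hb.2.1
    exact near_trans hg' (near_symm h1)
  | false =>
    have h1 := hb.2.1
    rw [h1] at hg
    exact hg.mono (by omega)

/-- **If the path leaves the neighbourhood of a gate after its birth then a class is cut off and
crossed.** -/
theorem evA_of_far {Z : DEnv} (hI : Inv Z) {ω : Finset (ℤ × ℤ)} (hω : ω ⊆ Z.E) {u t : ℕ}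
    (hut : u ≤ t) (ht : t ≤ Z.len ω) {P S : Finset (ℤ × ℤ)} {g g' : ℤ × ℤ}
    (hP : P ⊆ (env Z ω hω t).E) (hPt : plab (Z.cor ω t) ∉ P)
    (hSt : ∀ k ≤ t, plab (Z.cor ω k) ∉ S)
    (hprim : Co (P ∪ Z.W) (vx g) (vx g')) (hdual : Co (P.map sh1) (fi g) (fi g'))
    (hfr : lab g ∈ P ∨ plab g ∈ P ∨ plab g ∈ S)
    (hfr' : lab g' ∈ P ∨ plab g' ∈ P ∨ plab g' ∈ S) {b : Bool}
    (hb : Born b (env Z ω hω u) g g') {R r r1 r2 : ℤ} (hr : 2 ≤ r)
    (hPr : ∀ c, plab c ∈ P → Near r (vx (Z.cor ω u)) (vx c))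
    (hR : ∀ j ≤ u, Near R (vx Z.α) (vx (Z.cor ω j))) (hr1 : R + r + 1 ≤ r1) (h12 : r1 < r2)
    {v : ℕ} (huv : u ≤ v) (hvt : v ≤ t) (hfar : ¬ Near r2 (vx Z.α) (vx (Z.cor ω v))) :
    EvA Z R r r1 r2 ω := by
  classical
  set x := vx Z.α with hx
  have hu : u ≤ Z.len ω := hut.trans ht
  -- exit
  have hex : ∃ n, u ≤ n ∧ n ≤ t ∧ ¬ Near r2 x (vx (Z.cor ω n)) := ⟨v, huv, hvt, hfar⟩
  obtain ⟨n, ⟨hn1, hn2, hn3⟩, hmin0⟩ : ∃ n, (u ≤ n ∧ n ≤ t ∧ ¬ Near r2 x (vx (Z.cor ω n))) ∧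
      ∀ j < n, ¬ (u ≤ j ∧ j ≤ t ∧ ¬ Near r2 x (vx (Z.cor ω j))) :=
    ⟨Nat.find hex, Nat.find_spec hex, fun j hj => Nat.find_min hex hj⟩
  have hmin : ∀ j, u ≤ j → j < n → Near r2 x (vx (Z.cor ω j)) := by
    intro j hj hj'
    by_contra hcon
    exact hmin0 j hj' ⟨hj, by omega, hcon⟩
  -- last visit of the inner ball
  set S := (range n).filter fun j => Near r1 x (vx (Z.cor ω j)) with hS
  have hun : u < n := by
    refine lt_of_le_of_ne hn1 fun h => hn3 ?_
    rw [← h]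
    exact (hR u le_rfl).mono (by omega)
  have huS : u ∈ S := by
    rw [hS, mem_filter, mem_range]
    exact ⟨hun, (hR u le_rfl).mono (by omega)⟩
  obtain ⟨a, haS, hmax⟩ := S.exists_max_image id ⟨u, huS⟩
  have hua : u ≤ a := hmax u huS
  rw [hS, mem_filter, mem_range] at haS
  have hIn : ∀ k, a < k → k < n → InA r1 r2 x (Z.cor ω k) := by
    intro k h1 h2
    refine ⟨fun h3 => ?_, hmin k (by omega) h2⟩
    have := hmax k (by rw [hS, mem_filter, mem_range]; exact ⟨h2, h3⟩)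
    simp only [id] at this
    omega
  have ha1 : a + 1 < n := by
    rcases Nat.lt_or_ge (a + 1) n with h | h
    · exact h
    · exfalso
      have h1 : n = a + 1 := by omega
      rw [h1] at hn3
      exact hn3 ((near_step hω haS.2).mono (by omega))
  set K := cls Z r1 r2 x (Z.cor ω (a + 1)) with hK
  have hKc : K ∈ Cls Z r1 r2 x := mem_Cls.2 ⟨_, hIn (a + 1) (by omega) ha1, rfl⟩
  refine ⟨b, K, hKc, hω, u, hu, hR, ?_, a, n, hua, haS.1, hn2.trans ht, haS.2, hn3, ?_⟩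
  swap
  · intro k h1 h2
    rw [hK, mem_cls]
    refine ⟨hIn k h1 h2, ?_⟩
    exact conn_piece hω (a := a + 1) (b := n - 1) (fun j hj hj' => hIn j (by omega) (by omega)) k
      (by omega) (by omega)
  -- cut off
  set Y := env Z ω hω u with hY
  have hYα : Y.α = Z.cor ω u := env_α hω hu
  have hPZ : P ⊆ Z.E := fun e he => ((mem_env_E hω ht).1 (hP he)).1
  have hPmet : ∀ k < t, plab (Z.cor ω k) ∉ P := fun k hk h =>
    ((mem_env_E hω ht).1 (hP h)).2 k hk rfl
  have hPY : P ⊆ Y.E := fun e he => by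
    rw [hY, mem_env_E hω hu]
    exact ⟨hPZ he, fun k hk => ((mem_env_E hω ht).1 (hP he)).2 k (by omega)⟩
  have hv1 := unvisited hI (t := t) hPZ hPmet hfr hPt hSt
  have hv2 := unvisited hI (t := t) hPZ hPmet hfr' hPt hSt
  have hWZ : Z.W ⊆ Y.W := fun e he => (mem_env_W hω hu).2 (Or.inl he)
  obtain ⟨h, h0, d1, d2, d3⟩ := pocket_data (Y := Y) (hI.after (adapted_steps _) hω) b hPY
    (hprim.mono (union_subset_union_right hWZ)) hdual hb hr (by rw [hYα]; exact hPr) (ω := ω \ Z.exset (steps u) ω) (rest_sub hω)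
    (t := t - u)
    (fun k hk => by rw [hY, env_cor hω hu]; exact hPmet _ (by omega))
    (fun k hk => by
      rw [hY, env_cor hω hu]
      exact ⟨hv1 _ (by omega), hv2 _ (by omega)⟩)
  rw [hYα] at d1 d3
  have hfarIn : ∀ c, InA r1 r2 x c → ¬ Near r (vx (Z.cor ω u)) (vx c) := by
    intro c hc h1
    exact hc.1 ((near_trans (hR u le_rfl) h1).mono (by omega))
  refine cut_of (h := h) (h0 := h0) (by rw [hYα]; exact d1) d2 ?_
  intro c hc
  rw [hK, mem_cls] at hc
  have hconst : ∀ c c', Rl Z r1 r2 x c c' → h c' = h c := by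
    intro c c' hr
    obtain ⟨a1, -, a3⟩ := hr
    refine d1 c c' (hfarIn c a1) ?_
    have hunmet : ∀ k < u, plab (Z.cor ω k) ≠ plab c := by
      intro k hk h1
      exact a1.1 ((near_trans (hR k hk.le) (near_of_plab h1.symm)).mono (by omega))
    rcases a3 with ⟨a3, a4⟩ | ⟨a3, a4⟩
    · left
      refine ⟨?_, a4⟩
      rw [mem_union] at a3
      rw [hY, mem_union, mem_env_E hω hu, mem_env_W hω hu]
      rcases a3 with a3 | a3
      · exact Or.inl ⟨a3, hunmet⟩
      · exact Or.inr (Or.inl a3)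
    · right
      refine ⟨?_, a4⟩
      rw [hY, mem_env_W hω hu]
      rintro (a5 | ⟨-, k, hk, a5⟩)
      · exact a3 a5
      · exact hunmet k hk a5
  rw [conn_const hconst hc.2]
  have h1 := d3 (a + 1 - u) (by omega)
  rw [hY, env_cor hω hu, Nat.sub_add_cancel (by omega)] at h1
  exact h1.resolve_left (hfarIn _ (hIn (a + 1) (by omega) ha1))

lemma tau_mac {X : DEnv} {ω : Finset (ℤ × ℤ)} (hω : ω ⊆ X.E) {R : ℤ} {i s : ℕ}
    (hs : Mac R i s (X.cor ω)) (hsl : s ≤ X.len ω) : X.tau (fun t z => Mac R i t z) ω = s := by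
  have h1 : X.tau (fun t z => Mac R i t z) ω ≤ s := Nat.sInf_le (Or.inl hs)
  rcases X.tau_spec (Q := fun t z => Mac R i t z) hω with h2 | h2
  · exact mac_unique i h2 hs
  · rcases Nat.lt_or_ge (X.tau (fun t z => Mac R i t z) ω) s with h3 | h3
    · exact absurd h2 (X.cor_ne (by omega))
    · omega

/-- the gate and its labels at a later time, seen from an intermediate environment -/
lemma env_env' {X : DEnv} {ω : Finset (ℤ × ℤ)} (hω : ω ⊆ X.E) {s u : ℕ} (hsu : s ≤ u)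
    (hu : u ≤ X.len ω) :
    env (env X ω hω s) (ω \ X.exset (steps s) ω) (rest_sub hω) (u - s) = env X ω hω u := by
  have h := env_env hω (u := s) (v := u - s) (by omega)
  rw [Nat.sub_add_cancel hsu] at h
  exact h

/-- **E3.** If there are at most `m` macroscopic times up to `t` and no `BadM` occurs then for every
small gate at time `t`, not both ends of which are original and which is not met at time `t`, the tip
is close to the gate, and as long as the gate is not met the path meets the labels of one type only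
close to the gate. -/
theorem gate_loc {X : DEnv} (hI : Inv X) {ω : Finset (ℤ × ℤ)} (hω : ω ⊆ X.E) {t : ℕ}
    (ht : t ≤ X.len ω) {P S : Finset (ℤ × ℤ)} {g g' : ℤ × ℤ}
    (hG : Gate X.W S (env X ω hω t) P g g') (hPt : plab (X.cor ω t) ∉ P)
    (hSt : ∀ k ≤ t, plab (X.cor ω k) ∉ S) {κ : ℤ} {p : ℤ × ℤ} (hκ : 0 ≤ κ) (hs : Small P κ p)
    (hg : Near κ p (vx g)) (hg' : Near κ p (vx g')) (hno : ¬ (Co X.W (vx X.β) (vx g) ∧ ClJ X (fi X.α) (fi g'))) {R r1 r2 : ℤ} (hR : 0 < R)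
    (hr1 : R + (2 * κ + 2) + 1 ≤ r1) (h12 : r1 < r2) {m : ℕ}
    (hm : ∀ i s, s ≤ t → Mac R i s (X.cor ω) → i ≤ m)
    (hbad : ∀ i ≤ m, ¬ BadM X R (2 * κ + 2) r1 r2 i ω) :
    Near (r2 + R + κ + 2) p (vx (X.cor ω t)) ∧
      ∃ b, Loc X ω hω t P S (r2 + R + κ + 2) p b := by
  rcases gate_birth hω hI ht hG with h | ⟨u, hu0, hut, hborn⟩
  · exact absurd h hno
  have hul : u ≤ X.len ω := hut.trans ht
  obtain ⟨b, hb⟩ := born_of hω hul hborn
  have hnear := born_near hb hg hg'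
  rw [env_α hω hul] at hnear
  obtain ⟨i, s, hsu, hmac, hin⟩ := mac_last hR (X.cor ω) u
  have him : i ≤ m := hm i s (by omega) hmac
  have hsl : s ≤ X.len ω := by omega
  have hnb := hbad i him
  have hR' : ∀ v, s ≤ v → v ≤ u → Near R (vx (X.cor ω s)) (vx (X.cor ω v)) := by
    intro v h1 h2
    have h3 := hin v h1 h2
    rw [show R = (R - 1) + 1 by ring, ← not_near, not_not] at h3
    exact h3.mono (by omega)
  have hPu : ∀ c, plab c ∈ P → Near (2 * κ + 2) (vx (X.cor ω u)) (vx c) := by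
    intro c hc
    exact (near_trans (near_symm hnear) (hs c hc)).mono (by omega)
  have hZα : (env X ω hω s).α = X.cor ω s := env_α hω hsl
  have hlen := env_len hω hsl
  -- all times after the birth are near
  have hall : ∀ v, u ≤ v → v ≤ t → Near r2 (vx (X.cor ω s)) (vx (X.cor ω v)) := by
    intro v huv hvt
    by_contra hfar
    apply hnb
    refine ⟨hω, ?_⟩
    rw [tau_mac hω hmac hsl]
    refine evA_of_far (Z := env X ω hω s) (hI.after (adapted_steps _) hω) (rest_sub hω)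
      (u := u - s) (t := t - s) (by omega) (by omega) (P := P) (S := S) (g := g) (g' := g') ?_ ?_
      (fun k hk => by rw [env_cor hω hsl]; exact hSt _ (by omega))
      (hG.prim.mono (union_subset_union_right fun e he => (mem_env_W hω hsl).2 (Or.inl he)))
      hG.dual hG.fr hG.fr' (b := b) ?_ (by omega) ?_ ?_ (by omega) h12 (v := v - s) (by omega)
      (by omega) ?_
    · rw [env_env' hω (by omega) ht]
      exact hG.sub
    · rw [env_cor hω hsl, Nat.sub_add_cancel (by omega)]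
      exact hPt
    · rw [env_env' hω hsu hul]
      exact hb
    · rw [env_cor hω hsl, Nat.sub_add_cancel (by omega)]
      exact hPu
    · intro j hj
      rw [hZα, env_cor hω hsl]
      exact hR' _ (by omega) (by omega)
    · rw [hZα, env_cor hω hsl, Nat.sub_add_cancel (by omega)]
      exact hfar
  have hxp : Near (R + κ + 1) p (vx (X.cor ω s)) := by
    have h1 := near_trans hnear (near_symm (hR' u hsu le_rfl))
    exact h1.mono (by omega)
  refine ⟨(near_trans hxp (hall t hut le_rfl)).mono (by omega), b, ?_⟩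
  intro η hη j hj hav hSj hbd
  have hlu := env_len hω hul
  have hY : env (env X ω hω u) (ω \ X.exset (steps u) ω) (rest_sub hω) (t - u) = env X ω hω t :=
    env_env' hω hut ht
  have hmain := loc_of_born (X := env X ω hω u) (ω := ω \ X.exset (steps u) ω) (rest_sub hω)
    (u := t - u) (by omega) (hI.after (adapted_steps _) hω) (b := b) (P := P) (g := g) (g' := g')
    (by rw [hY]; exact hG.sub)
    (hG.prim.mono (union_subset_union_right fun e he => (mem_env_W hω hul).2 (Or.inl he)))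
    hG.dual hG.fr hG.fr' (fun k hk => by rw [env_cor hω hul]; exact hSt _ (by omega))
    hb (r := 2 * κ + 2) (by omega)
    (by rw [env_α hω hul]; exact hPu) (η := η) (by rw [hY]; exact hη) (i := j)
    (by rw [hY]; exact hj) (by rw [hY]; exact hav) (by rw [hY]; exact hSj)
    (by rw [hY]; exact hbd)
  rw [hY, env_α hω hul] at hmain
  rcases hmain with h1 | ⟨k, hk, h1⟩
  · exact (near_trans hnear h1).mono (by omega)
  · rw [env_cor hω hul] at h1
    have h2 := hall (k + u) (by omega) (by omega)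
    exact (near_trans (near_trans hxp h2) (near_of_plab h1.symm)).mono (by omega)

end Pool.Agent.H43.Q1
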