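import Mathlib
import Pool.Agent.H43.Q1.Birth
import Pool.Agent.H28.Q1.InvW
import Pool.Agent.Q1.M3.Defs

set_option autoImplicit false
open Finset

/-! # The contour of a solid set seen from the tip

`kp Y K` : the free or wired labels with both ends in `K`. `Ring Y K ζ i0` : the exploration in the
configuration `ζ` reaches `K` by its step `i0`, afterwards it follows the contour of `K` up to `β`.
`exists_ring`. -/

namespace Pool.Agent.H43.Q1

open Pool.Agent.H75.Perc Pool.Agent.H75.TwoArm Pool.Agent.H75.Four Pool.Agent.H99.NC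
open Pool.Agent.H69.Q1 Pool.Agent.H39.Q1 Pool.Agent.H28.Q1
open Pool.Agent.H69.Q1.DEnv (steps adapted_steps)
open Pool.Agent.H75.TwoArm.SymmAux (pvO pvC pv_eq)
open Pool.Agent.Q1.M3 (star kap mem_star_iff mem_kap_iff)

lemma plab_eu_ev (c : ℤ × ℤ) : (eu (plab c) = vx c ∧ ev (plab c) = vx (oc c)) ∨
    (ev (plab c) = vx c ∧ eu (plab c) = vx (oc c)) := by
  rcases ends_of_add (plab_ends c).1 (plab_ends c).2 with ⟨h1, h2⟩ | ⟨h1, h2⟩
  · exact Or.inl ⟨h1.symm, h2.symm⟩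
  · exact Or.inr ⟨h1.symm, h2.symm⟩

lemma mem_star_plab {K : Finset (ℤ × ℤ)} {c : ℤ × ℤ} :
    plab c ∈ star K ↔ vx c ∈ K ∨ vx (oc c) ∈ K := by
  rw [mem_star_iff (odd_plab c)]
  rcases plab_eu_ev c with ⟨h1, h2⟩ | ⟨h1, h2⟩ <;> rw [h1, h2]
  exact or_comm

lemma mem_kap_plab {K : Finset (ℤ × ℤ)} {c : ℤ × ℤ} :
    plab c ∈ kap K ↔ vx c ∈ K ∧ vx (oc c) ∈ K := by
  rw [mem_kap_iff (odd_plab c)]
  rcases plab_eu_ev c with ⟨h1, h2⟩ | ⟨h1, h2⟩ <;> rw [h1, h2]
  exact and_comm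

lemma kap_sub_star (K : Finset (ℤ × ℤ)) : kap K ⊆ star K := filter_subset _ _

/-- The free or wired labels with both ends in `K`. -/
def kp (Y : DEnv) (K : Finset (ℤ × ℤ)) : Finset (ℤ × ℤ) := kap K ∩ (Y.E ∪ Y.W)

lemma mem_kp {Y : DEnv} {K : Finset (ℤ × ℤ)} {e : ℤ × ℤ} :
    e ∈ kp Y K ↔ e ∈ kap K ∧ (e ∈ Y.E ∨ e ∈ Y.W) := by
  unfold kp
  rw [mem_inter, mem_union]

/-- The exploration in the configuration `ζ` enters `K` by its step `i0` and then follows the contour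
of `K`. -/
structure Ring (Y : DEnv) (K ζ : Finset (ℤ × ℤ)) (i0 : ℕ) : Prop where
  sub : ζ ⊆ Y.E
  kap_sub : kap K ∩ Y.E ⊆ ζ
  lt : i0 < Y.len ζ
  s_star : plab (Y.cor ζ i0) ∈ star K
  s_op : plab (Y.cor ζ i0) ∈ ζ ∪ Y.W
  out : ∀ i ≤ i0, vx (Y.cor ζ i) ∉ K
  A : Co Y.W (vx Y.β) (vx (Y.cor ζ i0))
  inK : ∀ i, i0 < i → i ≤ Y.len ζ → vx (Y.cor ζ i) ∈ K
  step : ∀ i, i0 < i → i < Y.len ζ →
    (plab (Y.cor ζ i) ∈ kp Y K ∧ plab (Y.cor ζ i) ∈ ζ ∪ Y.W) ∨ plab (Y.cor ζ i) ∉ ζ ∪ Y.W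

/-- **The contour of `K`.** -/
theorem exists_ring {Y : DEnv} (hI : Inv Y) {K : Finset (ℤ × ℤ)}
    (hK : ∀ u ∈ K, ∀ v ∈ K, Co (kp Y K) u v) (hβ : vx Y.β ∈ K) (hα : vx Y.α ∉ K) :
    ∃ ζ i0, Ring Y K ζ i0 := by
  classical
  have h0 : (∅ : Finset (ℤ × ℤ)) ⊆ Y.E := empty_subset _
  -- the first label of the star
  have hex : ∃ i, i < Y.len ∅ ∧ plab (Y.cor ∅ i) ∈ star K ∧ plab (Y.cor ∅ i) ∈ Y.E ∪ Y.W := by
    by_contra hcon
    push Not at hcon
    have key : ∀ i ≤ Y.len ∅, vx (Y.cor ∅ i) ∉ K := by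
      intro i
      induction i with
      | zero => intro _; rw [Y.cor_zero]; exact hα
      | succ i ih =>
        intro hi
        have h1 := ih (by omega)
        rw [Y.cor_succ]
        by_cases hop : plab (Y.cor ∅ i) ∈ ∅ ∪ Y.W
        · rw [pv_open hop, vx_pvO]
          intro h2
          refine hcon i (by omega) (mem_star_plab.2 (Or.inr h2)) ?_
          rw [empty_union] at hop
          exact mem_union_right _ hop
        · rw [pv_closed hop, vx_pvC]
          exact h1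
    have h1 := key _ le_rfl
    rw [Y.cor_len h0] at h1
    exact h1 hβ
  obtain ⟨i0, ⟨hlt, hst, hEW⟩, hmin⟩ : ∃ i, (i < Y.len ∅ ∧ plab (Y.cor ∅ i) ∈ star K ∧
      plab (Y.cor ∅ i) ∈ Y.E ∪ Y.W) ∧ ∀ j < i, ¬ (j < Y.len ∅ ∧ plab (Y.cor ∅ j) ∈ star K ∧
      plab (Y.cor ∅ j) ∈ Y.E ∪ Y.W) :=
    ⟨Nat.find hex, Nat.find_spec hex, fun j hj => Nat.find_min hex hj⟩
  have hmin' : ∀ j < i0, ¬ (plab (Y.cor ∅ j) ∈ star K ∧ plab (Y.cor ∅ j) ∈ Y.E ∪ Y.W) :=
    fun j hj h => hmin j hj ⟨by omega, h⟩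
  set s := plab (Y.cor ∅ i0) with hs
  set ζ : Finset (ℤ × ℤ) := (kap K ∩ Y.E) ∪ ({s} ∩ Y.E) with hζ
  have hζE : ζ ⊆ Y.E := union_subset inter_subset_right inter_subset_right
  have hζstar : ζ ⊆ star K := by
    refine union_subset (inter_subset_left.trans (kap_sub_star K)) ?_
    intro e he
    rw [mem_inter, mem_singleton] at he
    rw [he.1]
    exact hst
  -- the paths agree up to `i0`
  have hag : ∀ i ≤ i0, Y.cor ζ i = Y.cor ∅ i := by
    refine iter_congr fun k hk => ?_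
    constructor
    · intro h
      rcases mem_union.1 h with h | h
      · exact absurd ⟨hζstar h, mem_union_left _ (hζE h)⟩ (hmin' k hk)
      · exact mem_union_right _ h
    · intro h
      exact mem_union_right _ ((mem_union.1 h).resolve_left (notMem_empty _))
  have hout : ∀ i ≤ i0, vx (Y.cor ζ i) ∉ K := by
    intro i
    induction i with
    | zero => intro _; rw [Y.cor_zero]; exact hα
    | succ i ih =>
      intro hi
      have h1 := ih (by omega)
      rw [hag i (by omega)] at h1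
      rw [hag (i + 1) hi, Y.cor_succ]
      by_cases hop : plab (Y.cor ∅ i) ∈ ∅ ∪ Y.W
      · rw [pv_open hop, vx_pvO]
        intro h2
        refine hmin' i (by omega) ⟨mem_star_plab.2 (Or.inr h2), ?_⟩
        rw [empty_union] at hop
        exact mem_union_right _ hop
      · rw [pv_closed hop, vx_pvC]
        exact h1
  have hlt' : i0 < Y.len ζ := by
    by_contra hcon
    push Not at hcon
    have h1 := Y.cor_len hζE
    rw [hag _ hcon] at h1
    exact Y.cor_ne (by omega) h1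
  have hsop : plab (Y.cor ζ i0) ∈ ζ ∪ Y.W := by
    rw [hag i0 le_rfl, ← hs]
    rcases mem_union.1 hEW with h | h
    · exact mem_union_left _ (mem_union_right _ (mem_inter.2 ⟨mem_singleton_self _, h⟩))
    · exact mem_union_right _ h
  have hskap : s ∉ kap K := by
    intro h
    rw [hs, ← hag i0 le_rfl, mem_kap_plab] at h
    exact hout i0 le_rfl h.1
  have hin1 : vx (Y.cor ζ (i0 + 1)) ∈ K := by
    rw [Y.cor_succ, pv_open hsop, vx_pvO]
    have h1 := hst
    rw [hs, ← hag i0 le_rfl, mem_star_plab] at h1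
    exact h1.resolve_left (hout i0 le_rfl)
  -- the environment after the step `i0`
  set Y1 := env Y ζ hζE (i0 + 1) with hY1
  have hI1 : Inv Y1 := hI.after (adapted_steps _) hζE
  set η := ζ \ Y.exset (steps (i0 + 1)) ζ with hη
  have hηE : η ⊆ Y1.E := rest_sub hζE
  have hu : i0 + 1 ≤ Y.len ζ := hlt'
  have hlen : Y1.len η + (i0 + 1) = Y.len ζ := env_len hζE hu
  have hunmet : ∀ e ∈ kp Y K, ∀ k < i0 + 1, plab (Y.cor ζ k) ≠ e := by
    intro e he k hk h
    rw [mem_kp] at he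
    rcases Nat.lt_or_ge k i0 with h1 | h1
    · rw [hag k h1.le] at h
      refine hmin' k h1 ⟨?_, ?_⟩
      · rw [h]; exact kap_sub_star K he.1
      · rw [h, mem_union]; exact he.2
    · have h2 : k = i0 := by omega
      rw [h2, hag i0 le_rfl, ← hs] at h
      exact hskap (h ▸ he.1)
  have hP : kp Y K ⊆ η ∪ Y1.W := by
    intro e he
    have he' := mem_kp.1 he
    rw [mem_union]
    rcases he'.2 with h | h
    · left
      rw [hη, mem_rest hζE hu]
      exact ⟨mem_union_left _ (mem_inter.2 ⟨he'.1, h⟩), hunmet e he⟩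
    · right
      rw [hY1, mem_env_W hζE hu]
      exact Or.inl h
  have hα1 : vx Y1.α ∈ K := by rw [hY1, env_α hζE hu]; exact hin1
  have hco : Co (kp Y K) (vx Y1.α) (vx Y1.β) := hK _ hα1 _ hβ
  have hstep : ∀ i, i0 < i → i < Y.len ζ → plab (Y.cor ζ i) ∈ ζ ∪ Y.W →
      plab (Y.cor ζ i) ∈ kp Y K := by
    intro i h1 h2 hop
    have hw : plab (Y.cor ζ i) ∈ Y1.W → plab (Y.cor ζ i) ∈ kp Y K := by
      intro hw
      have h3 := hI1.no_wired' hηE hP hco (i := i - (i0 + 1)) (by omega)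
      rw [hη, hY1, env_cor hζE hu, Nat.sub_add_cancel (by omega)] at h3
      exact h3 hw
    rcases mem_union.1 hop with h3 | h3
    · rcases mem_union.1 h3 with h4 | h4
      · rw [mem_inter] at h4
        exact mem_kp.2 ⟨h4.1, Or.inl h4.2⟩
      · apply hw
        rw [mem_inter, mem_singleton] at h4
        rw [hY1, mem_env_W hζE hu]
        refine Or.inr ⟨h3, i0, by omega, ?_⟩
        rw [hag i0 le_rfl, ← hs, h4.1]
    · apply hw
      rw [hY1, mem_env_W hζE hu]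
      exact Or.inl h3
  refine ⟨ζ, i0, hζE, subset_union_left, hlt', ?_, hsop, hout, ?_, ?_, ?_⟩
  · rw [hag i0 le_rfl]; exact hst
  · rw [hag i0 le_rfl]
    have h1 := (Y.side_open ∅ (Nat.zero_le i0)).mono inter_subset_left
    rw [empty_union, Y.cor_zero] at h1
    exact hI.co_W.trans h1
  · intro i hi
    induction i, hi using Nat.le_induction with
    | base => intro _; exact hin1
    | succ i hi ih =>
      intro hil
      have h1 := ih (by omega)
      rw [Y.cor_succ]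
      by_cases hop : plab (Y.cor ζ i) ∈ ζ ∪ Y.W
      · rw [pv_open hop, vx_pvO]
        exact (mem_kap_plab.1 (mem_kp.1 (hstep i hi (by omega) hop)).1).2
      · rw [pv_closed hop, vx_pvC]
        exact h1
  · intro i h1 h2
    by_cases hop : plab (Y.cor ζ i) ∈ ζ ∪ Y.W
    · exact Or.inl ⟨hstep i h1 h2 hop, hop⟩
    · exact Or.inr hop

namespace Ring

variable {Y : DEnv} {K ζ : Finset (ℤ × ℤ)} {i0 : ℕ}

/-- A fresh label met by the contour after `i0` which is not crossed is not in `kap K`. -/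
lemma not_kap (hR : Ring Y K ζ i0) {i : ℕ}
    (hc : plab (Y.cor ζ i) ∉ ζ ∪ Y.W) (hE : plab (Y.cor ζ i) ∈ Y.E) :
    plab (Y.cor ζ i) ∉ kap K := fun h =>
  hc (mem_union_left _ (hR.kap_sub (mem_inter.2 ⟨h, hE⟩)))

end Ring

end Pool.Agent.H43.Q1
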