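import Mathlib
import Pool.Agent.H43.Q1.Ring
import Pool.Agent.H43.Q1.E3

set_option autoImplicit false
open Finset

/-! # A small gate from the types of the labels around a solid set

`Half Y K ρ e D g` : the small set `D` of fresh labels off `kap K` joins the label `e` to the corner
`g`. `HalfA`, `HalfL` : the vertex of `g` is in the wired cluster, the face of `g` is joined to the
face of the tip by closed boundary labels. If every fresh label with one end in `K` has one of these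
types or is near `pb` then there is a small gate or a gate near `pb` (`gate_of_ring`). -/

namespace Pool.Agent.H43.Q1

open Pool.Agent.H75.Perc Pool.Agent.H75.TwoArm Pool.Agent.H75.Four Pool.Agent.H99.NC
open Pool.Agent.H69.Q1 Pool.Agent.H39.Q1 Pool.Agent.H28.Q1
open Pool.Agent.H69.Q1.DEnv (steps adapted_steps)
open Pool.Agent.H75.TwoArm.SymmAux (pvO pvC pv_eq)
open Pool.Agent.Q1.M3 (star kap mem_star_iff mem_kap_iff)

/-- The small set `D` of fresh labels off `kap K` joins the label `e` to the corner `g`. -/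
structure Half (Y : DEnv) (K : Finset (ℤ × ℤ)) (ρ : ℤ) (e : ℤ × ℤ) (D : Finset (ℤ × ℤ))
    (g : ℤ × ℤ) : Prop where
  sub : D ⊆ Y.E
  mem : e ∈ D
  off : ∀ l ∈ D, l ∉ kap K
  near : ∀ c c', plab c ∈ D → plab c' = e → Near ρ (vx c') (vx c)
  prim : ∀ c c', plab c ∈ D → plab c' = e → Co D (vx c) (vx c')
  dual : ∀ c', plab c' = e → Co (D.map sh1) (fi c') (fi g)
  fr : lab g ∈ D ∨ plab g ∈ D

lemma exists_plab_of_lab (g : ℤ × ℤ) : ∃ c, plab c = lab g ∧ vx c = vx g :=
  ⟨pvC^[3] g, plab_iterC3 g, vx_iterC g 3⟩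

lemma Half.near_g {Y : DEnv} {K : Finset (ℤ × ℤ)} {ρ : ℤ} {e : ℤ × ℤ} {D : Finset (ℤ × ℤ)}
    {g : ℤ × ℤ} (h : Half Y K ρ e D g) {c' : ℤ × ℤ} (hc : plab c' = e) :
    Near ρ (vx c') (vx g) ∧ Co D (vx g) (vx c') := by
  rcases h.fr with h1 | h1
  · obtain ⟨c, h2, h3⟩ := exists_plab_of_lab g
    rw [← h3]
    rw [← h2] at h1
    exact ⟨h.near _ _ h1 hc, h.prim _ _ h1 hc⟩
  · exact ⟨h.near _ _ h1 hc, h.prim _ _ h1 hc⟩

/-- The label `e` is joined to the wired cluster. -/
def HalfA (Y : DEnv) (K : Finset (ℤ × ℤ)) (ρ : ℤ) (e : ℤ × ℤ) : Prop :=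
  ∃ D g, Half Y K ρ e D g ∧ Co Y.W (vx Y.β) (vx g) ∧ vx g ∉ K

/-- The label `e` is joined to the closed boundary. -/
def HalfL (Y : DEnv) (K : Finset (ℤ × ℤ)) (ρ : ℤ) (e : ℤ × ℤ) : Prop :=
  ∃ D g, Half Y K ρ e D g ∧ ClJ Y (fi Y.α) (fi g)

/-- The corner `g` is next to a free label or visited by an exploration. -/
def Vis (Y : DEnv) (g : ℤ × ℤ) : Prop :=
  (lab g ∈ Y.E ∨ plab g ∈ Y.E) ∨ ∃ ζ, ζ ⊆ Y.E ∧ ∃ i < Y.len ζ, Y.cor ζ i = g

/-- A gate joined to `K`. -/
structure GateK (Y : DEnv) (K W0 κ P Dd : Finset (ℤ × ℤ)) (g g' : ℤ × ℤ) : Prop where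
  gate : Gate W0 κ Y P g g'
  joined : ∀ c, plab c ∈ P → Co (P ∪ κ) (vx c) (vx Y.β)
  ddP : Dd ⊆ P
  dd : Co (Dd.map sh1) (fi g) (fi g')
  off : ∀ l ∈ Dd, l ∉ kap K
  gK : vx g ∉ K
  vis : Vis Y g
  vis' : Vis Y g'

lemma co_step_v {L : Finset (ℤ × ℤ)} {c : ℤ × ℤ} (h : plab c ∈ L) : Co L (vx c) (vx (oc c)) :=
  Relation.ReflTransGen.single ⟨(plab_ends c).1, by rw [(plab_ends c).2]; exact h⟩

lemma co_step_f {L : Finset (ℤ × ℤ)} {c : ℤ × ℤ} (h : plab c ∈ L) :
    Co (L.map sh1) (fi c) (fi (oc c)) :=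
  Relation.ReflTransGen.single ⟨(plab_faces c).1, by
    rw [(plab_faces c).2]
    exact mem_map.2 ⟨plab c, h, rfl⟩⟩

section

variable {Y : DEnv} {K ζ : Finset (ℤ × ℤ)} {i0 : ℕ}

theorem gate_of_ring (hI : Inv Y) (hK : ∀ u ∈ K, ∀ v ∈ K, Co (kp Y K) u v) (hβ : vx Y.β ∈ K)
    (hα : vx Y.α ∉ K) {W0 : Finset (ℤ × ℤ)} (hW0 : ∀ e ∈ star K, e ∈ Y.W → e ∈ W0) {ρ ρb : ℤ}
    (hρ : 0 ≤ ρ) (hρb : 0 ≤ ρb) {pb : ℤ × ℤ}
    (htyp : ∀ c, vx c ∈ K → vx (oc c) ∉ K → plab c ∈ Y.E →
      HalfA Y K ρ (plab c) ∨ HalfL Y K ρ (plab c) ∨ Near ρb pb (vx c)) :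
    ∃ (κ P Dd : Finset (ℤ × ℤ)) (g g' p : ℤ × ℤ) (r : ℤ), κ ⊆ star K ∧ κ ⊆ Y.E ∪ Y.W ∧
      GateK Y K W0 κ P Dd g g' ∧ (r = ρ + 3 ∨ (r = ρb + ρ + 3 ∧ p = pb)) ∧ Small P r p ∧
      Near r p (vx g) ∧ Near r p (vx g') := by
  classical
  obtain ⟨ζ, i0, hR⟩ := exists_ring hI hK hβ hα
  set z := fun i => Y.cor ζ i with hz
  have hzs : ∀ i, z (i + 1) = pv (ζ ∪ Y.W) (z i) := fun i => Y.cor_succ ζ i
  set s := plab (z i0) with hs
  -- the first corner of the closed side
  have hlen : z (Y.len ζ) = Y.β := Y.cor_len hR.sub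
  have hexE : ∃ i, i0 ≤ i ∧ i ≤ Y.len ζ ∧ ClJ Y (fi Y.α) (fi (z i)) :=
    ⟨Y.len ζ, hR.lt.le, le_rfl, by rw [hlen]; exact hI.clJ.symm⟩
  obtain ⟨iE, ⟨hE0, hElen, hEL⟩, hEmin⟩ : ∃ i, (i0 ≤ i ∧ i ≤ Y.len ζ ∧
      ClJ Y (fi Y.α) (fi (z i))) ∧ ∀ j < i, ¬ (i0 ≤ j ∧ j ≤ Y.len ζ ∧
      ClJ Y (fi Y.α) (fi (z j))) :=
    ⟨Nat.find hexE, Nat.find_spec hexE, fun j hj => Nat.find_min hexE hj⟩
  have hnoL : ∀ j, i0 ≤ j → j < iE → ¬ ClJ Y (fi Y.α) (fi (z j)) :=
    fun j h1 h2 h3 => hEmin j h2 ⟨h1, by omega, h3⟩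
  -- ring positions
  set rp : ℕ → Prop := fun i => i0 < i ∧ i < iE ∧ plab (z i) ∉ ζ ∪ Y.W with hrp
  have hrpE : ∀ i, rp i → plab (z i) ∈ Y.E ∧ plab (z i) ∉ kap K ∧ vx (z i) ∈ K ∧
      vx (oc (z i)) ∉ K := by
    intro i h
    obtain ⟨h1, h2, h3⟩ := h
    have h4 : plab (z i) ∈ Y.E := by
      by_contra h5
      refine hnoL i h1.le h2 (hI.cl ζ hR.sub i (by omega) h5 fun h6 => h3 (mem_union_right _ h6))
    have h5 := hR.not_kap h3 h4
    have h6 := hR.inK i h1 (by omega)
    refine ⟨h4, h5, h6, fun h7 => h5 (mem_kap_plab.2 ⟨h6, h7⟩)⟩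
  have hcross : ∀ i, i0 ≤ i → i < iE → ¬ rp i → plab (z i) ∈ ζ ∪ Y.W := by
    intro i h1 h2 h3
    rcases Nat.lt_or_ge i0 i with h4 | h4
    · by_contra h5
      exact h3 ⟨h4, h2, h5⟩
    · have : i = i0 := by omega
      rw [this]
      exact hR.s_op
  have hstar : ∀ i, i0 ≤ i → i < iE → plab (z i) ∈ star K := by
    intro i h1 h2
    rcases Nat.lt_or_ge i0 i with h4 | h4
    · exact mem_star_plab.2 (Or.inl (hR.inK i h4 (by omega)))
    · have : i = i0 := by omega
      rw [this]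
      exact hR.s_star
  have hskap : s ∉ kap K := fun h => hR.out i0 le_rfl (mem_kap_plab.1 h).1
  have hs0 : vx (oc (z i0)) ∈ K := by
    have h1 := hR.s_star
    rw [mem_star_plab] at h1
    exact h1.resolve_left (hR.out i0 le_rfl)
  -- the positions of the two sides
  have hexL : ∃ i, (rp i ∧ HalfL Y K ρ (plab (z i))) ∨ i = iE := ⟨iE, Or.inr rfl⟩
  obtain ⟨iL, hLspec, hLmin⟩ : ∃ i, ((rp i ∧ HalfL Y K ρ (plab (z i))) ∨ i = iE) ∧
      ∀ j < i, ¬ ((rp j ∧ HalfL Y K ρ (plab (z j))) ∨ j = iE) :=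
    ⟨Nat.find hexL, Nat.find_spec hexL, fun j hj => Nat.find_min hexL hj⟩
  have hLE : iL ≤ iE := by
    by_contra hcon
    push Not at hcon
    exact hLmin iE hcon (Or.inr rfl)
  have hL0 : i0 ≤ iL := by
    rcases hLspec with h | h
    · exact h.1.1.le
    · omega
  set SA := (range (iL + 1)).filter fun i => i = i0 ∨ (rp i ∧ HalfA Y K ρ (plab (z i))) with hSA
  have hSA0 : i0 ∈ SA := by rw [hSA, mem_filter, mem_range]; exact ⟨by omega, Or.inl rfl⟩
  obtain ⟨iA, hiA, hAmax⟩ := SA.exists_max_image id ⟨i0, hSA0⟩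
  have hA0 : i0 ≤ iA := hAmax i0 hSA0
  rw [hSA, mem_filter, mem_range] at hiA
  obtain ⟨hAL, hAspec⟩ := hiA
  have hAL : iA ≤ iL := by omega
  have hbetween : ∀ j, iA < j → j < iL → rp j → Near ρb pb (vx (z j)) := by
    intro j h1 h2 h3
    obtain ⟨h4, h5, h6, h7⟩ := hrpE j h3
    rcases htyp (z j) h6 h7 h4 with h8 | h8 | h8
    · exfalso
      have := hAmax j (by rw [hSA, mem_filter, mem_range]; exact ⟨by omega, Or.inr ⟨h3, h8⟩⟩)
      simp only [id] at this
      omega
    · exact absurd (Or.inl ⟨h3, h8⟩) (hLmin j h2)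
    · exact h8
  -- the sets
  set M : Finset (ℤ × ℤ) := ((Ico iA iL).image fun i => plab (z i)) ∩ Y.E with hM
  set Md : Finset (ℤ × ℤ) := ((Ico iA iL).filter fun i => rp i).image (fun i => plab (z i)) with hMd
  have hMdM : Md ⊆ M := by
    intro e he
    rw [hMd, mem_image] at he
    obtain ⟨i, hi, rfl⟩ := he
    rw [mem_filter] at hi
    exact mem_inter.2 ⟨mem_image.2 ⟨i, hi.1, rfl⟩, (hrpE i hi.2).1⟩
  have hMdoff : ∀ l ∈ Md, l ∉ kap K := by
    intro e he
    rw [hMd, mem_image] at he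
    obtain ⟨i, hi, rfl⟩ := he
    rw [mem_filter] at hi
    exact (hrpE i hi.2).2.1
  have hvstep : ∀ i, z (i + 1) = pvO (z i) ∨ z (i + 1) = pvC (z i) := by
    intro i
    rw [hzs]
    by_cases h : plab (z i) ∈ ζ ∪ Y.W
    · left; exact pv_open h
    · right; exact pv_closed h
  have hprimM : ∀ j, iA ≤ j → j ≤ iL → Co (M ∪ W0) (vx (z iA)) (vx (z j)) := by
    intro j hj
    induction j, hj using Nat.le_induction with
    | base => intro _; exact Co.refl _ _
    | succ j hj ih =>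
      intro hjL
      refine (ih (by omega)).trans ?_
      rw [hzs]
      by_cases hop : plab (z j) ∈ ζ ∪ Y.W
      · rw [pv_open hop, vx_pvO]
        refine co_step_v ?_
        rw [mem_union]
        rcases mem_union.1 hop with h | h
        · left
          exact mem_inter.2 ⟨mem_image.2 ⟨j, mem_Ico.2 ⟨hj, by omega⟩, rfl⟩, hR.sub h⟩
        · right
          exact hW0 _ (hstar j (by omega) (by omega)) h
      · rw [pv_closed hop, vx_pvC]
        exact Co.refl _ _
  have hdualM : ∀ j, iA ≤ j → j ≤ iL → Co (Md.map sh1) (fi (z iA)) (fi (z j)) := by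
    intro j hj
    induction j, hj using Nat.le_induction with
    | base => intro _; exact Co.refl _ _
    | succ j hj ih =>
      intro hjL
      refine (ih (by omega)).trans ?_
      rw [hzs]
      by_cases hop : plab (z j) ∈ ζ ∪ Y.W
      · rw [pv_open hop, fi_pvO]
        exact Co.refl _ _
      · rw [pv_closed hop, fi_pvC]
        refine co_step_f ?_
        rw [hMd, mem_image]
        refine ⟨j, mem_filter.2 ⟨mem_Ico.2 ⟨hj, by omega⟩, ?_⟩, rfl⟩
        by_contra h
        exact hop (hcross j (by omega) (by omega) h)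
  -- the open side
  obtain ⟨DA, g, hDAE, hDAoff, hDAnear, hgnear, hDAprim, hDAdual, hgA, hgK, hgfr, hgvis,
      hDAco, hDAs⟩ : ∃ (DA : Finset (ℤ × ℤ)) (g : ℤ × ℤ), DA ⊆ Y.E ∧ (∀ l ∈ DA, l ∉ kap K) ∧
      (∀ c, plab c ∈ DA → Near (ρ + 1) (vx (z iA)) (vx c)) ∧ Near (ρ + 1) (vx (z iA)) (vx g) ∧
      Co DA (vx g) (vx (z iA)) ∧ Co (DA.map sh1) (fi g) (fi (z iA)) ∧
      Co Y.W (vx Y.β) (vx g) ∧ vx g ∉ K ∧ (lab g ∈ DA ∨ plab g ∈ DA ∨ (plab g ∈ Y.W ∧ plab g = s))
      ∧ Vis Y g ∧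
      (∀ c, plab c ∈ DA → ∃ v ∈ K, Co DA (vx c) v) ∧ (iA = i0 → s ∈ Y.E → s ∈ DA) := by
    rcases eq_or_ne iA i0 with h0 | h0
    · refine ⟨{s} ∩ Y.E, z i0, inter_subset_right, ?_, ?_, ?_, ?_, ?_, hR.A,
        hR.out i0 le_rfl, ?_, Or.inr ⟨ζ, hR.sub, i0, hR.lt, rfl⟩, ?_,
        fun _ h => mem_inter.2 ⟨mem_singleton_self _, h⟩⟩
      · intro l hl
        rw [mem_inter, mem_singleton] at hl
        rw [hl.1]
        exact hskap
      · intro c hc
        rw [mem_inter, mem_singleton] at hc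
        rw [h0]
        exact (near_of_plab hc.1).mono (by omega)
      · rw [h0]; unfold Near; simp; omega
      · rw [h0]; exact Co.refl _ _
      · rw [h0]; exact Co.refl _ _
      · rcases mem_union.1 hR.s_op with h1 | h1
        · right; left
          exact mem_inter.2 ⟨mem_singleton_self _, hR.sub h1⟩
        · right; right
          exact ⟨h1, rfl⟩
      · intro c hc
        have hc' := hc
        rw [mem_inter, mem_singleton] at hc'
        rcases eq_or_oc (c := z i0) (c' := c) hc'.1 with h2 | h2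
        · refine ⟨vx (oc (z i0)), hs0, ?_⟩
          rw [h2] at hc ⊢
          exact co_step_v hc
        · exact ⟨vx (oc (z i0)), hs0, by rw [h2]; exact Co.refl _ _⟩
    · have h1 := hAspec.resolve_left h0
      obtain ⟨hrpA, DA, g, hh, hA, hgK⟩ := h1
      refine ⟨DA, g, hh.sub, hh.off, fun c hc => (hh.near c (z iA) hc rfl).mono (by omega),
        ((hh.near_g (c' := z iA) rfl).1).mono (by omega), (hh.near_g (c' := z iA) rfl).2,
        (hh.dual (z iA) rfl).symm, hA, hgK, ?_, Or.inl ?_, ?_, fun h => absurd h h0⟩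
      · rcases hh.fr with h | h
        · exact Or.inl h
        · exact Or.inr (Or.inl h)
      · rcases hh.fr with h | h
        · exact Or.inl (hh.sub h)
        · exact Or.inr (hh.sub h)
      · intro c hc
        exact ⟨vx (z iA), (hrpE iA hrpA).2.2.1, hh.prim c (z iA) hc rfl⟩
  -- the closed side
  obtain ⟨DL, g', hDLE, hDLoff, hDLnear, hg'near, hDLprim, hDLdual, hg'L, hg'fr, hDLco⟩ :
      ∃ (DL : Finset (ℤ × ℤ)) (g' : ℤ × ℤ), DL ⊆ Y.E ∧ (∀ l ∈ DL, l ∉ kap K) ∧
      (∀ c, plab c ∈ DL → Near ρ (vx (z iL)) (vx c)) ∧ Near ρ (vx (z iL)) (vx g') ∧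
      Co DL (vx g') (vx (z iL)) ∧ Co (DL.map sh1) (fi g') (fi (z iL)) ∧
      ClJ Y (fi Y.α) (fi g') ∧ (lab g' ∈ DL ∪ M ∨ plab g' ∈ DL ∪ M ∨
        (plab g' = s ∧ iA = i0 ∧ g' = z i0)) ∧
      (∀ c, plab c ∈ DL → ∃ v ∈ K, Co DL (vx c) v) := by
    rcases eq_or_ne iL iE with hLE' | hLE'
    · refine ⟨∅, z iE, empty_subset _, fun l hl => absurd hl (notMem_empty _),
        fun c hc => absurd hc (notMem_empty _), ?_, ?_, ?_, hEL, ?_,
        fun c hc => absurd hc (notMem_empty _)⟩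
      · rw [hLE']; unfold Near; simp; omega
      · rw [hLE']; exact Co.refl _ _
      · rw [hLE']; exact Co.refl _ _
      · rcases eq_or_ne iE i0 with h0 | h0
        · right; right
          exact ⟨by rw [h0], by omega, by rw [h0]⟩
        · left
          obtain ⟨j, hj⟩ : ∃ j, iE = j + 1 := ⟨iE - 1, by omega⟩
          have hcl : rp j := by
            by_contra h1
            have h2 := hcross j (by omega) (by omega) h1
            apply hnoL j (by omega) (by omega)
            rw [hj, hzs, pv_open h2, fi_pvO] at hEL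
            exact hEL
          have hAj : iA ≤ j := by
            rcases hAspec with h1 | h1
            · omega
            · have := h1.1.2.1
              omega
          have h3 : lab (z iE) = plab (z j) := by
            rw [hj, hzs]
            exact lab_pv _ _
          rw [h3, mem_union]
          right
          exact mem_inter.2 ⟨mem_image.2 ⟨j, mem_Ico.2 ⟨hAj, by omega⟩, rfl⟩, (hrpE j hcl).1⟩
    · have h1 := hLspec.resolve_right hLE'
      obtain ⟨hrpL, DL, g', hh, hL⟩ := h1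
      refine ⟨DL, g', hh.sub, hh.off, fun c hc => hh.near c (z iL) hc rfl,
        (hh.near_g (c' := z iL) rfl).1, (hh.near_g (c' := z iL) rfl).2,
        (hh.dual (z iL) rfl).symm, hL, ?_, ?_⟩
      · rcases hh.fr with h | h
        · exact Or.inl (mem_union_left _ h)
        · exact Or.inr (Or.inl (mem_union_left _ h))
      · intro c hc
        exact ⟨vx (z iL), (hrpE iL hrpL).2.2.1, hh.prim c (z iL) hc rfl⟩
  -- the positions
  have hnear1 : ∀ i, Near 1 (vx (z i)) (vx (z (i + 1))) := by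
    intro i
    rcases hvstep i with h | h
    · rw [h, vx_pvO]; exact near_oc _
    · rw [h, vx_pvC]; unfold Near; simp
  have hface : ∀ i, iA < i → i ≤ iL → (fi (z i) = fi (z (iA + 1)) ∧ ∀ k, iA < k → k < i → ¬ rp k) ∨
      ∃ j, iA < j ∧ j < i ∧ rp j ∧ fi (z i) = fi (z (j + 1)) := by
    intro i hi
    induction i, hi using Nat.le_induction with
    | base => intro _; exact Or.inl ⟨rfl, fun k h1 h2 => by omega⟩
    | succ i hi ih =>
      intro hiL
      by_cases hr : rp i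
      · exact Or.inr ⟨i, hi, by omega, hr, rfl⟩
      · have h1 := hcross i (by omega) (by omega) hr
        have h2 : fi (z (i + 1)) = fi (z i) := by rw [hzs, pv_open h1, fi_pvO]
        rcases ih (by omega) with ⟨h3, h4⟩ | ⟨j, h3, h4, h5, h6⟩
        · left
          refine ⟨h2.trans h3, fun k h5 h6 => ?_⟩
          rcases Nat.lt_or_ge k i with h7 | h7
          · exact h4 k h5 h7
          · have : k = i := by omega
            rw [this]; exact hr
        · right
          exact ⟨j, h3, by omega, h5, h2.trans h6⟩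
  obtain ⟨p, d, hd0, hd, hnear⟩ : ∃ (p : ℤ × ℤ) (d : ℤ), 2 ≤ d ∧ (d = 2 ∨ (d = ρb + 2 ∧ p = pb)) ∧
      ∀ i, iA ≤ i → i ≤ iL → Near d p (vx (z i)) := by
    by_cases hex : ∃ j, iA < j ∧ j < iL ∧ rp j
    · obtain ⟨j1, ⟨h1, h2, h3⟩, hmin⟩ : ∃ j, (iA < j ∧ j < iL ∧ rp j) ∧
          ∀ k < j, ¬ (iA < k ∧ k < iL ∧ rp k) :=
        ⟨Nat.find hex, Nat.find_spec hex, fun k hk => Nat.find_min hex hk⟩
      have hj1 : fi (z j1) = fi (z (iA + 1)) := by
        rcases hface j1 h1 h2.le with h4 | ⟨k, h4, h5, h6, -⟩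
        · exact h4.1
        · exact absurd ⟨h4, by omega, h6⟩ (hmin k h5)
      have hb1 := hbetween j1 h1 h2 h3
      refine ⟨pb, ρb + 2, by omega, Or.inr ⟨rfl, rfl⟩, fun i hi hi' => ?_⟩
      rcases Nat.lt_or_ge iA i with h4 | h4
      · rcases hface i h4 hi' with ⟨h5, -⟩ | ⟨j, h5, h6, h7, h8⟩
        · have h6 : fi (z i) = fi (z j1) := h5.trans hj1.symm
          exact (near_trans hb1 (near_of_fi h6)).mono (by omega)
        · have h9 : vx (z (j + 1)) = vx (z j) := by rw [hzs, pv_closed h7.2.2, vx_pvC]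
          have h10 := near_of_fi h8
          rw [h9] at h10
          exact (near_trans (hbetween j h5 (by omega) h7) h10).mono (by omega)
      · have h5 : i = iA := by omega
        rw [h5]
        have h6 := near_of_fi hj1.symm
        exact (near_trans (near_trans hb1 h6) (near_symm (hnear1 iA))).mono (by omega)
    · push Not at hex
      refine ⟨vx (z iA), 2, le_rfl, Or.inl rfl, fun i hi hi' => ?_⟩
      rcases Nat.lt_or_ge iA i with h4 | h4
      · rcases hface i h4 hi' with ⟨h5, -⟩ | ⟨j, h5, h6, h7, -⟩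
        · exact (near_trans (hnear1 iA) (near_of_fi h5)).mono (by omega)
        · exact absurd h7 (hex j h5 (by omega))
      · have h5 : i = iA := by omega
        rw [h5]
        unfold Near
        simp
  -- the gate
  set κ : Finset (ℤ × ℤ) := kp Y K ∪ ({s} ∩ Y.W) with hκ
  set P : Finset (ℤ × ℤ) := M ∪ DA ∪ DL with hP
  set Dd : Finset (ℤ × ℤ) := Md ∪ DA ∪ DL with hDd
  have hMP : M ⊆ P := fun e he => mem_union_left _ (mem_union_left _ he)
  have hDAP : DA ⊆ P := fun e he => mem_union_left _ (mem_union_right _ he)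
  have hDLP : DL ⊆ P := fun e he => mem_union_right _ he
  have hkpκ : kp Y K ⊆ κ := subset_union_left
  have hnA := hnear iA le_rfl hAL
  have hnL := hnear iL hAL le_rfl
  have hPE : P ⊆ Y.E := union_subset (union_subset inter_subset_right hDAE) hDLE
  refine ⟨κ, P, Dd, g, g', p, d + ρ + 1, ?_, ?_, ⟨⟨hPE, hgA, hg'L, ?_, ?_, ?_, ?_⟩, ?_, ?_, ?_, ?_,
    hgK, hgvis, ?_⟩, ?_, ?_, ?_, ?_⟩
  · refine union_subset (inter_subset_left.trans (kap_sub_star K)) ?_
    intro e he
    rw [mem_inter, mem_singleton] at he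
    rw [he.1]
    exact hR.s_star
  · exact union_subset inter_subset_right (inter_subset_right.trans subset_union_right)
  · refine ((hDAprim.mono (hDAP.trans subset_union_left)).trans
      ((hprimM iL hAL le_rfl).mono (union_subset_union_left hMP))).trans ?_
    exact (hDLprim.mono (hDLP.trans subset_union_left)).symm
  · have h1 : Md ⊆ P := hMdM.trans hMP
    refine ((hDAdual.mono (map_subset_map.2 hDAP)).trans
      ((hdualM iL hAL le_rfl).mono (map_subset_map.2 h1))).trans ?_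
    exact (hDLdual.mono (map_subset_map.2 hDLP)).symm
  · rcases hgfr with h | h | ⟨h, h'⟩
    · exact Or.inl (hDAP h)
    · exact Or.inr (Or.inl (hDAP h))
    · refine Or.inr (Or.inr (mem_union_right _ ?_))
      rw [mem_inter, mem_singleton]
      exact ⟨h', h⟩
  · have h1 : DL ∪ M ⊆ P := union_subset hDLP hMP
    rcases hg'fr with h | h | ⟨h, h', -⟩
    · exact Or.inl (h1 h)
    · exact Or.inr (Or.inl (h1 h))
    · rcases mem_union.1 hR.s_op with h2 | h2
      · refine Or.inr (Or.inl (hDAP ?_))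
        rw [h]
        exact hDAs h' (hR.sub h2)
      · refine Or.inr (Or.inr (mem_union_right _ ?_))
        rw [h, mem_inter, mem_singleton]
        exact ⟨rfl, h2⟩
  · have hKβ : ∀ v ∈ K, Co (P ∪ κ) v (vx Y.β) := fun v hv =>
      (hK v hv _ hβ).mono (hkpκ.trans subset_union_right)
    have hfin : ∀ D : Finset (ℤ × ℤ), D ⊆ P → ∀ c, (∃ v ∈ K, Co D (vx c) v) →
        Co (P ∪ κ) (vx c) (vx Y.β) := by
      rintro D hD c ⟨v, hv, hco⟩
      exact (hco.mono (hD.trans subset_union_left)).trans (hKβ v hv)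
    intro c hc
    rcases mem_union.1 hc with h | h
    · rcases mem_union.1 h with h | h
      · have h' := h
        rw [hM, mem_inter, mem_image] at h
        obtain ⟨⟨i, hi, hi'⟩, -⟩ := h
        rw [mem_Ico] at hi
        have h1 := hstar i (by omega) (by omega)
        change plab (z i) = plab c at hi'
        rw [hi', mem_star_plab] at h1
        rcases h1 with h1 | h1
        · exact hKβ _ h1
        · refine hfin M hMP c ⟨_, h1, co_step_v h'⟩
      · exact hfin DA hDAP c (hDAco c h)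
    · exact hfin DL hDLP c (hDLco c h)
  · exact union_subset_union_left (union_subset_union_left hMdM)
  · refine ((hDAdual.mono (map_subset_map.2 ?_)).trans
      ((hdualM iL hAL le_rfl).mono (map_subset_map.2 ?_))).trans
      (hDLdual.mono (map_subset_map.2 ?_)).symm
    · exact subset_union_right.trans subset_union_left
    · exact subset_union_left.trans subset_union_left
    · exact subset_union_right
  · intro l hl
    rcases mem_union.1 hl with h | h
    · rcases mem_union.1 h with h | h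
      · exact hMdoff l h
      · exact hDAoff l h
    · exact hDLoff l h
  · have h1 : DL ∪ M ⊆ P := union_subset hDLP hMP
    rcases hg'fr with h | h | ⟨-, -, h⟩
    · exact Or.inl (Or.inl (hPE (h1 h)))
    · exact Or.inl (Or.inr (hPE (h1 h)))
    · exact Or.inr ⟨ζ, hR.sub, i0, hR.lt, h.symm⟩
  · rcases hd with h | ⟨h, h'⟩
    · exact Or.inl (by omega)
    · exact Or.inr ⟨by omega, h'⟩
  · intro c hc
    rcases mem_union.1 hc with h | h
    · rcases mem_union.1 h with h | h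
      · rw [hM, mem_inter, mem_image] at h
        obtain ⟨⟨i, hi, hi'⟩, -⟩ := h
        rw [mem_Ico] at hi
        have h1 := hnear i hi.1 hi.2.le
        exact (near_trans h1 (near_of_plab hi'.symm)).mono (by omega)
      · exact (near_trans hnA (hDAnear c h)).mono (by omega)
    · exact (near_trans hnL (hDLnear c h)).mono (by omega)
  · exact (near_trans hnA hgnear).mono (by omega)
  · exact (near_trans hnL hg'near).mono (by omega)

end

end Pool.Agent.H43.Q1
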