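import Mathlib
import Pool.Agent.H43.Q1.E3
import Pool.Agent.H28.Q1.Asm

set_option autoImplicit false
open Finset Filter Topology

/-! # The target of the step is near, except with small probability

* `GateAt r X ω hω t T` : at the time `t` the tip is joined to the target `T` within distance `r`, or
  there is a gate of size `r`, not both ends of which are original, which is joined to the target.
* `StGate A` : `GateAt` holds at all times after the coarse family is met and before the barrier is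
  met (deterministic).
* `stOk_of_stGate` : `StGate A` implies `StOk A` (at all these times the target is near in the sense
  of `Ok`, except with small probability). -/

namespace Pool.Agent.H43.Q1

open Pool.Agent.H75.Perc Pool.Agent.H75.TwoArm Pool.Agent.H75.Four Pool.Agent.H99.NC
open Pool.Agent.H69.Q1 Pool.Agent.H39.Q1 Pool.Agent.H28.Q1 Pool.Agent.H65.Dom
open Pool.Agent.H69.Q1.DEnv (steps adapted_steps Adapted)
open Pool.Agent.H81.Q1 (pt DDomain Approx IsJordanDomain IsArcs toDEnv_E)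
open Pool.Agent.Q1.M3
open Pool.Agent.H57.Q1 (Seq pieces_bound_Pr)

/-! ### Deterministic part -/

/-- At the time `t` the target `T` is joined to the tip within distance `r` or to a gate of size `r`
not both ends of which are original. -/
def GateAt (r : ℤ) (X : DEnv) (ω : Finset (ℤ × ℤ)) (hω : ω ⊆ X.E) (t : ℕ)
    (T : Finset (ℤ × ℤ)) : Prop :=
  ∃ κ ⊆ T, κ ⊆ (env X ω hω t).E ∪ (env X ω hω t).W ∧
    (OkG r κ (vx (env X ω hω t).α) (env X ω hω t) ∨ (∀ k ≤ t, plab (X.cor ω k) ∉ κ) ∧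
      ∃ (P : Finset (ℤ × ℤ)) (g g' p : ℤ × ℤ), Gate X.W κ (env X ω hω t) P g g' ∧ Small P r p ∧
        Near r p (vx g) ∧ Near r p (vx g') ∧
        (∀ c, plab c ∈ P → Co (P ∪ κ) (vx c) (vx X.β)) ∧
        ¬ (Co X.W (vx X.β) (vx g) ∧ ClJ X (fi X.α) (fi g')))

theorem ok_of_gateAt {X : DEnv} (hI : Inv X) {ω : Finset (ℤ × ℤ)} (hω : ω ⊆ X.E) {t : ℕ}
    (ht : t ≤ X.len ω) {T : Finset (ℤ × ℤ)} {κ : ℤ} (hκ : 0 ≤ κ) (hG : GateAt κ X ω hω t T)
    {R r1 r2 : ℤ} (hR : 0 < R) (hr1 : R + (2 * κ + 2) + 1 ≤ r1) (h12 : r1 < r2) {m : ℕ}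
    (hm : ∀ i s, s ≤ t → Mac R i s (X.cor ω) → i ≤ m)
    (hbad : ∀ i ≤ m, ¬ BadM X R (2 * κ + 2) r1 r2 i ω) {ρ : ℤ}
    (hρ : 2 * (r2 + R + κ + 2) ≤ ρ) : Ok ρ T (env X ω hω t) := by
  obtain ⟨τ, hτT, hτ, h⟩ := hG
  have hα : (env X ω hω t).α = X.cor ω t := env_α hω ht
  refine ⟨τ, hτT, hτ, ?_⟩
  rcases h with h | ⟨hτt, P, g, g', p, hGate, hs, hg, hg', hco, hno⟩
  · left
    obtain ⟨σ, h1, h2, h3⟩ := h
    exact ⟨σ, h1, fun c hc => (h2 c hc).mono (by omega), h3⟩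
  by_cases hPt : plab (X.cor ω t) ∈ P
  · left
    refine ⟨P, hGate.sub.trans subset_union_left, fun c hc => ?_, ?_⟩
    · rw [hα]
      exact (near_trans (near_symm (hs _ hPt)) (hs c hc)).mono (by omega)
    · rw [hα]
      exact hco _ hPt
  · right
    obtain ⟨h1, b, h2⟩ := gate_loc hI hω ht hGate hPt hτt hκ hs hg hg' hno hR hr1 h12 hm hbad
    refine ⟨P, hGate.sub, fun c hc => ⟨?_, hco c hc⟩, ?_⟩
    · rw [hα]
      exact (near_trans (near_symm h1) (hs c hc)).mono (by omega)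
    · have key : ∀ η, η ⊆ (env X ω hω t).E → ∀ i < (env X ω hω t).len η,
          (∀ k ≤ i, plab ((env X ω hω t).cor η k) ∉ P ∪ τ) →
          bad b (env X ω hω t) (plab ((env X ω hω t).cor η i)) →
          Near ρ (vx (env X ω hω t).α) (vx ((env X ω hω t).cor η i)) := by
        intro η hη i hi hav hbd
        rw [hα]
        have h3 := h2 η hη i hi (fun k hk h4 => hav k hk.le (mem_union_left _ h4))
          (fun k hk h4 => hav k hk (mem_union_right _ h4)) hbd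
        exact (near_trans (near_symm h1) h3).mono (by omega)
      cases b with
      | true => exact Or.inl key
      | false => exact Or.inr key

/-! ### From the lattice to the plane -/

lemma dist_of_far {δ : ℝ} (hδ : 0 < δ) {R : ℤ} {u v : ℤ × ℤ} (h : Far R u v) :
    δ * R ≤ dist (pt δ v) (pt δ u) := by
  have key : ∀ x y : ℤ, R ≤ |y - x| → δ * R ≤ |δ * (y : ℝ) - δ * x| := by
    intro x y hxy
    have h1 : (R : ℝ) ≤ |(y : ℝ) - x| := by exact_mod_cast hxy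
    rw [← mul_sub, abs_mul, abs_of_pos hδ]
    exact mul_le_mul_of_nonneg_left h1 hδ.le
  rw [dist_eq_norm]
  rcases h with h | h
  · refine (key _ _ h).trans ?_
    have := Complex.abs_re_le_norm (pt δ v - pt δ u)
    simpa [pt] using this
  · refine (key _ _ h).trans ?_
    have := Complex.abs_im_le_norm (pt δ v - pt δ u)
    simpa [pt] using this

/-! ### The statements -/

section

variable {D : Set ℂ} {a b : ℂ} {A₁ A₂ : Set ℂ}

/-- The time `t` is after the family `C` is met and before the barrier is met. -/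
def Mid {A : Approx D a b A₁ A₂} {r0 : ℝ} (B : Base A r0) (C : Finset Cell) (n : ℕ)
    (ω : Finset (ℤ × ℤ)) (t : ℕ) : Prop :=
  t ≤ (X0 A n).len ω ∧
    (∃ u < t, plab ((X0 A n).cor ω u) ∈ star (Vn (A.δ n) B.o C)) ∧
    ∀ u < t, plab ((X0 A n).cor ω u) ∉ star (B.N n)

/-- **[GATE]** Small gates (deterministic). -/
def StGate (A : Approx D a b A₁ A₂) : Prop :=
  ∀ ε > 0, ∃ r0 > 0, ∀ B : Base A r0, ∀ (k1 : ℕ) (C : Finset Cell), Fam B k1 C →
    ∃ k00, ∀ k0, k00 ≤ k0 → ∀ᶠ n in atTop, ∀ (ω : Finset (ℤ × ℤ)) (hω : ω ⊆ (X0 A n).E) (t : ℕ),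
      Mid B C n ω t → GateAt ⌊ε / A.δ n⌋ (X0 A n) ω hω t
        (star (B.F k0 n (env (X0 A n) ω hω t).E))

/-- elementary estimate for the scales -/
lemma scales {r δ : ℝ} (hr : 0 < r) (hδ : 0 < δ) {k : ℕ} (hδr : δ * (10000 * 4 ^ k) ≤ r)
    {R κ : ℤ} (hR : R = ⌈r / 100 / δ⌉) (hκ : κ = ⌊r / (1000 * 4 ^ k) / δ⌋) :
    2 * ((4 * ((4 ^ k * (2 * κ + 2 + 2) + 1 + R) + 2) + 1) + R + κ + 2) ≤ ⌊r / δ⌋ := by
  have h4 : (1 : ℝ) ≤ 4 ^ k := one_le_pow₀ (by norm_num)
  have h40 : (0 : ℝ) < 4 ^ k := by positivity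
  rw [Int.le_floor]
  push_cast
  have hR' : (R : ℝ) ≤ r / 100 / δ + 1 := by rw [hR]; exact (Int.ceil_lt_add_one _).le
  have hκ' : (κ : ℝ) ≤ r / (1000 * 4 ^ k) / δ := by rw [hκ]; exact Int.floor_le _
  set x := r / δ with hx
  have hx1 : 10000 * (4 : ℝ) ^ k ≤ x := by
    rw [hx, le_div_iff₀ hδ]; linarith
  have e1 : r / 100 / δ = x / 100 := by rw [hx]; ring
  have e2 : r / (1000 * 4 ^ k) / δ = x / (1000 * 4 ^ k) := by rw [hx]; field_simp
  rw [e1] at hR'
  rw [e2] at hκ'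
  have h5 : (4 : ℝ) ^ k * κ ≤ x / 1000 := by
    have := mul_le_mul_of_nonneg_left hκ' h40.le
    have e3 : (4 : ℝ) ^ k * (x / (1000 * 4 ^ k)) = x / 1000 := by field_simp
    rwa [e3] at this
  have h6 : (κ : ℝ) ≤ x / 1000 := by
    refine hκ'.trans ?_
    have hx0 : 0 ≤ x := by linarith
    apply div_le_div_of_nonneg_left hx0 (by norm_num)
    linarith
  have e4 : 2 * ((4 * (((4 : ℝ) ^ k * (2 * κ + 2 + 2) + 1 + R) + 2) + 1) + R + κ + 2) =
      16 * (4 ^ k * κ) + 32 * 4 ^ k + 10 * R + 2 * κ + 30 := by ring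
  rw [e4]
  linarith

theorem stOk_of_stGate (hD : Bornology.IsBounded D) (hne : D.Nonempty)
    (hA : IsArcs D a b A₁ A₂) (A : Approx D a b A₁ A₂) (hG : StGate A) : StOk A := by
  classical
  intro r hr θ hθ
  obtain ⟨δ0, hDec⟩ := dec_half
  have hδ0 := (hDec 0).2.1
  have hδ1 := (hDec 0).2.2.1
  obtain ⟨m, hm⟩ := pieces_bound_Pr hD hne hA A (ρ := r / 100) (by positivity) (ε := θ / 2)
    (by positivity)
  have hlog : 0 ≤ Real.log (1 / δ0) := Real.log_nonneg (by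
    rw [one_div]; exact (one_le_inv₀ hδ0).2 hδ1.le)
  obtain ⟨k, hk⟩ : ∃ k : ℕ, ((m : ℝ) + 1) * (2 * ((1 - δ0) ^ k * Real.log (1 / δ0))) ≤ θ / 2 := by
    have hc : 0 < ((m : ℝ) + 1) * 2 * (Real.log (1 / δ0) + 1) := by positivity
    obtain ⟨k, hk⟩ := exists_pow_lt_of_lt_one
      (show 0 < θ / 2 / (((m : ℝ) + 1) * 2 * (Real.log (1 / δ0) + 1)) by positivity)
      (by linarith : 1 - δ0 < 1)
    refine ⟨k, ?_⟩
    rw [lt_div_iff₀ hc] at hk
    have h0 : 0 ≤ (1 - δ0) ^ k := pow_nonneg (by linarith) k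
    have h1 : 0 ≤ ((m : ℝ) + 1) * 2 * (1 - δ0) ^ k := by positivity
    nlinarith
  obtain ⟨r0, hr0, hB⟩ := hG (r / (1000 * 4 ^ k)) (by positivity)
  refine ⟨r0, hr0, fun B k1 C hF => ?_⟩
  obtain ⟨k00, hk00⟩ := hB B k1 C hF
  refine ⟨k00, fun k0 hk0 => ?_⟩
  have e2 : ∀ᶠ n in atTop, A.δ n < r / (10000 * 4 ^ k) :=
    A.lim.eventually_lt_const (by positivity)
  filter_upwards [hk00 k0 hk0, hm, e2] with n h1 h2 h3
  have hδ := A.pos n
  have h3' : A.δ n * (10000 * 4 ^ k) ≤ r := by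
    rw [lt_div_iff₀ (by positivity)] at h3
    exact h3.le
  set δ := A.δ n with hδd
  set R : ℤ := ⌈r / 100 / δ⌉ with hR
  set κ : ℤ := ⌊r / (1000 * 4 ^ k) / δ⌋ with hκ
  have hRpos : 0 < R := by rw [hR]; exact Int.ceil_pos.2 (by positivity)
  have hκ0 : 0 ≤ κ := by rw [hκ]; exact Int.floor_nonneg.2 (by positivity)
  have h4 : (1 : ℤ) ≤ 4 ^ k := one_le_pow₀ (by norm_num)
  set r1' : ℤ := 4 ^ k * (2 * κ + 2 + 2) + 1 + R with hr1'
  set r2' : ℤ := 4 * (r1' + 2) + 1 with hr2'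
  have hr1pos : 0 ≤ r1' := by positivity
  have hbound := scales hr hδ h3' hR hκ
  rw [← hr1', ← hr2'] at hbound
  set N : ℤ := max (4 ^ k * (2 * κ + 2 + 2)) (4 * (r1' + 2)) with hN
  have hE : ∀ e ∈ (X0 A n).E, (e.1 + e.2) % 2 = 1 := Pool.Agent.H28.Q1.odd_toDEnv _
  have hbadP := badM_union (hDec N) (X := X0 A n) hE (R := R) (r := 2 * κ + 2) (r1 := r1')
    (r2 := r2') (k := k) (by omega) hr1pos (le_max_left _ _) (le_max_right _ _) le_rfl le_rfl m
  rw [PrP_half] at hbadP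
  have hEL : (X0 A n).E = Pool.Agent.H69.Q1.EL (A.X n) := toDEnv_E _
  rw [← hEL] at h2
  refine le_trans (Pool.Agent.H75.Perc.Pr_mono (B := fun ω =>
    Seq (fun a b => r / 100 ≤ dist
        (pt (A.δ n) (vx ((A.X n).toDEnv.cor ω b))) (pt (A.δ n) (vx ((A.X n).toDEnv.cor ω a))))
        m ((A.X n).toDEnv.len ω) ∨ ∃ i ≤ m, BadM (X0 A n) R (2 * κ + 2) r1' r2' i ω)
      fun ω hω h => ?_) ((Pool.Agent.H75.Perc.Pr_or_le _ _ _).trans ?_)
  · by_contra hcon
    rw [not_or] at hcon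
    obtain ⟨hc1, hc2⟩ := hcon
    push Not at hc2
    obtain ⟨hω', t, ht, hMid1, hMid2, hOk⟩ := h
    have hMid : Mid B C n ω t := ⟨ht, hMid1, hMid2⟩
    apply hOk
    refine ok_of_gateAt (Pool.Agent.H28.Q1.inv_toDEnv _) hω' hMid.1 hκ0 (h1 ω hω' t hMid) hRpos
      (r1 := r1') (r2 := r2') ?_ ?_ (m := m) ?_ hc2 hbound
    · have : 2 * κ + 2 + 2 ≤ 4 ^ k * (2 * κ + 2 + 2) := le_mul_of_one_le_left (by omega) h4
      omega
    · omega
    · intro i s hs hMac
      by_contra hcon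
      push Not at hcon
      apply hc1
      have hle := hMid.1
      refine Seq.le hcon.le (Seq.mono_N (hs.trans hle) (seq_of_mac (fun u v _ huv => ?_) i hMac))
      refine le_trans ?_ (dist_of_far hδ huv)
      have := Int.le_ceil (r / 100 / δ)
      rw [div_le_iff₀ hδ] at this
      rw [hR]
      linarith
  · linarith

end

end Pool.Agent.H43.Q1
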