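import Mathlib
import Pool.Agent.H43.Q1.Sperner
import Pool.Agent.H43.Q1.StOk
import Pool.Agent.H42.Q1.Nx

set_option autoImplicit false
open Finset

/-! # Not both ends of the gate are original

`not_orig` : if at an earlier time the tip is joined to the target by labels which avoid the dual side
of the gate, then not both ends of the gate are original. `gateAt_of_typed` : the final form: types of
the labels around `K`, a connected set of free vertices `V` joined to `K` and met by the path, and no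
original gate of the given size near `V`. -/

namespace Pool.Agent.H43.Q1

open Pool.Agent.H75.Perc Pool.Agent.H75.TwoArm Pool.Agent.H75.Four Pool.Agent.H99.NC
open Pool.Agent.H69.Q1 Pool.Agent.H39.Q1 Pool.Agent.H28.Q1
open Pool.Agent.H69.Q1.DEnv (steps adapted_steps)
open Pool.Agent.H75.TwoArm.SymmAux (pvO pvC pv_eq)
open Pool.Agent.Q1.M3 (star kap mem_star_iff mem_kap_iff)

/-- every label has a corner -/
lemma exists_corner {e : ℤ × ℤ} (he : (e.1 + e.2) % 2 = 1) : ∃ c, plab c = e := by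
  obtain ⟨c, -, h2, -⟩ := exists_vx (v := eu e) (v' := ev e) (e := e)
    (Pool.Agent.H42.Q1.eu_ev_step he).1 (Pool.Agent.H42.Q1.eu_ev_step he).2
  exact ⟨c, h2⟩

/-- the end of a connection is the end of a label -/
lemma co_end {L : Finset (ℤ × ℤ)} {a b : ℤ × ℤ} (h : Co L a b) :
    b = a ∨ ∃ c, vx c = b ∧ plab c ∈ L := by
  rcases Relation.ReflTransGen.cases_tail h with h | ⟨d, -, h1⟩
  · exact Or.inl h
  · right
    obtain ⟨c, hc1, hc2, hc3⟩ := exists_vx h1.1 rfl
    exact ⟨oc c, hc3, by rw [plab_oc, hc2]; exact h1.2⟩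

section

variable {X : DEnv}

/-- A corner next to a free label or visited by an exploration is not on the back contour. -/
lemma Vis.not_back (hI : Inv X) (hne : X.α ≠ X.β) {c : ℤ × ℤ} (h : Vis X c) :
    ¬ Back X.W X.α X.β c := by
  rcases h with h | ⟨ζ, hζ, i, hi, rfl⟩
  · rintro ⟨j, hj, h5, h6⟩
    obtain ⟨m, hm0, h1, h2, h3, -⟩ := hI.back
    have hjm : j < m := by
      by_contra hcon
      push Not at hcon
      exact h6 m hm0 hcon h1
    rcases h with h | h
    · refine h3 (j - 1) (by omega) ?_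
      have h7 : (pv X.W)^[j] X.β = pv X.W ((pv X.W)^[j - 1] X.β) := by
        rw [← Function.iterate_succ_apply' (pv X.W) (j - 1)]
        congr 1
        omega
      rw [h7] at h5
      rw [← h5, lab_pv] at h
      exact h
    · rw [← h5] at h
      exact h3 j hjm h
  · intro h
    have h1 := ((X.visited_iff hζ hne).1 ⟨i, by omega, rfl⟩).2
    exact h1 ((hI.back_iff hζ).2 h)

/-- **A corner on both sides.** `P` joins `vx α` to `vx β`; if the vertex of `c` is in the wired
cluster, its face is joined to the face of `α` by labels off `P ∪ W`, and `c` is not on the back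
contour, then its vertex is joined to `vx α` in `P`. -/
lemma joined_nb (hI : Inv X) (hne : X.α ≠ X.β) {P : Finset (ℤ × ℤ)} (hP : P ⊆ X.E ∪ X.W)
    (hco : Co P (vx X.α) (vx X.β)) {c : ℤ × ℤ} (hc : ¬ Back X.W X.α X.β c)
    (hv : Co X.W (vx X.β) (vx c)) {F : Finset (ℤ × ℤ)}
    (hf : Co (du F (P ∪ X.W)) (fi X.α) (fi c)) : Co P (vx X.α) (vx c) := by
  have hω : P ∩ X.E ⊆ X.E := inter_subset_right
  have hωW : (P ∩ X.E) ∪ X.W = P ∪ X.W := by
    ext e
    simp only [mem_union, mem_inter]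
    constructor
    · rintro (h | h)
      · exact Or.inl h.1
      · exact Or.inr h
    · rintro (h | h)
      · rcases mem_union.1 (hP h) with h1 | h1
        · exact Or.inl ⟨h, h1⟩
        · exact Or.inr h1
      · exact Or.inr h
  have hv' : Co ((P ∩ X.E) ∪ X.W) (vx X.α) (vx c) := by
    rw [hωW]
    exact (hI.co_W.symm.trans hv).mono subset_union_right
  rw [← hωW] at hf
  have hO : InOrb (pv ((P ∩ X.E) ∪ X.W)) X.α c := inOrb_pv_iff.2 (inOrb_of_co _ hv' hf)
  have hnb : ¬ Back ((P ∩ X.E) ∪ X.W) X.α X.β c := fun h => hc ((hI.back_iff hω).1 h)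
  obtain ⟨i, hi, hic⟩ := (X.visited_iff hω hne).2 ⟨hO, hnb⟩
  have h1 := X.side_open (P ∩ X.E) (Nat.zero_le i)
  rw [hic, X.cor_zero] at h1
  refine h1.mono fun e he => ?_
  rw [mem_inter, mem_union] at he
  rcases he.1 with h2 | h2
  · exact (mem_inter.1 h2).1
  · obtain ⟨k, hk, rfl⟩ := X.mem_metE.1 he.2
    refine hI.no_wired' hω (P := P) ?_ hco (i := k) (by omega) h2
    intro p hp
    rw [hωW]
    exact mem_union_left _ hp

section

variable {ω : Finset (ℤ × ℤ)} (hω : ω ⊆ X.E)

/-- visibility at a later time implies visibility at an earlier time -/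
lemma Vis.earlier {u t : ℕ} (hut : u ≤ t) (ht : t ≤ X.len ω) {g : ℤ × ℤ}
    (h : Vis (env X ω hω t) g) : Vis (env X ω hω u) g := by
  have hu : u ≤ X.len ω := hut.trans ht
  rcases h with h | ⟨ζ, hζ, i, hi, hg⟩
  · have hE := (env_mono hω hut ht).1
    exact Or.inl (h.imp (fun h1 => hE h1) (fun h1 => hE h1))
  · right
    have hlen := env_len hω hu
    have e1 : env (env X ω hω u) (ω \ X.exset (steps u) ω) (rest_sub hω) (t - u) =
        env X ω hω t := env_env' hω hut ht
    rw [← e1] at hζ hi hg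
    obtain ⟨m1, -, m3, m4⟩ := env_cor' (X := env X ω hω u) (ω := ω \ X.exset (steps u) ω)
      (rest_sub hω) (u := t - u) (by omega) hζ
    refine ⟨_, m1, i + (t - u), by omega, ?_⟩
    rw [← m3, hg]

/-- **Not both ends are original.** -/
theorem not_orig (hI : Inv X) {t : ℕ} (ht : t ≤ X.len ω) {K κ P Dd : Finset (ℤ × ℤ)} {g g' : ℤ × ℤ}
    (hG : GateK (env X ω hω t) K X.W κ P Dd g g') {u : ℕ} (hut : u < t) {Pp : Finset (ℤ × ℤ)}
    (hPp : Pp ⊆ (env X ω hω u).E ∪ (env X ω hω u).W)
    (hco : Co Pp (vx (X.cor ω u)) (vx X.β)) (hDd : ∀ l ∈ Dd, l ∉ Pp)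
    (hg : ¬ Co Pp (vx (X.cor ω u)) (vx g)) :
    ¬ (Co X.W (vx X.β) (vx g) ∧ ClJ X (fi X.α) (fi g')) := by
  rintro ⟨hA, hL⟩
  have hu : u ≤ X.len ω := by omega
  set Z := env X ω hω u with hZ
  have hIZ : Inv Z := hI.after (adapted_steps _) hω
  have hZα : Z.α = X.cor ω u := env_α hω hu
  have hne : Z.α ≠ Z.β := by
    rw [hZα]
    exact X.cor_ne (by omega)
  have hnb := (hG.vis.earlier hω hut.le ht).not_back hIZ hne
  have hWZ : X.W ⊆ Z.W := fun e he => (mem_env_W hω hu).2 (Or.inl he)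
  -- the closed side
  have h1 : ClJ Z (fi Z.α) (fi g') := by
    rw [hZα]
    have h2 : ClJ (env X ω hω 0) (fi (X.cor ω 0)) (fi g') := by
      obtain ⟨F, hF⟩ := hL
      refine ⟨F, ?_⟩
      rw [X.cor_zero]
      refine hF.mono (du_anti ?_)
      exact env_EW_sub hω (Nat.zero_le _)
    have h3 : ClJ Z (fi (X.cor ω 0)) (fi g') := clJ_env_mono hω (Nat.zero_le u) hu h2
    exact (clJ_path hω (Nat.zero_le u) hu).symm.trans h3
  obtain ⟨F, hF⟩ := h1
  -- the dual side of the gate
  have hsub : Dd.map sh1 ⊆ du Dd (Pp ∪ Z.W) := by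
    intro e he
    obtain ⟨l, hl, rfl⟩ := mem_map.1 he
    unfold du
    refine mem_map.2 ⟨l, mem_sdiff.2 ⟨hl, ?_⟩, rfl⟩
    rw [mem_union, not_or]
    refine ⟨hDd l hl, fun h2 => ?_⟩
    have h3 : l ∈ Z.E := (env_mono hω hut.le ht).1 (hG.gate.sub (hG.ddP hl))
    exact disjoint_left.1 Z.disj h3 h2
  have hf : Co (du (F ∪ Dd) (Pp ∪ Z.W)) (fi Z.α) (fi g) := by
    refine (hF.mono ((du_anti (union_subset hPp subset_union_right)).trans
      (du_mono_left subset_union_left))).trans ?_
    exact (hG.dd.mono (hsub.trans (du_mono_left subset_union_right))).symm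
  refine hg ?_
  rw [← hZα]
  exact joined_nb hIZ hne hPp (by rw [hZα]; exact hco) hnb (hA.mono hWZ) hf

/-- **Final form.** -/
theorem gateAt_of_typed (hI : Inv X) {t : ℕ} (ht : t ≤ X.len ω) {K T V : Finset (ℤ × ℤ)}
    (hKT : star K ⊆ T) (hK : ∀ u ∈ K, ∀ v ∈ K, Co (kp (env X ω hω t) K) u v)
    (hβ : vx X.β ∈ K) (hmet : ∀ k < t, plab (X.cor ω k) ∉ star K)
    (hVE : star V ⊆ X.E) (hVK : ∀ v ∈ V, ∃ w ∈ K, Co (kap V) v w)
    (hVt : ∃ u < t, plab (X.cor ω u) ∈ star V)
    {ρ ρb : ℤ} (hρ : 0 ≤ ρ) (hρb : 0 ≤ ρb) {pb : ℤ × ℤ}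
    (htyp : ∀ c, vx c ∈ K → vx (oc c) ∉ K → plab c ∈ (env X ω hω t).E →
      HalfA (env X ω hω t) K ρ (plab c) ∨ HalfL (env X ω hω t) K ρ (plab c) ∨
        Near ρb pb (vx c))
    (hloc : ∀ (κ P Dd : Finset (ℤ × ℤ)) (g g' p : ℤ × ℤ) (r : ℤ),
      GateK (env X ω hω t) K X.W κ P Dd g g' → (r = ρ + 3 ∨ (r = ρb + ρ + 3 ∧ p = pb)) →
      Small P r p → Near r p (vx g) → Near r p (vx g') → Co X.W (vx X.β) (vx g) →
      ClJ X (fi X.α) (fi g') → ∀ v ∈ V, ¬ Near (r + 1) p v)
    {r : ℤ} (hr1 : ρ + 3 ≤ r) (hr2 : ρb + ρ + 3 ≤ r) : GateAt r X ω hω t T := by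
  classical
  set Y := env X ω hω t with hY
  have hIY : Inv Y := hI.after (adapted_steps _) hω
  have hYα : Y.α = X.cor ω t := env_α hω ht
  have hYβ : Y.β = X.β := rfl
  have hkpT : kp Y K ⊆ T := (inter_subset_left.trans (kap_sub_star K)).trans hKT
  have hkpEW : kp Y K ⊆ Y.E ∪ Y.W := inter_subset_right
  by_cases hα : vx Y.α ∈ K
  · refine ⟨kp Y K, hkpT, hkpEW, Or.inl ⟨∅, empty_subset _, fun c hc => absurd hc
      (notMem_empty _), ?_⟩⟩
    rw [empty_union]
    exact hK _ hα _ hβ
  by_cases hadj : plab Y.α ∈ star K ∧ plab Y.α ∈ Y.E ∪ Y.W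
  · refine ⟨kp Y K, hkpT, hkpEW, Or.inl ⟨{plab Y.α}, ?_, ?_, ?_⟩⟩
    · intro e he
      rw [mem_singleton] at he
      rw [he]
      exact hadj.2
    · intro c hc
      rw [mem_singleton] at hc
      exact (near_of_plab hc).mono (by omega)
    · have h1 := (mem_star_plab.1 hadj.1).resolve_left hα
      have h2 : Co ({plab Y.α} ∪ kp Y K) (vx Y.α) (vx (oc Y.α)) :=
        co_step_v (mem_union_left _ (mem_singleton_self _))
      exact h2.trans ((hK _ h1 _ hβ).mono subset_union_right)
  have hW0 : ∀ e ∈ star K, e ∈ Y.W → e ∈ X.W := by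
    intro e he hW
    rcases (mem_env_W hω ht).1 hW with h | ⟨-, k, hk, h⟩
    · exact h
    · exact absurd (h ▸ he) (hmet k hk)
  obtain ⟨κ, P, Dd, g, g', p, r', hκ, hκEW, hG, hr', hs, hg, hg'⟩ :=
    gate_of_ring hIY hK hβ hα hW0 hρ hρb htyp
  have hr'r : r' ≤ r := by rcases hr' with h | ⟨h, -⟩ <;> omega
  refine ⟨κ, hκ.trans hKT, hκEW, Or.inr ⟨?_, P, g, g', p, hG.gate, fun c hc => (hs c hc).mono hr'r,
    hg.mono hr'r, hg'.mono hr'r, hG.joined, ?_⟩⟩
  · intro k hk h
    rcases Nat.lt_or_ge k t with h1 | h1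
    · exact hmet k h1 (hκ h)
    · have h2 : k = t := by omega
      rw [h2, ← hYα] at h
      exact hadj ⟨hκ h, hκEW h⟩
  · intro horig
    have hfar := hloc κ P Dd g g' p r' hG hr' hs hg hg' horig.1 horig.2
    -- the first time at which the star of `V` is met
    obtain ⟨u, ⟨hut, hu⟩, hmin⟩ : ∃ u, (u < t ∧ plab (X.cor ω u) ∈ star V) ∧
        ∀ k < u, ¬ (k < t ∧ plab (X.cor ω k) ∈ star V) :=
      ⟨Nat.find hVt, Nat.find_spec hVt, fun k hk => Nat.find_min hVt hk⟩
    have hul : u ≤ X.len ω := by omega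
    set ℓ := plab (X.cor ω u) with hℓ
    set Z := env X ω hω u with hZ
    have hfresh : star V ⊆ Z.E := by
      intro e he
      rw [hZ, mem_env_E hω hul]
      exact ⟨hVE he, fun k hk h => hmin k hk ⟨by omega, h ▸ he⟩⟩
    set Pp : Finset (ℤ × ℤ) := ({ℓ} ∪ kap V) ∪ kp Y K with hPp
    have hPpsub : Pp ⊆ Z.E ∪ Z.W := by
      refine union_subset (union_subset ?_ ?_) ?_
      · intro e he
        rw [mem_singleton] at he
        rw [he]
        exact mem_union_left _ (hfresh hu)
      · exact ((kap_sub_star V).trans hfresh).trans subset_union_left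
      · exact hkpEW.trans (env_mono hω hut.le ht).2.2
    have hVβ : ∀ v ∈ V, Co Pp v (vx X.β) := by
      intro v hv
      obtain ⟨w, hw, hco⟩ := hVK v hv
      exact (hco.mono (subset_union_right.trans subset_union_left)).trans
        ((hK w hw _ hβ).mono subset_union_right)
    have hco : Co Pp (vx (X.cor ω u)) (vx X.β) := by
      rcases mem_star_plab.1 hu with h | h
      · exact hVβ _ h
      · exact (co_step_v (mem_union_left _ (mem_union_left _ (mem_singleton_self _)))).trans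
          (hVβ _ h)
    refine not_orig hω hI ht hG hut hPpsub hco ?_ ?_ horig
    · intro l hl h
      have hlE : l ∈ Y.E := hG.gate.sub (hG.ddP hl)
      rcases mem_union.1 h with h1 | h1
      · rcases mem_union.1 h1 with h2 | h2
        · rw [mem_singleton] at h2
          exact ((mem_env_E hω ht).1 hlE).2 u hut h2.symm
        · obtain ⟨c, hc⟩ := exists_corner (Pool.Agent.Q1.M3.odd_star (kap_sub_star V h2))
          rw [← hc] at h2 hl
          exact hfar _ (mem_kap_plab.1 h2).1 ((hs c (hG.ddP hl)).mono (by omega))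
      · exact hG.off l hl (mem_kp.1 h1).1
    · intro h
      obtain ⟨c, hc1, hc2⟩ : ∃ c, vx c = vx g ∧ plab c ∈ Pp := by
        rcases co_end h with h1 | h1
        · exact ⟨X.cor ω u, h1.symm,
            mem_union_left _ (mem_union_left _ (mem_singleton_self _))⟩
        · exact h1
      rcases mem_union.1 hc2 with h1 | h1
      · rcases mem_union.1 h1 with h2 | h2
        · rw [mem_singleton] at h2
          have h3 := hu
          rw [← h2, mem_star_plab] at h3
          rcases h3 with h3 | h3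
          · rw [hc1] at h3
            exact hfar _ h3 (hg.mono (by omega))
          · refine hfar _ h3 ?_
            rw [← hc1] at hg
            exact near_trans hg (near_oc c)
        · have h3 := (mem_kap_plab.1 h2).1
          rw [hc1] at h3
          exact hfar _ h3 (hg.mono (by omega))
      · have h3 := (mem_kap_plab.1 (mem_kp.1 h1).1).1
        rw [hc1] at h3
        exact hG.gK h3

end

end

end Pool.Agent.H43.Q1
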