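import Mathlib
import Pool.Agent.H43.Q1.Excl
import Pool.Agent.H28.Q1.Refine

set_option autoImplicit false
open Finset Filter Topology

/-! # The original wired cluster is near the arc `A₁`

`wired_near` : the vertices of the wired cluster at time `0` are near `A₁`. `orig_far` : they are far
from the cells of a family with closures in `D`. -/

namespace Pool.Agent.H43.Q1

open Pool.Agent.H75.Perc Pool.Agent.H75.TwoArm Pool.Agent.H75.Four Pool.Agent.H99.NC
open Pool.Agent.H69.Q1 Pool.Agent.H39.Q1 Pool.Agent.H28.Q1 Pool.Agent.H65.Dom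
open Pool.Agent.H81.Q1 (pt DDomain Approx IsJordanDomain IsArcs toDEnv_E toDEnv_W toDEnv_β
  Corner)
open Pool.Agent.Q1.M3

variable {D : Set ℂ} {a b : ℂ} {A₁ A₂ : Set ℂ}

/-- the end of a wired label is near a corner of the wired contour -/
lemma wired_end (X : DDomain) {c : ℤ × ℤ} (h : plab c ∈ X.toDEnv.W) {δ : ℝ} (hδ : 0 < δ) :
    ∃ c' ∈ X.wired, dist (pt δ (vx c)) (pt δ c'.1) ≤ δ := by
  obtain ⟨c1, hc1⟩ := cor_surjective c
  rw [← hc1, plab_cor, toDEnv_W, Pool.Agent.H69.Q1.mem_WL] at h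
  obtain ⟨e, he, h1⟩ := h
  obtain ⟨c2, hc2, -, h2⟩ := he.2
  have h3 : e = c1.edge := lb_injOn (edges_sub _ (X.subE he.1))
    (Pool.Agent.H69.Q1.corner_edge_mem c1) h1
  refine ⟨c2, hc2, ?_⟩
  rw [← hc1, vx_cor]
  have h4 : c1.1 ∈ c2.edge := by
    rw [← h2, h3]
    unfold Pool.Agent.H81.Q1.Corner.edge
    exact Sym2.mem_mk_left _ _
  unfold Pool.Agent.H81.Q1.Corner.edge at h4
  rw [Sym2.mem_iff] at h4
  rcases h4 with h4 | h4
  · rw [h4, dist_self]
    exact hδ.le
  · rw [h4, Pool.Agent.H57.Q1.pt_add, dist_eq_norm, add_sub_cancel_left,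
      Pool.Agent.H57.Q1.norm_pt_dir δ hδ]

/-- **The wired cluster is near `A₁`.** -/
theorem wired_near (A : Approx D a b A₁ A₂) {d : ℝ} (hd : 0 < d) :
    ∀ᶠ n in atTop, ∀ v, Co (X0 A n).W (vx (X0 A n).β) v →
      Metric.infDist (pt (A.δ n) v) A₁ < d := by
  have e1 := A.wired (d / 2) (by positivity)
  have e2 : ∀ᶠ n in atTop, A.δ n < d / 2 := A.lim.eventually_lt_const (by positivity)
  filter_upwards [e1, e2] with n h1 h2 v hv
  have hδ := A.pos n
  have key : ∃ c' ∈ (A.X n).wired, dist (pt (A.δ n) v) (pt (A.δ n) c'.1) ≤ A.δ n := by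
    rcases co_end hv with h | ⟨c, hc, hcW⟩
    · refine ⟨(A.X n).β, ⟨0, fun j hj => absurd hj (by omega), rfl⟩, ?_⟩
      rw [h]
      change dist (pt (A.δ n) (vx (A.X n).toDEnv.β)) _ ≤ _
      rw [toDEnv_β, vx_cor, dist_self]
      exact hδ.le
    · rw [← hc]
      exact wired_end _ hcW hδ
  obtain ⟨c', hc', hdist⟩ := key
  have h3 := h1 c' hc'
  have h4 := Metric.infDist_le_infDist_add_dist (s := A₁) (x := pt (A.δ n) v)
    (y := pt (A.δ n) c'.1)
  linarith

lemma isCompact_cfat (o : ℂ) (q : Cell) : IsCompact (cfat o q) := by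
  refine Metric.isCompact_of_isClosed_isBounded ?_ ?_
  · unfold cfat
    exact (isClosed_le continuous_const Complex.continuous_re).inter
      ((isClosed_le Complex.continuous_re continuous_const).inter
      ((isClosed_le continuous_const Complex.continuous_im).inter
      (isClosed_le Complex.continuous_im continuous_const)))
  · rw [Metric.isBounded_iff]
    exact ⟨_, fun x hx y hy => cfat_small hx hy⟩

/-- **Original wired vertices are far from the cells.** -/
theorem orig_far (hDo : IsOpen D) (hA : IsArcs D a b A₁ A₂) (A : Approx D a b A₁ A₂) (o : ℂ)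
    {C : Finset Cell} (hC : ∀ q ∈ C, cfat o q ⊆ D) :
    ∃ d > 0, ∀ᶠ n in atTop, ∀ (p v : ℤ × ℤ) (r : ℤ), A.δ n * r ≤ d → Near r p v →
      Co (X0 A n).W (vx (X0 A n).β) v → ∀ w ∈ Vn (A.δ n) o C, ¬ Near (r + 1) p w := by
  classical
  set K : Set ℂ := ⋃ q ∈ C, cfat o q with hK
  have hKc : IsCompact K := C.isCompact_biUnion fun q _ => isCompact_cfat o q
  have hdis : Disjoint K A₁ := by
    rw [Set.disjoint_left]
    intro z hz hz'
    obtain ⟨q, hq, hzq⟩ := Set.mem_iUnion₂.1 hz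
    have h1 : z ∈ frontier D := by rw [← hA.union]; exact Or.inl hz'
    rw [hDo.frontier_eq] at h1
    exact h1.2 (hC q hq hzq)
  obtain ⟨e, he, hdist⟩ : ∃ e > 0, ∀ x ∈ K, ∀ y ∈ A₁, e ≤ dist x y := by
    obtain ⟨e, he, h1⟩ := hdis.exists_thickenings hKc hA.closed₁
    refine ⟨e, he, fun x hx y hy => ?_⟩
    by_contra hcon
    push Not at hcon
    have h2 : y ∈ Metric.thickening e K := Metric.mem_thickening_iff.2 ⟨x, hx, by rwa [dist_comm]⟩
    have h3 : y ∈ Metric.thickening e A₁ :=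
      Metric.mem_thickening_iff.2 ⟨y, hy, by rw [dist_self]; exact he⟩
    exact Set.disjoint_left.1 h1 h2 h3
  refine ⟨e / 10, by positivity, ?_⟩
  have e2 : ∀ᶠ n in atTop, A.δ n < e / 10 := A.lim.eventually_lt_const (by positivity)
  filter_upwards [wired_near A (show 0 < e / 10 by positivity), e2] with n h1 h2
  intro p v r hr hpv hco w hw hpw
  have hδ := A.pos n
  have h3 := h1 v hco
  obtain ⟨y, hy, hy'⟩ := (Metric.infDist_lt_iff hA.conn₁.nonempty).1 h3
  obtain ⟨q, hq, hwq⟩ := mem_biUnion.1 hw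
  rw [mem_verts hδ] at hwq
  have h4 := hdist _ (Set.mem_iUnion₂.2 ⟨q, hq, fat_sub_cfat _ _ hwq⟩) y hy
  have h5 := dist_triangle (pt (A.δ n) w) (pt (A.δ n) v) y
  have h6 : dist (pt (A.δ n) w) (pt (A.δ n) v) ≤ A.δ n * (2 * (2 * r + 1)) := by
    have hnear : Near (r + 1 + r) w v := near_trans (near_symm hpw) hpv
    have h7 : |((v.1 - w.1 : ℤ) : ℝ)| ≤ ((2 * r + 1 : ℤ) : ℝ) := by
      have := hnear.1
      exact_mod_cast this.trans (by omega)
    have h8 : |((v.2 - w.2 : ℤ) : ℝ)| ≤ ((2 * r + 1 : ℤ) : ℝ) := by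
      have := hnear.2
      exact_mod_cast this.trans (by omega)
    push_cast at h7 h8
    rw [dist_eq_norm]
    refine (Complex.norm_le_abs_re_add_abs_im _).trans ?_
    have e3 : |(pt (A.δ n) w - pt (A.δ n) v).re| ≤ A.δ n * (2 * r + 1) := by
      have : (pt (A.δ n) w - pt (A.δ n) v).re = -(A.δ n * ((v.1 : ℝ) - w.1)) := by
        simp only [pt, Complex.sub_re]; ring
      rw [this, abs_neg, abs_mul, abs_of_pos hδ]
      exact mul_le_mul_of_nonneg_left h7 hδ.le
    have e4 : |(pt (A.δ n) w - pt (A.δ n) v).im| ≤ A.δ n * (2 * r + 1) := by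
      have : (pt (A.δ n) w - pt (A.δ n) v).im = -(A.δ n * ((v.2 : ℝ) - w.2)) := by
        simp only [pt, Complex.sub_im]; ring
      rw [this, abs_neg, abs_mul, abs_of_pos hδ]
      exact mul_le_mul_of_nonneg_left h8 hδ.le
    linarith
  nlinarith

end Pool.Agent.H43.Q1
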