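import Mathlib
import Pool.Agent.H43.Q1.Loc
import Pool.Agent.H42.Q1.Small

set_option autoImplicit false
open Finset Filter Topology

/-! # The set of vertices around which the contour is taken

`kset` : at a time `t` before the barrier is met there is a set `K` of vertices, connected by free or
wired labels, which contains the end of the path and the vertices of the visible cells, and which
otherwise only has vertices of the barrier near `b`. -/

namespace Pool.Agent.H43.Q1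

open Pool.Agent.H75.Perc Pool.Agent.H75.TwoArm Pool.Agent.H75.Four Pool.Agent.H99.NC
open Pool.Agent.H69.Q1 Pool.Agent.H39.Q1 Pool.Agent.H28.Q1 Pool.Agent.H65.Dom
open Pool.Agent.H81.Q1 (pt DDomain Approx IsJordanDomain IsArcs toDEnv_E toDEnv_W toDEnv_β
  Corner)
open Pool.Agent.Q1.M3
open Pool.Agent.H42.Q1 (route RB co_row' co_col' mesh_eq mesh_succ)

variable {D : Set ℂ} {a b : ℂ} {A₁ A₂ : Set ℂ}

/-! ### Moving inside a rectangle -/

lemma inner1 {δ η l h : ℝ} (hδ : 0 < δ) (hδη : δ ≤ η) (hlh : l + 7 * η ≤ h) {x : ℤ}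
    (h1 : l < δ * x) (h2 : δ * x < h) :
    ∃ x' : ℤ, l + 2 * η ≤ δ * x' ∧ δ * x' ≤ h - 2 * η ∧ |δ * x' - δ * x| ≤ 3 * η := by
  have hη : 0 < η := lt_of_lt_of_le hδ hδη
  have m1 := Int.le_ceil (2 * η / δ)
  have m2 := (Int.ceil_lt_add_one (2 * η / δ)).le
  rw [div_le_iff₀ hδ] at m1
  have m3 : δ * (⌈2 * η / δ⌉ : ℝ) ≤ 2 * η + δ := by
    have := mul_le_mul_of_nonneg_left m2 hδ.le
    rw [mul_add, mul_div_cancel₀ _ hδ.ne'] at this
    linarith
  by_cases c1 : δ * x < l + 2 * η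
  · refine ⟨x + ⌈2 * η / δ⌉, ?_, ?_, ?_⟩
    · push_cast; nlinarith
    · push_cast; nlinarith
    · push_cast
      rw [abs_le]
      constructor <;> nlinarith
  · by_cases c2 : h - 2 * η < δ * x
    · refine ⟨x - ⌈2 * η / δ⌉, ?_, ?_, ?_⟩
      · push_cast; nlinarith
      · push_cast; nlinarith
      · push_cast
        rw [abs_le]
        constructor <;> nlinarith
    · refine ⟨x, by linarith, by linarith, ?_⟩
      rw [sub_self, abs_zero]
      positivity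

lemma between {s t u : ℝ} {x x' y : ℤ} {δ : ℝ} (hδ : 0 < δ) (h1 : min x x' ≤ y)
    (h2 : y ≤ max x x') (hx : s < δ * x ∧ δ * x < t) (hx' : s < δ * x' ∧ δ * x' < t)
    (hu : |δ * x' - δ * x| ≤ u) : (s < δ * y ∧ δ * y < t) ∧ |δ * y - δ * x| ≤ u := by
  have k1 : min (δ * (x : ℝ)) (δ * x') ≤ δ * y := by
    rw [← mul_min_of_nonneg _ _ hδ.le]
    refine mul_le_mul_of_nonneg_left ?_ hδ.le
    exact_mod_cast h1
  have k2 : δ * y ≤ max (δ * (x : ℝ)) (δ * x') := by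
    rw [← mul_max_of_nonneg _ _ hδ.le]
    refine mul_le_mul_of_nonneg_left ?_ hδ.le
    exact_mod_cast h2
  rw [abs_le] at hu ⊢
  rcases min_le_iff.1 k1 with k1 | k1 <;> rcases le_max_iff.1 k2 with k2 | k2 <;>
    refine ⟨⟨?_, ?_⟩, ?_, ?_⟩ <;> linarith [hx.1, hx.2, hx'.1, hx'.2]

/-- From a vertex of a fat cell one can go to a vertex of a fine cell contained in it. -/
lemma inward {δ η : ℝ} (hδ : 0 < δ) (hδη : δ ≤ η) {o : ℂ} {q : Cell} (hq : 7 * η ≤ mesh q.1)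
    {k : ℕ} (hk : 4 * mesh k < 2 * η) {v : ℤ × ℤ} (hv : v ∈ verts δ o q) {K : Finset (ℤ × ℤ)}
    (hK : ∀ w ∈ verts δ o q, dist (pt δ w) (pt δ v) ≤ 6 * η → w ∈ K) :
    ∃ w, cfat o (core o k (pt δ w)) ⊆ fat o q ∧ Co (kap K) v w ∧
      dist (pt δ w) (pt δ v) ≤ 6 * η := by
  have hm := mesh_pos q.1
  obtain ⟨x, y⟩ := v
  obtain ⟨a1, a2, a3, a4⟩ := (mem_verts hδ).1 hv
  simp only [pt] at a1 a2 a3 a4
  obtain ⟨x', x1, x2, x3⟩ := inner1 hδ hδη (l := o.re + (q.2.1 - 1 / 3) * mesh q.1)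
    (h := o.re + (q.2.1 + 4 / 3) * mesh q.1) (by nlinarith) a1 a2
  obtain ⟨y', y1, y2, y3⟩ := inner1 hδ hδη (l := o.im + (q.2.2 - 1 / 3) * mesh q.1)
    (h := o.im + (q.2.2 + 4 / 3) * mesh q.1) (by nlinarith) a3 a4
  have hη : 0 < η := lt_of_lt_of_le hδ hδη
  have dd : ∀ s t : ℤ, |δ * s - δ * x| ≤ 3 * η → |δ * t - δ * y| ≤ 3 * η →
      dist (pt δ (s, t)) (pt δ (x, y)) ≤ 6 * η := by
    intro s t hs ht
    rw [dist_eq_norm]
    refine (Complex.norm_le_abs_re_add_abs_im _).trans ?_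
    have e1 : (pt δ (s, t) - pt δ (x, y)).re = δ * s - δ * x := by
      simp only [pt, Complex.sub_re]
    have e2 : (pt δ (s, t) - pt δ (x, y)).im = δ * t - δ * y := by
      simp only [pt, Complex.sub_im]
    rw [e1, e2]
    linarith
  refine ⟨(x', y'), ?_, ?_, dd _ _ x3 y3⟩
  · refine (core_sub_ball o k (pt δ (x', y')) hk).trans ?_
    intro z hz
    rw [Metric.mem_ball, dist_eq_norm] at hz
    have r1 := (abs_lt.1 ((Complex.abs_re_le_norm _).trans_lt hz))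
    have r2 := (abs_lt.1 ((Complex.abs_im_le_norm _).trans_lt hz))
    simp only [pt, Complex.sub_re, Complex.sub_im] at r1 r2
    exact ⟨by linarith, by linarith, by linarith, by linarith⟩
  · have step1 : Co (kap K) (x, y) (x', y) := by
      refine co_row' fun t h1 h2 => ?_
      obtain ⟨h3, h4⟩ := between (s := o.re + (q.2.1 - 1 / 3) * mesh q.1)
        (t := o.re + (q.2.1 + 4 / 3) * mesh q.1) hδ h1 h2 ⟨a1, a2⟩ ⟨by linarith, by linarith⟩ x3
      refine hK _ ((mem_verts hδ).2 ⟨h3.1, h3.2, a3, a4⟩) (dd _ _ h4 ?_)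
      rw [sub_self, abs_zero]; positivity
    have step2 : Co (kap K) (x', y) (x', y') := by
      refine co_col' fun t h1 h2 => ?_
      obtain ⟨h3, h4⟩ := between (s := o.im + (q.2.2 - 1 / 3) * mesh q.1)
        (t := o.im + (q.2.2 + 4 / 3) * mesh q.1) hδ h1 h2 ⟨a3, a4⟩ ⟨by linarith, by linarith⟩ y3
      refine hK _ ((mem_verts hδ).2 ⟨?_, ?_, h3.1, h3.2⟩) (dd _ _ x3 h4)
      · simp only [pt]; linarith
      · simp only [pt]; linarith
    exact step1.trans step2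

/-! ### Fine cells in the cells of a family -/

lemma fine_conn (o : ℂ) {Q : Finset Cell} {qb : Cell} (hqb : qb ∈ Q)
    (hconn : ∀ q ∈ Q, Relation.ReflTransGen (fun x y => AdjC o x y ∧ x ∈ Q ∧ y ∈ Q) q qb) :
    ∃ k00, ∀ k0, k00 ≤ k0 → ∀ q ∈ Q, ∀ x : ℤ × ℤ, cfat o (k0, x) ⊆ fat o q →
      ConnC o (fun y => ∃ p ∈ Q, cfat o y ⊆ fat o p) qb k0 (k0, x) := by
  classical
  set S : Cell → Prop := fun y => ∃ p ∈ Q, cfat o y ⊆ fat o p with hS
  have key : ∀ q ∈ Q, ∃ k00, ∀ k0, k00 ≤ k0 → ∀ x : ℤ × ℤ, cfat o (k0, x) ⊆ fat o q →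
      ConnC o S qb k0 (k0, x) := by
    intro q hq
    have hadd : ∀ (q : Cell), q ∈ Q → ∀ (k0 : ℕ) (x y : ℤ × ℤ), cfat o (k0, x) ⊆ fat o q →
        cfat o (k0, y) ⊆ fat o q → ConnC o S qb k0 (k0, y) → ConnC o S qb k0 (k0, x) := by
      intro q hq k0 x y hx hy hcy
      have h1 := fine_path hx hy
      obtain ⟨q', h2, h3, h4, h5⟩ := hcy
      refine ⟨q', ?_, h3, h4, h5⟩
      refine (Relation.ReflTransGen.mono ?_ _ _ h1).trans h2
      rintro u v ⟨g1, g2, g3⟩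
      exact ⟨g1, g2, q, hq, g3⟩
    have h0 := hconn q hq
    induction h0 using Relation.ReflTransGen.head_induction_on with
    | refl =>
      refine ⟨0, fun k0 _ x hx => ConnC.single rfl ⟨qb, hqb, hx⟩ ?_⟩
      have hm := mesh_pos k0
      have h1 : (⟨o.re + (x.1 + 1 / 2) * mesh k0, o.im + (x.2 + 1 / 2) * mesh k0⟩ : ℂ) ∈
          fat o (k0, x) := by
        refine ⟨?_, ?_, ?_, ?_⟩ <;> simp only <;> nlinarith
      exact ⟨_, h1, hx (fat_sub_cfat _ _ h1)⟩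
    | @head q q' hqq _ ih =>
      obtain ⟨⟨z, hz1, hz2⟩, -, hq'⟩ := hqq
      obtain ⟨k01, hk01⟩ := ih hq'
      obtain ⟨ε, hε, hball⟩ := Metric.isOpen_iff.1 (fat_isOpen o q) z hz1
      obtain ⟨ε', hε', hball'⟩ := Metric.isOpen_iff.1 (fat_isOpen o q') z hz2
      obtain ⟨k00, hk00⟩ := mesh_lt (show (0 : ℝ) < min ε ε' / 4 by positivity)
      refine ⟨max k00 k01, fun k0 hk0 x hx => ?_⟩
      have hm := hk00 k0 (le_of_max_le_left hk0)
      have hm1 := min_le_left ε ε'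
      have hm2 := min_le_right ε ε'
      have hsub : cfat o (core o k0 z) ⊆ fat o q :=
        (core_sub_ball o k0 z (by linarith)).trans hball
      have hsub' : cfat o (core o k0 z) ⊆ fat o q' :=
        (core_sub_ball o k0 z (by linarith)).trans hball'
      exact hadd q hq k0 x (core o k0 z).2 hx hsub
        (hk01 k0 (le_of_max_le_right hk0) (core o k0 z).2 hsub')
  choose! kk hkk using key
  refine ⟨Q.sup kk, fun k0 hk0 q hq x hx => ?_⟩
  exact hkk q hq k0 ((Finset.le_sup hq).trans hk0) x hx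

/-- the visible cells and the base cell form a connected family -/
lemma Uk_conn (hD : Bornology.IsBounded D) {δ : ℝ} {o : ℂ} {qb : Cell} {k0 : ℕ}
    {E : Finset (ℤ × ℤ)} {q : Cell} (hq : q ∈ insert qb (Uk D δ o qb k0 E)) :
    Relation.ReflTransGen (fun x y => AdjC o x y ∧ x ∈ insert qb (Uk D δ o qb k0 E) ∧
      y ∈ insert qb (Uk D δ o qb k0 E)) q qb := by
  rcases mem_insert.1 hq with rfl | hq
  · exact Relation.ReflTransGen.refl
  · rw [mem_Uk hD] at hq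
    refine ConnC.induct (P := fun q => Relation.ReflTransGen (fun x y => AdjC o x y ∧
      x ∈ insert qb (Uk D δ o qb k0 E) ∧ y ∈ insert qb (Uk D δ o qb k0 E)) q qb) ?_ ?_ hq
    · intro q hq1 hq2 hq3
      refine Relation.ReflTransGen.single ⟨hq3, mem_insert_of_mem ?_, mem_insert_self _ _⟩
      exact (mem_Uk hD).2 (ConnC.single hq1 hq2 hq3)
    · intro q q' hq1 hq2 hq3 hq4 ih
      refine Relation.ReflTransGen.head ⟨hq3, mem_insert_of_mem ?_, mem_insert_of_mem ?_⟩ ih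
      · exact (mem_Uk hD).2 (ConnC.cons hq1 hq2 hq3 hq4)
      · exact (mem_Uk hD).2 hq4

/-! ### The set `K` -/

section

variable {A : Approx D a b A₁ A₂} {r0 : ℝ}

/-- the visible cells and the base cell -/
noncomputable def Ub (B : Base A r0) (k0 n : ℕ) (E : Finset (ℤ × ℤ)) : Finset Cell :=
  insert B.qb (Uk D (A.δ n) B.o B.qb k0 E)

lemma base_qb_mem (B : Base A r0) (M : ℕ) : B.qb ∈ B.Q M := by
  induction M with
  | zero => exact B.qb_mem
  | succ M ih => exact B.mono M ih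

/-- **The set around which the contour is taken.** -/
theorem kset (hDo : IsOpen D) (hDb : Bornology.IsBounded D) (hA : IsArcs D a b A₁ A₂)
    (B : Base A r0) {ρ1 : ℝ} (hρ1 : 0 < ρ1) :
    ∃ k00, ∀ k0, k00 ≤ k0 → ∀ᶠ n in atTop, ∀ (ω : Finset (ℤ × ℤ)) (hω : ω ⊆ (X0 A n).E) (t : ℕ),
      t ≤ (X0 A n).len ω → (∀ u < t, plab ((X0 A n).cor ω u) ∉ star (B.N n)) →
      ∃ K : Finset (ℤ × ℤ), vx (X0 A n).β ∈ K ∧
        (∀ u ∈ K, ∀ v ∈ K, Co (kp (env (X0 A n) ω hω t) K) u v) ∧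
        Vn (A.δ n) B.o (Ub B k0 n (env (X0 A n) ω hω t).E) ⊆ K ∧
        (∀ v ∈ K, v ∈ Vn (A.δ n) B.o (Ub B k0 n (env (X0 A n) ω hω t).E) ∨
          (v ∈ B.N n ∧ dist (pt (A.δ n) v) b < ρ1)) ∧
        star K ⊆ star (B.F k0 n (env (X0 A n) ω hω t).E) ∧
        ∀ k < t, plab ((X0 A n).cor ω k) ∉ star K := by
  classical
  -- the barrier
  obtain ⟨M, hM⟩ : ∃ M, B.r M < ρ1 / 8 :=
    (B.rlim.eventually_lt_const (show (0 : ℝ) < ρ1 / 8 by positivity)).exists
  have hrM := B.rpos M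
  obtain ⟨k01, hk01⟩ := fine_conn B.o (base_qb_mem B M)
    (fun q hq => B.connQ M q hq _ (base_qb_mem B M))
  have hmesh : ∃ η : ℝ, 0 < η ∧ η ≤ ρ1 / 20 ∧ ∀ q ∈ B.Q M, 7 * η ≤ mesh q.1 := by
    set L := (B.Q M).sup fun q => q.1 with hL
    refine ⟨min (ρ1 / 20) (mesh L / 7), lt_min (by positivity) (by have := mesh_pos L; positivity),
      min_le_left _ _, fun q hq => ?_⟩
    have h1 : q.1 ≤ L := Finset.le_sup (f := fun q : Cell => q.1) hq
    have h2 : mesh L ≤ mesh q.1 := pow_le_pow_of_le_one (by norm_num) (by norm_num) h1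
    have h3 := min_le_right (ρ1 / 20) (mesh L / 7)
    linarith
  obtain ⟨η, hη, hη1, hη2⟩ := hmesh
  obtain ⟨k02, hk02⟩ := mesh_lt (show (0 : ℝ) < η / 2 by positivity)
  refine ⟨max k01 k02, fun k0 hk0 => ?_⟩
  have hm0 := hk02 k0 (le_of_max_le_right hk0)
  have hfine := hk01 k0 (le_of_max_le_left hk0)
  have hQD : ∀ q ∈ B.Q M, cfat B.o q ⊆ D := fun q hq =>
    (B.subQ M q hq).trans Set.inter_subset_left
  set kk := max k0 B.qb.1 with hkk
  -- large `n`
  have e1 : ∀ᶠ n in atTop, A.δ n < η := A.lim.eventually_lt_const hη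
  have e2 : ∀ᶠ n in atTop, A.δ n < mesh (kk + 1) := A.lim.eventually_lt_const (mesh_pos _)
  have e3 : ∀ᶠ n in atTop, dist (pt (A.δ n) (A.X n).β.1) b < ρ1 / 8 :=
    (Metric.tendsto_nhds.1 A.limβ) _ (by positivity)
  filter_upwards [B.hN M, star_free hDo hDb hA A B.o hQD, B.conn, B.beta, e1, e2, e3]
    with n hN hfree hconn hbeta h1 h2 h3
  have hδ := A.pos n
  intro ω hω t ht hunm
  obtain ⟨N', hN1, hN2⟩ := hN
  set Y := env (X0 A n) ω hω t with hY
  have hβY : Y.β = (X0 A n).β := rfl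
  have hβdist : dist (pt (A.δ n) (vx (X0 A n).β)) b < ρ1 / 8 := by
    have : vx (X0 A n).β = (A.X n).β.1 := by
      unfold X0
      rw [toDEnv_β, vx_cor]
    rw [this]
    exact h3
  -- free labels
  have hVN : Vn (A.δ n) B.o (B.Q M) ⊆ B.N n := by rw [hN1]; exact subset_union_left
  have hNEW : ∀ e ∈ star (B.N n), e ∈ (X0 A n).E ∪ (X0 A n).W → e ∈ Y.E ∪ Y.W := by
    intro e he heX
    rcases mem_union.1 heX with h | h
    · exact mem_union_left _ ((mem_env_E hω ht).2 ⟨h, fun k hk h' => hunm k hk (h' ▸ he)⟩)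
    · exact mem_union_right _ ((mem_env_W hω ht).2 (Or.inl h))
  have hQE : star (Vn (A.δ n) B.o (B.Q M)) ⊆ Y.E := fun e he =>
    (mem_env_E hω ht).2 ⟨hfree he, fun k hk h' => hunm k hk (h' ▸ star_mono hVN he)⟩
  have hfineU : ∀ q ∈ B.Q M, ∀ x : ℤ × ℤ, cfat B.o (k0, x) ⊆ fat B.o q →
      (k0, x) ∈ Uk D (A.δ n) B.o B.qb k0 Y.E := by
    intro q hq x hx
    rw [mem_Uk hDb]
    refine (hfine q hq x hx).mono ?_
    rintro y ⟨p, hp, hyp⟩
    refine ⟨(hyp.trans (fat_sub_cfat _ _)).trans (hQD p hp), (star_mono ?_).trans hQE⟩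
    intro w hw
    rw [mem_verts hδ] at hw
    exact mem_Vn.2 ⟨p, hp, (mem_verts hδ).2 (hyp (fat_sub_cfat _ _ hw))⟩
  set V := Vn (A.δ n) B.o (Ub B k0 n Y.E) with hV
  have hVE : star V ⊆ Y.E := by
    intro e he
    obtain ⟨v, hv, hev⟩ := mem_star.1 he
    obtain ⟨q, hq, hvq⟩ := mem_Vn.1 hv
    rcases mem_insert.1 hq with rfl | hq
    · exact hQE (mem_star.2 ⟨v, mem_Vn.2 ⟨_, base_qb_mem B M, hvq⟩, hev⟩)
    · rw [mem_Uk hDb] at hq
      exact hq.head.2.2 (mem_star.2 ⟨v, hvq, hev⟩)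
  -- the sets
  set K0 : Finset (ℤ × ℤ) := V ∪ (B.N n).filter (fun v => dist (pt (A.δ n) v) b < ρ1) with hK0
  set K : Finset (ℤ × ℤ) := K0.filter (fun v => Co (kp Y K0) (vx (X0 A n).β) v) with hK
  have hβK0 : vx (X0 A n).β ∈ K0 :=
    mem_union_right _ (mem_filter.2 ⟨hbeta, by linarith⟩)
  -- the path from the end of the path to `Vn (Q M)`
  have hnear : ∃ v1 ∈ Vn (A.δ n) B.o (B.Q M), dist (pt (A.δ n) v1) b < ρ1 / 4 ∧
      Co (kp Y K0) (vx (X0 A n).β) v1 := by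
    obtain ⟨v0, hv0⟩ := Pool.Agent.H42.Q1.verts_nonempty hδ h2 (q := B.qb) (le_max_right _ _)
    have hv0M : v0 ∈ Vn (A.δ n) B.o (B.Q M) := mem_Vn.2 ⟨_, base_qb_mem B M, hv0⟩
    have hpath := hconn _ hbeta _ (hVN hv0M)
    have key : ∀ v, Co (kap (B.N n) ∩ ((X0 A n).E ∪ (X0 A n).W)) (vx (X0 A n).β) v →
        (∃ v1 ∈ Vn (A.δ n) B.o (B.Q M), dist (pt (A.δ n) v1) b < ρ1 / 4 ∧
          Co (kp Y K0) (vx (X0 A n).β) v1) ∨
        (v ∉ Vn (A.δ n) B.o (B.Q M) ∧ v ∈ K0 ∧ dist (pt (A.δ n) v) b < ρ1 / 8 ∧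
          Co (kp Y K0) (vx (X0 A n).β) v) := by
      intro v hv
      induction hv with
      | refl =>
        by_cases hc : vx (X0 A n).β ∈ Vn (A.δ n) B.o (B.Q M)
        · exact Or.inl ⟨_, hc, by linarith, Co.refl _ _⟩
        · exact Or.inr ⟨hc, hβK0, hβdist, Co.refl _ _⟩
      | @tail u w _ huw ih =>
        rcases ih with ih | ⟨i1, i2, i3, i4⟩
        · exact Or.inl ih
        obtain ⟨hU, hlab⟩ := huw
        rw [mem_inter] at hlab
        obtain ⟨hl1, hl2⟩ := hlab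
        obtain ⟨ho, hends⟩ := Pool.Agent.H42.Q1.ends_add hU
        have hwN : u ∈ B.N n ∧ w ∈ B.N n := by
          rw [mem_kap_iff ho] at hl1
          rcases hends with ⟨g1, g2⟩ | ⟨g1, g2⟩
          · rw [g1, g2] at hl1; exact hl1
          · rw [g1, g2] at hl1; exact ⟨hl1.2, hl1.1⟩
        have hdw : dist (pt (A.δ n) w) b < ρ1 / 4 := by
          have := dist_unit hδ hU
          have h4 := dist_triangle (pt (A.δ n) w) (pt (A.δ n) u) b
          rw [dist_comm (pt (A.δ n) w) (pt (A.δ n) u)] at h4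
          linarith
        have hwK0 : w ∈ K0 := mem_union_right _ (mem_filter.2 ⟨hwN.2, by linarith⟩)
        have hstep : Co (kp Y K0) (vx (X0 A n).β) w := by
          refine i4.tail ⟨hU, mem_kp.2 ⟨?_, ?_⟩⟩
          · rw [mem_kap_iff ho]
            rcases hends with ⟨g1, g2⟩ | ⟨g1, g2⟩ <;> rw [g1, g2]
            · exact ⟨i2, hwK0⟩
            · exact ⟨hwK0, i2⟩
          · exact mem_union.1 (hNEW _ (kap_sub_star _ hl1) hl2)
        by_cases hc : w ∈ Vn (A.δ n) B.o (B.Q M)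
        · exact Or.inl ⟨w, hc, hdw, hstep⟩
        · right
          refine ⟨hc, hwK0, ?_, hstep⟩
          have h5 : w ∈ N' := by
            have := hwN.2
            rw [hN1] at this
            exact (mem_union.1 this).resolve_left hc
          have := hN2 w h5
          rw [Metric.mem_ball] at this
          linarith
    rcases key v0 hpath with h | h
    · exact h
    · exact absurd hv0M h.1
  obtain ⟨v1, hv1, hv1b, hv1c⟩ := hnear
  obtain ⟨q1, hq1, hv1q⟩ := mem_Vn.1 hv1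
  -- moving to a visible cell
  have hK1sub : kap ((verts (A.δ n) B.o q1).filter (fun v => dist (pt (A.δ n) v) b < ρ1)) ⊆
      kp Y K0 := by
    intro e he
    have ho := odd_star (kap_sub_star _ he)
    rw [mem_kap_iff ho, mem_filter, mem_filter] at he
    have hin : ∀ v, v ∈ verts (A.δ n) B.o q1 → v ∈ Vn (A.δ n) B.o (B.Q M) := fun v hv =>
      mem_Vn.2 ⟨q1, hq1, hv⟩
    rw [mem_kp]
    refine ⟨?_, Or.inl (hQE ?_)⟩
    · rw [mem_kap_iff ho]
      exact ⟨mem_union_right _ (mem_filter.2 ⟨hVN (hin _ he.1.1), he.1.2⟩),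
        mem_union_right _ (mem_filter.2 ⟨hVN (hin _ he.2.1), he.2.2⟩)⟩
    · rw [mem_star_iff ho]
      exact Or.inl (hin _ he.1.1)
  obtain ⟨w1, hw1, hw2, hw3⟩ := inward hδ h1.le (hη2 q1 hq1) (k := k0) (by linarith) hv1q
    (K := (verts (A.δ n) B.o q1).filter (fun v => dist (pt (A.δ n) v) b < ρ1)) (by
      intro w hw hwd
      refine mem_filter.2 ⟨hw, ?_⟩
      have := dist_triangle (pt (A.δ n) w) (pt (A.δ n) v1) b
      linarith)
  have hw1V : w1 ∈ V := by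
    refine mem_Vn.2 ⟨core B.o k0 (pt (A.δ n) w1), mem_insert_of_mem ?_, ?_⟩
    · exact hfineU q1 hq1 (core B.o k0 (pt (A.δ n) w1)).2 hw1
    · exact (mem_verts hδ).2 (mem_core _ _ _)
  have hβw1 : Co (kp Y K0) (vx (X0 A n).β) w1 := hv1c.trans (hw2.mono hK1sub)
  -- connectivity of the visible cells
  have hVc : ∀ u ∈ V, ∀ v ∈ V, Co (kap V) u v := by
    intro u hu v hv
    obtain ⟨q, hq, huq⟩ := mem_Vn.1 hu
    obtain ⟨q', hq', hvq⟩ := mem_Vn.1 hv
    have hno : ∀ w, ¬ RB (0 : ℤ) (-1) 0 (-1) w := by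
      rintro w ⟨g1, g2, -, -⟩
      omega
    have h1k : (((-1 : ℤ) - 0 : ℤ) : ℝ) + 2 < mesh (kk + 1) / A.δ n := by
      rw [lt_div_iff₀ hδ]; push_cast; linarith
    have hlev : ∀ q ∈ Ub B k0 n Y.E, q.1 ≤ kk := by
      intro q hq
      rcases mem_insert.1 hq with rfl | hq
      · exact le_max_right _ _
      · rw [mem_Uk hDb] at hq
        rw [hq.head.1]
        exact le_max_left _ _
    have hto : ∀ (q : Cell), q ∈ Ub B k0 n Y.E → ∀ u ∈ verts (A.δ n) B.o q, ∀ v0,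
        v0 ∈ verts (A.δ n) B.o B.qb → Co (kap V) u v0 := by
      intro q hq u hu v0 hv0
      exact route hδ h2 hlev h1k h1k
        (fun q hq v hv _ => mem_Vn.2 ⟨q, hq, hv⟩) hq (Uk_conn hDb hq) hu (hno u) hv0 (hno v0)
    obtain ⟨v0, hv0⟩ := Pool.Agent.H42.Q1.verts_nonempty hδ h2 (q := B.qb) (le_max_right _ _)
    exact (hto q hq u huq v0 hv0).trans (hto q' hq' v hvq v0 hv0).symm
  have hkapV : kap V ⊆ kp Y K0 := by
    intro e he
    have ho := odd_star (kap_sub_star _ he)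
    rw [mem_kp]
    refine ⟨?_, Or.inl (hVE (kap_sub_star _ he))⟩
    rw [mem_kap_iff ho] at he ⊢
    exact ⟨mem_union_left _ he.1, mem_union_left _ he.2⟩
  have hVK : V ⊆ K := by
    intro v hv
    refine mem_filter.2 ⟨mem_union_left _ hv, ?_⟩
    exact hβw1.trans ((hVc w1 hw1V v hv).mono hkapV)
  -- connectivity of `K`
  have hKc : ∀ v, Co (kp Y K0) (vx (X0 A n).β) v → Co (kp Y K) (vx (X0 A n).β) v ∧ v ∈ K := by
    intro v hv
    induction hv with
    | refl => exact ⟨Co.refl _ _, mem_filter.2 ⟨hβK0, Co.refl _ _⟩⟩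
    | @tail u w hu huw ih =>
      obtain ⟨hU, hlab⟩ := huw
      rw [mem_kp] at hlab
      obtain ⟨ho, hends⟩ := Pool.Agent.H42.Q1.ends_add hU
      have hw0 : w ∈ K0 := by
        have := (mem_kap_iff ho).1 hlab.1
        rcases hends with ⟨g1, g2⟩ | ⟨g1, g2⟩
        · rw [g2] at this; exact this.2
        · rw [g1] at this; exact this.1
      have hcow : Co (kp Y K0) (vx (X0 A n).β) w := hu.tail ⟨hU, mem_kp.2 hlab⟩
      have hwK : w ∈ K := mem_filter.2 ⟨hw0, hcow⟩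
      refine ⟨ih.1.tail ⟨hU, mem_kp.2 ⟨?_, hlab.2⟩⟩, hwK⟩
      rw [mem_kap_iff ho]
      rcases hends with ⟨g1, g2⟩ | ⟨g1, g2⟩ <;> rw [g1, g2]
      · exact ⟨ih.2, hwK⟩
      · exact ⟨hwK, ih.2⟩
  have hsub : ∀ v ∈ K, v ∈ V ∨ (v ∈ B.N n ∧ dist (pt (A.δ n) v) b < ρ1) := by
    intro v hv
    rcases mem_union.1 (mem_filter.1 hv).1 with h | h
    · exact Or.inl h
    · exact Or.inr (mem_filter.1 h)
  have hstar : star K ⊆ star (B.F k0 n Y.E) := by
    refine star_mono fun v hv => ?_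
    unfold Base.F
    rcases hsub v hv with h | h
    · obtain ⟨q, hq, hvq⟩ := mem_Vn.1 h
      rcases mem_insert.1 hq with rfl | hq
      · exact mem_union_right _ (hVN (mem_Vn.2 ⟨_, base_qb_mem B M, hvq⟩))
      · exact mem_union_left _ (mem_Vn.2 ⟨q, hq, hvq⟩)
    · exact mem_union_right _ h.1
  refine ⟨K, mem_filter.2 ⟨hβK0, Co.refl _ _⟩, ?_, hVK, hsub, hstar, ?_⟩
  · intro u hu v hv
    exact (hKc u (mem_filter.1 hu).2).1.symm.trans (hKc v (mem_filter.1 hv).2).1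
  · intro k hk hmem
    obtain ⟨v, hv, hev⟩ := mem_star.1 hmem
    rcases hsub v hv with h | h
    · exact ((mem_env_E hω ht).1 (hVE (mem_star.2 ⟨v, h, hev⟩))).2 k hk rfl
    · exact hunm k hk (mem_star.2 ⟨v, h.1, hev⟩)

end

end Pool.Agent.H43.Q1
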