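import Mathlib
import Pool.Agent.H43.Q1.Kset

set_option autoImplicit false
open Finset Filter Topology

/-! # Small gates at all times before the barrier is met

`StTyp` : types of the labels around the visible cells. `stGate_of_typ` : `StTyp` implies `StGate`.
`stSmall_of_typ` : `StTyp` implies `StSmall`. -/

namespace Pool.Agent.H43.Q1

open Pool.Agent.H75.Perc Pool.Agent.H75.TwoArm Pool.Agent.H75.Four Pool.Agent.H99.NC
open Pool.Agent.H69.Q1 Pool.Agent.H39.Q1 Pool.Agent.H28.Q1 Pool.Agent.H65.Dom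
open Pool.Agent.H81.Q1 (pt DDomain Approx IsJordanDomain IsArcs toDEnv_E toDEnv_W toDEnv_β
  Corner)
open Pool.Agent.Q1.M3
open Pool.Agent.H42.Q1 (route RB)

variable {D : Set ℂ} {a b : ℂ} {A₁ A₂ : Set ℂ}

/-- **[TYP]** Types of the labels around the visible cells (deterministic). -/
def StTyp (A : Approx D a b A₁ A₂) : Prop :=
  ∀ (r0 : ℝ) (B : Base A r0) (ρ1 : ℝ), 0 < ρ1 → ∃ k00, ∀ k0, k00 ≤ k0 → ∀ᶠ n in atTop,
    ∀ (ω : Finset (ℤ × ℤ)) (hω : ω ⊆ (X0 A n).E) (t : ℕ), t ≤ (X0 A n).len ω →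
      (∀ u < t, plab ((X0 A n).cor ω u) ∉ star (B.N n)) →
      ∀ K : Finset (ℤ × ℤ), Vn (A.δ n) B.o (Ub B k0 n (env (X0 A n) ω hω t).E) ⊆ K →
        (∀ v ∈ K, v ∈ Vn (A.δ n) B.o (Ub B k0 n (env (X0 A n) ω hω t).E) ∨
          dist (pt (A.δ n) v) b < ρ1) →
        ∀ c, vx c ∈ K → vx (oc c) ∉ K → plab c ∈ (env (X0 A n) ω hω t).E →
          HalfA (env (X0 A n) ω hω t) K ⌈8 * mesh k0 / A.δ n⌉ (plab c) ∨
          HalfL (env (X0 A n) ω hω t) K ⌈8 * mesh k0 / A.δ n⌉ (plab c) ∨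
          dist (pt (A.δ n) (vx c)) b < 2 * ρ1

/-- cells of a family are joined to the base cell inside the family -/
lemma fam_conn {A : Approx D a b A₁ A₂} {r0 : ℝ} {B : Base A r0} {k1 : ℕ} {C : Finset Cell}
    (hF : Fam B k1 C) {q : Cell} (hq : q ∈ insert B.qb C) :
    Relation.ReflTransGen (fun x y => AdjC B.o x y ∧ x ∈ insert B.qb C ∧ y ∈ insert B.qb C)
      q B.qb := by
  rcases mem_insert.1 hq with rfl | hq
  · exact Relation.ReflTransGen.refl
  · have h1 := hF.conn q hq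
    refine ConnC.induct (P := fun q => Relation.ReflTransGen (fun x y => AdjC B.o x y ∧
      x ∈ insert B.qb C ∧ y ∈ insert B.qb C) q B.qb) ?_ ?_ h1
    · intro q _ hq2 hq3
      exact Relation.ReflTransGen.single ⟨hq3, mem_insert_of_mem hq2, mem_insert_self _ _⟩
    · intro q q' _ hq2 hq3 hq4 ih
      exact Relation.ReflTransGen.head ⟨hq3, mem_insert_of_mem hq2, mem_insert_of_mem hq4.head.2⟩
        ih

/-- **Small gates.** -/
theorem stGate_of_typ (hDo : IsOpen D) (hDb : Bornology.IsBounded D) (hA : IsArcs D a b A₁ A₂)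
    (A : Approx D a b A₁ A₂) (hT : StTyp A) : StGate A := by
  classical
  intro ε hε
  refine ⟨1, one_pos, fun B k1 C hF => ?_⟩
  set C' := insert B.qb C with hC'
  have hC'D : ∀ q ∈ C', cfat B.o q ⊆ D := by
    intro q hq
    rcases mem_insert.1 hq with rfl | hq
    · exact (B.subQ 0 _ B.qb_mem).trans Set.inter_subset_left
    · exact hF.sub q hq
  obtain ⟨d, hd, hfar⟩ := orig_far hDo hA A B.o hC'D
  set s := min ε d with hs
  have hs0 : 0 < s := lt_min hε hd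
  have hsε : s ≤ ε := min_le_left _ _
  have hsd : s ≤ d := min_le_right _ _
  obtain ⟨k01, hk01⟩ := kset hDo hDb hA B (ρ1 := s / 20) (by positivity)
  obtain ⟨k02, hk02⟩ := hT 1 B (s / 20) (by positivity)
  obtain ⟨k03, hk03⟩ := mesh_lt (show (0 : ℝ) < s / 80 by positivity)
  refine ⟨max k01 (max k02 k03), fun k0 hk0 => ?_⟩
  have hk0' := le_of_max_le_right hk0
  have hm0 := hk03 k0 (le_of_max_le_right hk0')
  set kk := max k1 B.qb.1 with hkk
  have e1 : ∀ᶠ n in atTop, A.δ n < s / 100 := A.lim.eventually_lt_const (by positivity)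
  have e2 : ∀ᶠ n in atTop, A.δ n < mesh (kk + 1) := A.lim.eventually_lt_const (mesh_pos _)
  filter_upwards [hk01 k0 (le_of_max_le_left hk0), hk02 k0 (le_of_max_le_left hk0'), hfar,
    star_free hDo hDb hA A B.o hC'D, e1, e2] with n h1 h2 h3 h4 h5 h6
  intro ω hω t hMid
  have hδ := A.pos n
  obtain ⟨ht, hmet, hunm⟩ := hMid
  obtain ⟨K, hK1, hK2, hK3, hK4, hK5, hK6⟩ := h1 ω hω t ht hunm
  -- the scales
  set ρ : ℤ := ⌈8 * mesh k0 / A.δ n⌉ with hρd
  set ρb : ℤ := ⌈s / 10 / A.δ n⌉ + 1 with hρbd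
  have hm := mesh_pos k0
  have hρ : 0 ≤ ρ := Int.ceil_nonneg (by positivity)
  have hρb : 0 ≤ ρb := by
    have : (0 : ℤ) ≤ ⌈s / 10 / A.δ n⌉ := Int.ceil_nonneg (by positivity)
    omega
  have hρle : A.δ n * ρ ≤ s / 10 + A.δ n := by
    have := mul_le_mul_of_nonneg_left (Int.ceil_lt_add_one (8 * mesh k0 / A.δ n)).le hδ.le
    rw [mul_add, mul_div_cancel₀ _ hδ.ne', ← hρd] at this
    linarith
  have hρble : A.δ n * ρb ≤ s / 10 + 2 * A.δ n := by
    have := mul_le_mul_of_nonneg_left (Int.ceil_lt_add_one (s / 10 / A.δ n)).le hδ.le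
    rw [mul_add, mul_div_cancel₀ _ hδ.ne'] at this
    rw [hρbd]
    push_cast
    linarith
  set V := Vn (A.δ n) B.o C' with hV
  have hCV : Vn (A.δ n) B.o C ⊆ V := Vn_mono (subset_insert _ _)
  have hno : ∀ w, ¬ RB (0 : ℤ) (-1) 0 (-1) w := by
    rintro w ⟨g1, g2, -, -⟩
    omega
  have h1k : (((-1 : ℤ) - 0 : ℤ) : ℝ) + 2 < mesh (kk + 1) / A.δ n := by
    rw [lt_div_iff₀ hδ]; push_cast; linarith
  have hlev : ∀ q ∈ C', q.1 ≤ kk := by
    intro q hq
    rcases mem_insert.1 hq with rfl | hq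
    · exact le_max_right _ _
    · rw [hF.lev q hq]
      exact le_max_left _ _
  refine gateAt_of_typed hω (Pool.Agent.H28.Q1.inv_toDEnv _) ht hK5 hK2 hK1 hK6 (V := V) h4 ?_ ?_
    (ρ := ρ) (ρb := ρb) hρ hρb (pb := ctr (A.δ n) b) ?_ ?_ ?_ ?_
  · intro v hv
    obtain ⟨q, hq, hvq⟩ := mem_Vn.1 hv
    obtain ⟨v0, hv0⟩ := Pool.Agent.H42.Q1.verts_nonempty hδ h6 (q := B.qb) (le_max_right _ _)
    refine ⟨v0, hK3 (mem_Vn.2 ⟨_, mem_insert_self _ _, hv0⟩), ?_⟩
    exact route hδ h6 hlev h1k h1k (fun q hq v hv _ => mem_Vn.2 ⟨q, hq, hv⟩) hq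
      (fam_conn hF hq) hvq (hno v) hv0 (hno v0)
  · obtain ⟨u, hu, hu'⟩ := hmet
    exact ⟨u, hu, star_mono hCV hu'⟩
  · intro c hc1 hc2 hc3
    rcases h2 ω hω t ht hunm K hK3 (fun v hv => (hK4 v hv).imp_right And.right) c hc1 hc2 hc3
      with h | h | h
    · exact Or.inl h
    · exact Or.inr (Or.inl h)
    · refine Or.inr (Or.inr (near_of_dist hδ h.le ?_))
      rw [hρbd]
      push_cast
      have : 2 * (s / 20) = s / 10 := by ring
      rw [this]
      linarith [Int.le_ceil (s / 10 / A.δ n)]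
  · intro κ P Dd g g' p r hG hr hs hg hg' hco _ v hv
    refine h3 p (vx g) r ?_ hg hco v hv
    rcases hr with hr | ⟨hr, -⟩ <;> rw [hr] <;> push_cast <;> nlinarith
  · rw [Int.le_floor, le_div_iff₀ hδ]
    push_cast
    nlinarith
  · rw [Int.le_floor, le_div_iff₀ hδ]
    push_cast
    nlinarith

/-- **The steps are small** in Jordan domains, from `StTyp`. -/
theorem stSmall_of_typ (hD : IsJordanDomain D) (hA : IsArcs D a b A₁ A₂)
    (A : Approx D a b A₁ A₂) (hab : a ≠ b) (hT : StTyp A) : StSmall A :=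
  stSmall_of_ok hD hA A hab (stOk_of_stGate hD.2.2.1 hD.2.1.nonempty hA A
    (stGate_of_typ hD.1 hD.2.2.1 hA A hT))

end Pool.Agent.H43.Q1
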